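import Pool.Agent.Lib.MP_d16eef_co.SmallChk

/-! An explicit sequence for `n = 12`. -/

set_option maxRecDepth 100000

namespace RunMult

theorem adm_12 : Adm 12 :=
  adm_of_seq 12 4095
    0x162d1df752f7bb2b234cff2fcada5d8e584f25f4bfbf1cfaa48ca78933b685ed278074ee4c33ee319afacbaa02e0beddcd25d1a0dc3b81924a1fdb2dd136a9b71c6ed1013a65a8a864a55e1eb9fc0e4386ccaedce5cec899050dbc40daece6b7f5b24966e6069d55f3f15bdfc4479608258916abe6ca5ca6a3561e2d8982de6a57b03dadb75654174fcc2827d8c099917830dd3677f856bdcbd7abf444ed350ec57df1a08dedb3f5f873a0a8f0d0d283556710a2ceb53011f78cb8f1f8399a6ebe269f0c25c32d6da83c1129c3f22262ef0bff5263cea7bea064312b922c10955d6784d74228dc8ae96df08876f4882ccc4e623803ed48a7d187c158a6f96cd8637fcf511af38cf2cb3e776c2231563b30eaa5a54c90086fb3d0e51487d3d6176ad14b00a3e65e292a2eba853368caa7f49aa27fdddfab603161a8e21e6310e8f4737ee7ba03c855c4f6fce79f1eab72bfd03b5fcd00ccc1fb40a745f24dc54a6272393b06519c08b1fc9a360a514247fb2f80e09bc0ee02aa841b83d39c2dac9fbd4d2c96fa05e54833a40b5cb63de78d901ae102435883e40fff1859086948edeb418faeeb761c7c5fb0a9d83bcbb88c552d605e460d8bd30858a00251d63277b26c3b8521e67b344909c1a3f4d098b99329e6ef41c5942f38ea31d0c00de4f4a531ad69191ec4551ab9b63485c83ae353956af45663849d78ee927ca4e280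
    0 542 3 (by norm_num) (by decide +kernel)

end RunMult
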