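import Pool.Agent.Lib.MP_d16eef_co.P.SivInst
import Pool.Agent.Lib.MP_d16eef_co.P.Cert12
import Pool.Agent.Lib.MP_d16eef_co.P.CertA
import Pool.Agent.Lib.MP_d16eef_co.P.CertB
import Pool.Agent.Lib.MP_d16eef_co.P.CertC
import Pool.Agent.Lib.MP_d16eef_co.P.CertD
import Pool.Agent.Lib.MP_d16eef_co.P.CertE
import Pool.Agent.Lib.MP_d16eef_co.P.CertF
import Pool.Agent.Lib.MP_d16eef_co.P.CertG
import Pool.Agent.Lib.MP_d16eef_co.P.CertH
import Pool.Agent.Lib.MP_d16eef_co.Q.Main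
import Pool.Agent.Lib.MP_d16eef_co.AllN

/-! All `n > 5`. -/

namespace RunMult

theorem adm_four_small (n : ℕ) (h1 : 12 ≤ n) (h2 : n < 256) (h4 : 4 ∣ n)
    (h : n % 16 = 0 ∨ (n % 16 = 8 ∧ n < 232) ∨ (n % 8 = 4 ∧ n < 116)) : Adm n := by
  interval_cases n <;> try (exfalso; omega)
  exacts [adm_12, adm_16, adm_20, adm_24, adm_28, adm_32, adm_36, adm_40, adm_44, adm_48, adm_52, adm_56, adm_60, adm_64, adm_68, adm_72, adm_76, adm_80, adm_84, adm_88, adm_92, adm_96, adm_100, adm_104, adm_108, adm_112, adm_120, adm_128, adm_136, adm_144, adm_152, adm_160, adm_168, adm_176, adm_184, adm_192, adm_200, adm_208, adm_216, adm_224, adm_240]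

theorem adm_four_siv (n : ℕ) (h : (n % 8 = 4 ∧ 116 ≤ n ∧ n < 268) ∨ (n % 16 = 8 ∧ 232 ≤ n ∧ n < 568)) :
    Adm n := by
  have h1 : 116 ≤ n := by omega
  have h2 : n < 568 := by omega
  rcases h with h | h
  · obtain ⟨h3, h4, h5⟩ := h
    interval_cases n <;> try (exfalso; omega)
    exacts [adm_s116, adm_s124, adm_s132, adm_s140, adm_s148, adm_s156, adm_s164, adm_s172, adm_s180, adm_s188, adm_s196, adm_s204, adm_s212, adm_s220, adm_s228, adm_s236, adm_s244, adm_s252, adm_s260]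
  · obtain ⟨h3, h4, h5⟩ := h
    interval_cases n <;> try (exfalso; omega)
    exacts [adm_s232, adm_s248, adm_s264, adm_s280, adm_s296, adm_s312, adm_s328, adm_s344, adm_s360, adm_s376, adm_s392, adm_s408, adm_s424, adm_s440, adm_s456, adm_s472, adm_s488, adm_s504, adm_s520, adm_s536, adm_s552]

theorem pow_ineq4 (m : ℕ) (hm : 67 ≤ m) : (128 * m) ^ 5 ≤ 2 ^ m := by
  induction m, hm using Nat.le_induction with
  | base => norm_num
  | succ m hm ih =>
    have h1 : (128 * (m + 1)) ^ 5 ≤ 2 * (128 * m) ^ 5 := by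
      have h2 : 67 * (128 * (m + 1)) ≤ 68 * (128 * m) := by omega
      have h3 : (67 * (128 * (m + 1))) ^ 5 ≤ (68 * (128 * m)) ^ 5 := Nat.pow_le_pow_left h2 5
      rw [mul_pow, mul_pow 68] at h3
      have h4 : (68 : ℕ) ^ 5 ≤ 67 ^ 5 * 2 := by norm_num
      have h5 : 67 ^ 5 * (128 * (m + 1)) ^ 5 ≤ 67 ^ 5 * (2 * (128 * m) ^ 5) := by
        calc 67 ^ 5 * (128 * (m + 1)) ^ 5 ≤ 68 ^ 5 * (128 * m) ^ 5 := h3
          _ ≤ 67 ^ 5 * 2 * (128 * m) ^ 5 := Nat.mul_le_mul_right _ h4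
          _ = 67 ^ 5 * (2 * (128 * m) ^ 5) := by ring
      exact Nat.le_of_mul_le_mul_left h5 (by norm_num)
    calc (128 * (m + 1)) ^ 5 ≤ 2 * (128 * m) ^ 5 := h1
      _ ≤ 2 * 2 ^ m := Nat.mul_le_mul_left 2 ih
      _ = 2 ^ (m + 1) := by ring

theorem pow_ineq8 (m : ℕ) (hm : 71 ≤ m) : (256 * m) ^ 5 ≤ 2 ^ m := by
  induction m, hm using Nat.le_induction with
  | base => norm_num
  | succ m hm ih =>
    have h1 : (256 * (m + 1)) ^ 5 ≤ 2 * (256 * m) ^ 5 := by
      have h2 : 71 * (256 * (m + 1)) ≤ 72 * (256 * m) := by omega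
      have h3 : (71 * (256 * (m + 1))) ^ 5 ≤ (72 * (256 * m)) ^ 5 := Nat.pow_le_pow_left h2 5
      rw [mul_pow, mul_pow 72] at h3
      have h4 : (72 : ℕ) ^ 5 ≤ 71 ^ 5 * 2 := by norm_num
      have h5 : 71 ^ 5 * (256 * (m + 1)) ^ 5 ≤ 71 ^ 5 * (2 * (256 * m) ^ 5) := by
        calc 71 ^ 5 * (256 * (m + 1)) ^ 5 ≤ 72 ^ 5 * (256 * m) ^ 5 := h3
          _ ≤ 71 ^ 5 * 2 * (256 * m) ^ 5 := Nat.mul_le_mul_right _ h4
          _ = 71 ^ 5 * (2 * (256 * m) ^ 5) := by ring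
      exact Nat.le_of_mul_le_mul_left h5 (by norm_num)
    calc (256 * (m + 1)) ^ 5 ≤ 2 * (256 * m) ^ 5 := h1
      _ ≤ 2 * 2 ^ m := Nat.mul_le_mul_left 2 ih
      _ = 2 ^ (m + 1) := by ring

theorem adm_four (n : ℕ) (h1 : 12 ≤ n) (h4 : 4 ∣ n) : Adm n := by
  rcases Nat.lt_or_ge n 256 with h2 | h2
  · by_cases h : n % 16 = 0 ∨ (n % 16 = 8 ∧ n < 232) ∨ (n % 8 = 4 ∧ n < 116)
    · exact adm_four_small n h1 h2 h4 h
    · exact adm_four_siv n (by omega)
  · by_cases h16 : 16 ∣ n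
    · exact adm16 n h2 h16
    · by_cases h : (n % 8 = 4 ∧ 116 ≤ n ∧ n < 268) ∨ (n % 16 = 8 ∧ 232 ≤ n ∧ n < 568)
      · exact adm_four_siv n h
      · have he : Even n := Nat.even_iff.mpr (by omega)
        rcases Nat.lt_or_ge (n % 8) 1 with h8 | h8
        · -- `n % 16 = 8`
          refine adm_even n 8 (n / 8) (by omega) he (by omega) (Nat.odd_iff.mpr (by omega)) ?_
          have := pow_ineq8 (n / 8) (by omega)
          have h5 : 256 * (n / 8) = 32 * n := by omega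
          rwa [h5] at this
        · refine adm_even n 4 (n / 4) (by omega) he (by omega) (Nat.odd_iff.mpr (by omega)) ?_
          have := pow_ineq4 (n / 4) (by omega)
          have h5 : 128 * (n / 4) = 32 * n := by omega
          rwa [h5] at this

/-- the classification for all `n > 5` -/
theorem adm_iff_all (n : ℕ) (h5 : 5 < n) : Adm n ↔ n ≠ 6 := by
  constructor
  · rintro hA rfl
    exact not_adm_six hA
  · intro h6
    by_cases h4 : 4 ∣ n
    · rcases Nat.lt_or_ge n 12 with h | h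
      · have : n = 8 := by omega
        rw [this]
        exact adm_eight
      · exact adm_four n h h4
    · exact adm_not_four n (by omega) h4

end RunMult
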