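import Pool.Agent.Lib.MP_d16eef_co.P.Defs

/-! AF-Geo : the numbers `geo l * geo r` and the effect function (pure natural number arithmetic).
`geo l = ∑_{j ≤ l} B ^ j`, `B = 65536` (geometric sum, `Nat.geomSum_eq` or induction:
`65535 * ∑ = B ^ (l + 1) - 1`).
`geo_inj`: `∑_y geo (l y) * geo (r y) = ∑_m A m * B ^ m` with
`A m = ∑_y #{j ≤ m | j ≤ l y, m - j ≤ r y} ≤ |L| (m + 1) < B`, for both lists; numbers with digits below
`B` are equal only if the digits are equal (`Nat.ofDigits_inj_of_len_eq` or induction: reduce modulo `B` and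
divide).  The lists are lists of pairs `(l, r)` with `l, r < K ≤ 100` and at most 256 entries.
`effS_spec`: induction on the list, generalising `acc` (`Nat.ble K r = false` gives `r < K`). -/

namespace RunMult

open Finset

/-- number of positions in a window of length `L` for an element with run lengths `l`, `r` -/
def cw (L : ℕ) (q : ℕ × ℕ) : ℕ := ((range L).filter fun j => j ≤ q.1 ∧ L - 1 - j ≤ q.2).card

private theorem geo_eq (l : ℕ) : geo l = ∑ j ∈ range (l + 1), 65536 ^ j := by
  have h : ∀ k : ℕ, 65535 * (∑ j ∈ range k, 65536 ^ j) + 1 = 65536 ^ k := by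
    intro k
    induction k with
    | zero => simp
    | succ k ih =>
      rw [sum_range_succ, pow_succ, mul_add]
      omega
  have e : geo l = (65536 ^ (l + 1) - 1) / 65535 := rfl
  rw [e, ← h (l + 1), Nat.add_sub_cancel]
  exact Nat.mul_div_cancel_left _ (by norm_num)

private theorem geo_mul (M : ℕ) (q : ℕ × ℕ) (h : q.1 + q.2 < M) :
    geo q.2 * geo q.1 = ∑ m ∈ range M, cw (m + 1) q * 65536 ^ m := by
  rw [mul_comm, geo_eq, geo_eq, sum_mul_sum, ← sum_product']
  have hmap : ∀ p ∈ range (q.1 + 1) ×ˢ range (q.2 + 1), p.1 + p.2 ∈ range M := by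
    intro p hp
    rw [mem_product, mem_range, mem_range] at hp
    rw [mem_range]
    omega
  rw [← sum_fiberwise_of_maps_to hmap]
  refine sum_congr rfl fun m _ => ?_
  have h1 : ∀ p ∈ (range (q.1 + 1) ×ˢ range (q.2 + 1)).filter (fun p => p.1 + p.2 = m),
      65536 ^ p.1 * 65536 ^ p.2 = 65536 ^ m := by
    intro p hp
    rw [mem_filter] at hp
    rw [← pow_add, hp.2]
  rw [sum_congr rfl h1, sum_const, smul_eq_mul]
  congr 1
  unfold cw
  refine card_nbij' (fun p => p.1) (fun j => (j, m - j)) ?_ ?_ ?_ ?_
  · intro p hp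
    simp only [coe_filter, mem_product, mem_range, Set.mem_ofPred_eq] at hp ⊢
    omega
  · intro j hj
    simp only [coe_filter, mem_product, mem_range, Set.mem_ofPred_eq] at hj ⊢
    omega
  · rintro ⟨i, j⟩ hp
    simp only [coe_filter, mem_product, mem_range, Set.mem_ofPred_eq] at hp ⊢
    simp only [Prod.mk.injEq, true_and]
    omega
  · intro j _
    rfl

private theorem geo_list (M : ℕ) (A : List (ℕ × ℕ)) (h : ∀ q ∈ A, q.1 + q.2 < M) :
    (A.map fun q => geo q.2 * geo q.1).sum =
      ∑ m ∈ range M, (A.map (cw (m + 1))).sum * 65536 ^ m := by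
  induction A with
  | nil => simp
  | cons q A ih =>
    simp only [List.map_cons, List.sum_cons, add_mul, sum_add_distrib]
    rw [geo_mul M q (h q (by simp)), ih fun q' hq' => h q' (by simp [hq'])]

private theorem cw_le (L : ℕ) (q : ℕ × ℕ) : cw L q ≤ L :=
  (card_filter_le _ _).trans (card_range L).le

private theorem cwl_le (L : ℕ) (A : List (ℕ × ℕ)) : (A.map (cw L)).sum ≤ A.length * L := by
  induction A with
  | nil => simp
  | cons q A ih =>
    rw [List.map_cons, List.sum_cons, List.length_cons, add_mul, one_mul]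
    have := cw_le L q
    omega

private theorem cwl_zero (L : ℕ) (A : List (ℕ × ℕ)) (h : ∀ q ∈ A, q.1 + q.2 + 1 < L) :
    (A.map (cw L)).sum = 0 := by
  induction A with
  | nil => simp
  | cons q A ih =>
    rw [List.map_cons, List.sum_cons, ih fun q' hq' => h q' (by simp [hq'])]
    have h1 := h q (by simp)
    have h2 : cw L q = 0 := by
      unfold cw
      rw [card_eq_zero, filter_eq_empty_iff]
      intro j hj
      rw [mem_range] at hj
      omega
    rw [h2]

private theorem dig_inj (b : ℕ) (M : ℕ) (f g : ℕ → ℕ) (hf : ∀ m < M, f m < b)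
    (hg : ∀ m < M, g m < b) (h : ∑ m ∈ range M, f m * b ^ m = ∑ m ∈ range M, g m * b ^ m) :
    ∀ m < M, f m = g m := by
  induction M generalizing f g with
  | zero => exact fun m hm => absurd hm (Nat.not_lt_zero m)
  | succ M ih =>
    have e : ∀ f : ℕ → ℕ, ∑ m ∈ range (M + 1), f m * b ^ m =
        b * (∑ m ∈ range M, f (m + 1) * b ^ m) + f 0 := by
      intro f
      rw [sum_range_succ', pow_zero, mul_one, mul_sum]
      congr 1
      refine sum_congr rfl fun m _ => ?_
      rw [pow_succ]
      ring
    rw [e, e] at h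
    have hf0 := hf 0 (Nat.succ_pos M)
    have hg0 := hg 0 (Nat.succ_pos M)
    have h0 : f 0 = g 0 := by
      have h1 := congrArg (· % b) h
      simp only [Nat.mul_add_mod_self_left, Nat.mod_eq_of_lt hf0, Nat.mod_eq_of_lt hg0] at h1
      exact h1
    have hb : 0 < b := by omega
    have h1 : ∑ m ∈ range M, f (m + 1) * b ^ m = ∑ m ∈ range M, g (m + 1) * b ^ m := by
      rw [h0] at h
      exact Nat.eq_of_mul_eq_mul_left hb (Nat.add_right_cancel h)
    have h2 := ih (fun m => f (m + 1)) (fun m => g (m + 1)) (fun m hm => hf _ (by omega))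
      (fun m hm => hg _ (by omega)) h1
    intro m hm
    cases m with
    | zero => exact h0
    | succ m => exact h2 m (by omega)

theorem geo_inj (K : ℕ) (hK : K ≤ 100) (A B : List (ℕ × ℕ)) (hA : A.length ≤ 256)
    (hB : B.length ≤ 256) (hAK : ∀ q ∈ A, q.1 < K ∧ q.2 < K) (hBK : ∀ q ∈ B, q.1 < K ∧ q.2 < K)
    (h : (A.map fun q => geo q.2 * geo q.1).sum = (B.map fun q => geo q.2 * geo q.1).sum) (L : ℕ) :
    (A.map (cw L)).sum = (B.map (cw L)).sum := by
  have hA' : ∀ q ∈ A, q.1 + q.2 < 199 := fun q hq => by have := hAK q hq; omega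
  have hB' : ∀ q ∈ B, q.1 + q.2 < 199 := fun q hq => by have := hBK q hq; omega
  rw [geo_list 199 A hA', geo_list 199 B hB'] at h
  have hd : ∀ A : List (ℕ × ℕ), A.length ≤ 256 → ∀ m < 199, (A.map (cw (m + 1))).sum < 65536 := by
    intro A hA m hm
    have h1 := cwl_le (m + 1) A
    have h2 : A.length * (m + 1) ≤ 256 * 199 := Nat.mul_le_mul hA (by omega)
    omega
  have h1 := dig_inj 65536 199 (fun m => (A.map (cw (m + 1))).sum)
    (fun m => (B.map (cw (m + 1))).sum) (hd A hA) (hd B hB) h
  by_cases hL : L < 200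
  · cases L with
    | zero =>
      have e : ∀ A : List (ℕ × ℕ), (A.map (cw 0)).sum = 0 := by
        intro A
        have := cwl_le 0 A
        omega
      rw [e, e]
    | succ m => exact h1 m (by omega)
  · rw [cwl_zero L A fun q hq => by have := hA' q hq; omega,
      cwl_zero L B fun q hq => by have := hB' q hq; omega]

private theorem effS_aux (P f : ℕ) (T : List ℕ) (K c : ℕ) (l : List ℕ) (acc E : ℕ) (hE : E ≠ 0)
    (h : effS P f T K c l acc = E) :
    (∀ y ∈ l, rnD f T c K (dXf f y) < K ∧ rnM P f T c K (mXk P f y) < K) ∧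
    acc + (l.map fun y => geo (rnM P f T c K (mXk P f y)) * geo (rnD f T c K (dXf f y))).sum = E := by
  induction l generalizing acc with
  | nil =>
    refine ⟨fun y hy => absurd hy (by simp), ?_⟩
    rw [List.map_nil, List.sum_nil, add_zero]
    exact h
  | cons y l ih =>
    have e : effS P f T K c (y :: l) acc =
        cond (Nat.ble K (rnM P f T c K (mXk P f y))) 0 (cond (Nat.ble K (rnD f T c K (dXf f y))) 0
          (effS P f T K c l (acc + geo (rnM P f T c K (mXk P f y)) *
            geo (rnD f T c K (dXf f y))))) := rfl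
    rw [e] at h
    cases h1 : Nat.ble K (rnM P f T c K (mXk P f y)) with
    | true =>
      rw [h1] at h
      exact absurd h.symm hE
    | false =>
      cases h2 : Nat.ble K (rnD f T c K (dXf f y)) with
      | true =>
        rw [h1, h2] at h
        exact absurd h.symm hE
      | false =>
        rw [h1, h2] at h
        obtain ⟨h3, h4⟩ := ih _ h
        have h5 : rnM P f T c K (mXk P f y) < K := by
          by_contra hh
          rw [Nat.ble_eq_true_of_le (by omega)] at h1
          exact absurd h1 (by simp)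
        have h6 : rnD f T c K (dXf f y) < K := by
          by_contra hh
          rw [Nat.ble_eq_true_of_le (by omega)] at h2
          exact absurd h2 (by simp)
        refine ⟨fun z hz => ?_, ?_⟩
        · rcases List.mem_cons.1 hz with rfl | hz
          · exact ⟨h6, h5⟩
          · exact h3 z hz
        · rw [List.map_cons, List.sum_cons, ← add_assoc]
          exact h4

theorem effS_spec (P f : ℕ) (T : List ℕ) (K c : ℕ) (l : List ℕ) (E : ℕ) (hE : E ≠ 0)
    (h : Nat.beq (effS P f T K c l 0) E = true) :
    (∀ y ∈ l, rnD f T c K (dXf f y) < K ∧ rnM P f T c K (mXk P f y) < K) ∧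
    (l.map fun y => geo (rnM P f T c K (mXk P f y)) * geo (rnD f T c K (dXf f y))).sum = E := by
  have h1 := effS_aux P f T K c l 0 E hE (Nat.eq_of_beq_eq_true h)
  rwa [zero_add] at h1

end RunMult
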