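import Pool.Agent.Lib.MP_d16eef_co.P.RunS
import Pool.Agent.Lib.MP_d16eef_co.P.Geo

/-! AF-Bal : the balance condition from the effect numbers.
Let `Lw` (`w = u, v`) be the list of conjugates, `y_s = Lw[s]` with `ev a y_s = x ^ (2 ^ s)`.  By `effS_spec` all
run lengths `l_s = rnD f T c K (dXf f y_s)`, `r_s = rnM P f T c K (mXk P f y_s)` are `< K` and the sums of
`geo r_s * geo l_s` agree, so by `geo_inj`: `∑_s cw L (l_s, r_s)` agree for the two lists, for all `L`.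
`window_card`: for one `y`, `#{j < L | ∀ i < L, i ≠ j → tr (x a ^ (i - j)) = c} = cw L (l, r)`: the window of
position `j` contains the positions `-j, …, -1` and `1, …, L - 1 - j`; by `rnM_spec`, `rnD_spec`
(applied to `mXk P f y`, `dXf f y`, so `tr (ev a y * a ^ (i + 1))`, `i < r`, is `c` and at `i = r` it is not)
all these bits are `c` iff `j ≤ l` and `L - 1 - j ≤ r`. -/

namespace RunMult

open Finset

section

variable {F : Type} [Field F] [Fintype F] [DecidableEq F] [Algebra (ZMod 2) F]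

private theorem bal_two : (2 : F) = 0 := by
  have h := map_ofNat (algebraMap (ZMod 2) F) 2
  rw [← h]
  have h0 : (OfNat.ofNat 2 : ZMod 2) = 0 := by decide
  rw [h0, map_zero]

private theorem bal_right (n f : ℕ) (T : List ℕ) (a : F) (ha : a ≠ 0) (hf : ev a f = 0)
    (hfl : f < 2 ^ (n + 1)) (hf2 : 2 ^ n ≤ f)
    (htr : ∀ m < 2 ^ n, tr (ev a m) = (lamF T m : ZMod 2)) (c : ℕ) (hc : c < 2) (K y : ℕ)
    (hy : y < 2 ^ n) (h2 : rnM (2 ^ n) f T c K (mXk (2 ^ n) f y) < K) :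
    (∀ i : ℤ, 1 ≤ i → i ≤ rnM (2 ^ n) f T c K (mXk (2 ^ n) f y) →
      tr (ev a y * a ^ i) = (c : ZMod 2)) ∧
    tr (ev a y * a ^ ((rnM (2 ^ n) f T c K (mXk (2 ^ n) f y) : ℤ) + 1)) ≠ (c : ZMod 2) := by
  have hlt : mXk (2 ^ n) f y < 2 ^ n := by
    rw [mXk_eq]
    exact mX_lt n f y hfl hf2 hy
  have hev : ev a (mXk (2 ^ n) f y) = a * ev a y := by
    rw [mXk_eq]
    exact ev_mX bal_two a n f y hf
  obtain ⟨-, h3, h4⟩ := rnM_spec n f T a hf hfl hf2 htr c hc K (mXk (2 ^ n) f y) hlt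
  set r := rnM (2 ^ n) f T c K (mXk (2 ^ n) f y) with hr
  refine ⟨fun i hi1 hi2 => ?_, ?_⟩
  · obtain ⟨k, rfl⟩ := Int.eq_ofNat_of_zero_le (show 0 ≤ i by omega)
    obtain ⟨k, rfl⟩ : ∃ k', k = k' + 1 := ⟨k - 1, by omega⟩
    have h5 := h3 k (by omega)
    rw [hev] at h5
    rw [zpow_natCast, pow_succ, ← h5]
    congr 1
    ring
  · have h5 := h4 h2
    rw [hev] at h5
    have h6 : a ^ ((r : ℤ) + 1) = a ^ (r + 1) := by
      rw [← zpow_natCast]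
      push_cast
      rfl
    rw [h6]
    intro h7
    apply h5
    rw [← h7]
    congr 1
    ring

private theorem bal_left (n f : ℕ) (T : List ℕ) (a : F) (ha : a ≠ 0) (hf : ev a f = 0)
    (hfl : f < 2 ^ (n + 1)) (hf2 : 2 ^ n ≤ f) (hodd : f % 2 = 1)
    (htr : ∀ m < 2 ^ n, tr (ev a m) = (lamF T m : ZMod 2)) (c : ℕ) (hc : c < 2) (K y : ℕ)
    (hy : y < 2 ^ n) (h1 : rnD f T c K (dXf f y) < K) :
    (∀ i : ℤ, 1 ≤ i → i ≤ rnD f T c K (dXf f y) →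
      tr (ev a y * a ^ (-i)) = (c : ZMod 2)) ∧
    tr (ev a y * a ^ (-((rnD f T c K (dXf f y) : ℤ) + 1))) ≠ (c : ZMod 2) := by
  have hlt : dXf f y < 2 ^ n := by
    rw [dXf_eq]
    exact dX_lt n f y hfl hy
  have hev : ev a (dXf f y) = ev a y * a⁻¹ := by
    rw [dXf_eq]
    have h := ev_dX bal_two a f y hodd hf
    rw [← h]
    field_simp
  obtain ⟨-, h3, h4⟩ := rnD_spec n f T a ha hf hfl hf2 hodd htr c hc K (dXf f y) hlt
  set l := rnD f T c K (dXf f y) with hl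
  refine ⟨fun i hi1 hi2 => ?_, ?_⟩
  · obtain ⟨k, rfl⟩ := Int.eq_ofNat_of_zero_le (show 0 ≤ i by omega)
    obtain ⟨k, rfl⟩ : ∃ k', k = k' + 1 := ⟨k - 1, by omega⟩
    have h5 := h3 k (by omega)
    rw [hev] at h5
    rw [zpow_neg, ← inv_zpow, zpow_natCast, pow_succ, ← h5]
    congr 1
    ring
  · have h5 := h4 h1
    rw [hev] at h5
    have h6 : a ^ (-((l : ℤ) + 1)) = a⁻¹ ^ (l + 1) := by
      rw [zpow_neg, ← inv_zpow, ← zpow_natCast]
      push_cast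
      rfl
    rw [h6]
    intro h7
    apply h5
    rw [← h7]
    congr 1
    ring

theorem window_card (n f : ℕ) (T : List ℕ) (a : F) (ha : a ≠ 0) (hf : ev a f = 0)
    (hfl : f < 2 ^ (n + 1)) (hf2 : 2 ^ n ≤ f) (hodd : f % 2 = 1)
    (htr : ∀ m < 2 ^ n, tr (ev a m) = (lamF T m : ZMod 2)) (c : ℕ) (hc : c < 2) (K y : ℕ)
    (hy : y < 2 ^ n) (h1 : rnD f T c K (dXf f y) < K) (h2 : rnM (2 ^ n) f T c K (mXk (2 ^ n) f y) < K)
    (L : ℕ) :
    ((range L).filter fun j => ∀ i < L, i ≠ j → tr (ev a y * a ^ ((i : ℤ) - j)) = (c : ZMod 2)).card =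
      cw L (rnD f T c K (dXf f y), rnM (2 ^ n) f T c K (mXk (2 ^ n) f y)) := by
  obtain ⟨r1, r2⟩ := bal_right n f T a ha hf hfl hf2 htr c hc K y hy h2
  obtain ⟨l1, l2⟩ := bal_left n f T a ha hf hfl hf2 hodd htr c hc K y hy h1
  unfold cw
  congr 1
  apply filter_congr
  intro j hj
  rw [mem_range] at hj
  set r := rnM (2 ^ n) f T c K (mXk (2 ^ n) f y) with hr
  set l := rnD f T c K (dXf f y) with hl
  constructor
  · intro h
    refine ⟨?_, ?_⟩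
    · show j ≤ l
      by_contra hlt
      have h3 := h (j - (l + 1)) (by omega) (by omega)
      have h4 : ((j - (l + 1) : ℕ) : ℤ) - j = -((l : ℤ) + 1) := by
        rw [Nat.cast_sub (by omega)]
        push_cast
        ring
      rw [h4] at h3
      exact l2 h3
    · show L - 1 - j ≤ r
      by_contra hlt
      have h3 := h (j + (r + 1)) (by omega) (by omega)
      have h4 : ((j + (r + 1) : ℕ) : ℤ) - j = (r : ℤ) + 1 := by
        push_cast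
        ring
      rw [h4] at h3
      exact r2 h3
  · rintro ⟨h3, h4⟩ i hi hij
    have h3' : j ≤ l := h3
    have h4' : L - 1 - j ≤ r := h4
    rcases Nat.lt_or_gt_of_ne hij with hlt | hgt
    · have h5 := l1 ((j : ℤ) - i) (by omega) (by omega)
      rw [neg_sub] at h5
      exact h5
    · exact r1 ((i : ℤ) - j) (by omega) (by omega)

theorem bal_of_eff (n f : ℕ) (T : List ℕ) (a : F) (ha : a ≠ 0) (hf : ev a f = 0)
    (hfl : f < 2 ^ (n + 1)) (hf2 : 2 ^ n ≤ f) (hodd : f % 2 = 1) (hn : n ≤ 256)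
    (htr : ∀ m < 2 ^ n, tr (ev a m) = (lamF T m : ZMod 2)) (c : ℕ) (hc : c < 2) (K : ℕ)
    (hK : K ≤ 100) (Lu Lv : List ℕ) (hLu : Lu.length = n) (hLv : Lv.length = n) (x x' : F)
    (hu : ∀ s (hs : s < Lu.length), Lu[s] < 2 ^ n ∧ ev a Lu[s] = x ^ (2 ^ s))
    (hv : ∀ s (hs : s < Lv.length), Lv[s] < 2 ^ n ∧ ev a Lv[s] = x' ^ (2 ^ s)) (E : ℕ) (hE : E ≠ 0)
    (h1 : Nat.beq (effS (2 ^ n) f T K c Lu 0) E = true)
    (h2 : Nat.beq (effS (2 ^ n) f T K c Lv 0) E = true) (L : ℕ) :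
    ∑ s ∈ range n, ((range L).filter fun j => ∀ i < L, i ≠ j →
      tr (x ^ (2 ^ s) * a ^ ((i : ℤ) - j)) = (c : ZMod 2)).card =
    ∑ s ∈ range n, ((range L).filter fun j => ∀ i < L, i ≠ j →
      tr (x' ^ (2 ^ s) * a ^ ((i : ℤ) - j)) = (c : ZMod 2)).card := by
  obtain ⟨u1, u2⟩ := effS_spec (2 ^ n) f T K c Lu E hE h1
  obtain ⟨v1, v2⟩ := effS_spec (2 ^ n) f T K c Lv E hE h2
  have key : ∀ (Lw : List ℕ) (w : F) (hLw : Lw.length = n)
      (hw : ∀ s (hs : s < Lw.length), Lw[s] < 2 ^ n ∧ ev a Lw[s] = w ^ (2 ^ s))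
      (hw1 : ∀ y ∈ Lw, rnD f T c K (dXf f y) < K ∧ rnM (2 ^ n) f T c K (mXk (2 ^ n) f y) < K),
      ∑ s ∈ range n, ((range L).filter fun j => ∀ i < L, i ≠ j →
        tr (w ^ (2 ^ s) * a ^ ((i : ℤ) - j)) = (c : ZMod 2)).card =
      ((Lw.map fun y => (rnD f T c K (dXf f y), rnM (2 ^ n) f T c K (mXk (2 ^ n) f y))).map
        (cw L)).sum := by
    intro Lw w hLw hw hw1
    subst hLw
    rw [List.map_map, Finset.sum_range, ← Fin.sum_univ_fun_getElem]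
    apply Finset.sum_congr rfl
    intro s _
    obtain ⟨h3, h4⟩ := hw s.1 s.2
    have h5 := hw1 Lw[s.1] (List.getElem_mem s.2)
    have h6 := window_card _ f T a ha hf hfl hf2 hodd htr c hc K Lw[s.1] h3 h5.1 h5.2 L
    rw [h4] at h6
    exact h6
  rw [key Lu x hLu hu u1, key Lv x' hLv hv v1]
  apply geo_inj K hK
  · rw [List.length_map]; omega
  · rw [List.length_map]; omega
  · intro q hq
    obtain ⟨y, hy, rfl⟩ := List.mem_map.mp hq
    exact u1 y hy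
  · intro q hq
    obtain ⟨y, hy, rfl⟩ := List.mem_map.mp hq
    exact v1 y hy
  · rw [List.map_map, List.map_map]
    exact u2.trans v2.symm

/-- the runs are broken within `K` -/
theorem brk_of_eff (n f : ℕ) (T : List ℕ) (a : F) (ha : a ≠ 0) (hf : ev a f = 0)
    (hfl : f < 2 ^ (n + 1)) (hf2 : 2 ^ n ≤ f) (hodd : f % 2 = 1)
    (htr : ∀ m < 2 ^ n, tr (ev a m) = (lamF T m : ZMod 2)) (c : ℕ) (hc : c < 2) (K : ℕ)
    (Lu : List ℕ) (x : F) (hu : ∀ s (hs : s < Lu.length), Lu[s] < 2 ^ n ∧ ev a Lu[s] = x ^ (2 ^ s))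
    (E : ℕ) (hE : E ≠ 0) (h1 : Nat.beq (effS (2 ^ n) f T K c Lu 0) E = true) (s : ℕ)
    (hs : s < Lu.length) :
    (∃ i : ℤ, 1 ≤ i ∧ i ≤ K ∧ tr (x ^ (2 ^ s) * a ^ i) ≠ (c : ZMod 2)) ∧
    (∃ i : ℤ, 1 ≤ i ∧ i ≤ K ∧ tr (x ^ (2 ^ s) * a ^ (-i)) ≠ (c : ZMod 2)) := by
  obtain ⟨u1, -⟩ := effS_spec (2 ^ n) f T K c Lu E hE h1
  obtain ⟨h3, h4⟩ := hu s hs
  obtain ⟨h5, h6⟩ := u1 Lu[s] (List.getElem_mem hs)
  obtain ⟨-, r2⟩ := bal_right n f T a ha hf hfl hf2 htr c hc K Lu[s] h3 h6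
  obtain ⟨-, l2⟩ := bal_left n f T a ha hf hfl hf2 hodd htr c hc K Lu[s] h3 h5
  rw [h4] at r2 l2
  exact ⟨⟨_, by omega, by omega, r2⟩, ⟨_, by omega, by omega, l2⟩⟩

end

end RunMult
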