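import Pool.Agent.Lib.MP_d16eef_co.P.Snd
import Pool.Agent.Lib.MP_d16eef_co.ExPrimes

/-! Helper for the certificate files. -/

namespace RunMult

theorem pr_of (N : ℕ) (l : List ℕ) (qs : List (ℕ × ℕ)) (hl : ∀ q ∈ l, q.Prime) (hN : N = l.prod)
    (hm : (l.all fun q => qs.any fun r => Nat.beq r.1 q) = true) (p : ℕ) (hp : p.Prime)
    (hpN : p ∣ N) : ∃ v, (p, v) ∈ qs := by
  have h := primes_of_prod N l hl hN p hp hpN
  have h1 := (List.all_eq_true.mp hm) p h
  obtain ⟨r, hr, hr2⟩ := List.any_eq_true.mp h1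
  refine ⟨r.2, ?_⟩
  have : r.1 = p := Nat.eq_of_beq_eq_true hr2
  rw [← this]
  exact hr

end RunMult
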