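import Pool.Agent.Lib.MP_d16eef_co.P.NCp

/-! AF-CoreP : the core construction with two orbits.  Follow `adm_core2` in Core.lean (same folder).
`w : Bool → F` with `tr (w false) = 0`, `tr (w true) = 1`,
`U = {(w e) ^ (2 ^ s) | s < n, e : Bool}` (image of `range n ×ˢ univ`, injective by `hdist`, so `|U| = 2 n`).
* `tr ((w e) ^ (2 ^ s)) = tr (w e)` (`tr_pow2`), so the filtered sums in `NC_pair` are the sums over the two
  orbits (`hbal`); `NC_pair` and `RC_eq_NC` give the run counts as in `adm_core2`;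
* `U` is closed under squaring (`x ^ (2 ^ n) = x`), so `g (x ^ 2) = g x`;
* P-3 fails by `p3_fail` with `x = w false` (`hx`, `hη`, `hP3`);
* P-5 fails by `auto_formula` and `parity_ne`: `|U| = 2 n` is even and
  `∑_{u ∈ U} u = tr (w false) + tr (w true) = 1` (`tr_eq_sum`), as in `adm_core2`. -/

namespace RunMult

open Finset

theorem adm_core_pair {F : Type} [Field F] [Fintype F] [DecidableEq F] [Algebra (ZMod 2) F]
    (n K τ : ℕ) (hn : 3 ≤ n) (hK : 2 ≤ K) (hF : Fintype.card F = 2 ^ n)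
    (a : F) (ha : orderOf a = 2 ^ n - 1) (w : Bool → F) (η : F) (hw0 : tr (w false) = 0)
    (hw1 : tr (w true) = 1)
    (hR : ∀ s < n, ∀ e c, ∃ i : ℤ, 1 ≤ i ∧ i ≤ K ∧ tr (w e ^ (2 ^ s) * a ^ i) ≠ c)
    (hL : ∀ s < n, ∀ e c, ∃ i : ℤ, 1 ≤ i ∧ i ≤ K ∧ tr (w e ^ (2 ^ s) * a ^ (-i)) ≠ c)
    (hdist : ∀ s < n, ∀ s' < n, ∀ e e' : Bool, w e ^ (2 ^ s) = w e' ^ (2 ^ s') → s = s' ∧ e = e')
    (hiso : ∀ s < n, ∀ s' < n, ∀ e e' : Bool, ∀ j : ℤ, j ≠ 0 → |j| ≤ ((2 * K - 2 : ℕ) : ℤ) →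
      w e ^ (2 ^ s) * a ^ j ≠ w e' ^ (2 ^ s'))
    (hbal : ∀ c, ∀ L < 2 * K,
      ∑ s ∈ range n, ((range L).filter fun j => ∀ i < L, i ≠ j →
        tr (w false ^ (2 ^ s) * a ^ ((i : ℤ) - j)) = c).card =
      ∑ s ∈ range n, ((range L).filter fun j => ∀ i < L, i ≠ j →
        tr (w true ^ (2 ^ s) * a ^ ((i : ℤ) - j)) = c).card)
    (hη : ∀ l < n, tr (η * a ^ l) = if l = 0 then 1 else 0)
    (hx : ∀ l, 1 ≤ l → l < n → ∀ s < n, ∀ e : Bool, w false * a ^ l ≠ w e ^ (2 ^ s))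
    (hP3 : ∀ l < n, ∀ s < n, ∀ e : Bool, (w false + η) * a ^ l ≠ w e ^ (2 ^ s))
    (hτ1 : 1 ≤ τ) (hτ2 : τ < 2 ^ n - 1) (hτ3 : tr (a ^ τ) ≠ tr (a ^ τ)⁻¹)
    (hτ4 : ∀ s < n, ∀ s' < n, ∀ e e' : Bool, w e ^ (2 ^ s) * a ^ τ ≠ w e' ^ (2 ^ s')) :
    Adm n := by
  obtain ⟨-, ha0⟩ : 1 ≤ n ∧ a ≠ 0 := gen_ne_zero n hF a ha
  set U : Finset F := (range n ×ˢ (univ : Finset Bool)).image fun q => w q.2 ^ (2 ^ q.1) with hU
  have hmem : ∀ u, u ∈ U ↔ ∃ s < n, ∃ e : Bool, w e ^ (2 ^ s) = u := by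
    intro u
    rw [hU]
    simp only [mem_image, mem_product, mem_range, mem_univ, and_true, Prod.exists]
    constructor
    · rintro ⟨s, e, hs, h⟩; exact ⟨s, hs, e, h⟩
    · rintro ⟨s, hs, e, h⟩; exact ⟨s, e, hs, h⟩
  have hmem' : ∀ s < n, ∀ e, w e ^ (2 ^ s) ∈ U := fun s hs e => (hmem _).mpr ⟨s, hs, e, rfl⟩
  have hU0 : ∀ u ∈ U, u ≠ 0 := by
    intro u hu h0
    obtain ⟨s, hs, e, h⟩ := (hmem u).mp hu
    refine hiso s hs s hs e e 1 one_ne_zero (by simp; omega) ?_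
    rw [h, h0, zero_mul]
  have hR' : ∀ u ∈ U, ∀ c, ∃ i : ℤ, 1 ≤ i ∧ i ≤ K ∧ tr (u * a ^ i) ≠ c := by
    intro u hu c
    obtain ⟨s, hs, e, rfl⟩ := (hmem u).mp hu
    exact hR s hs e c
  have hL' : ∀ u ∈ U, ∀ c, ∃ i : ℤ, 1 ≤ i ∧ i ≤ K ∧ tr (u * a ^ (-i)) ≠ c := by
    intro u hu c
    obtain ⟨s, hs, e, rfl⟩ := (hmem u).mp hu
    exact hL s hs e c
  have hiso' : ∀ u ∈ U, ∀ i : ℤ, i ≠ 0 → |i| ≤ ((2 * K - 2 : ℕ) : ℤ) → u * a ^ i ∉ U := by
    intro u hu i hi hiK hmu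
    obtain ⟨s, hs, e, rfl⟩ := (hmem u).mp hu
    obtain ⟨s', hs', e', h⟩ := (hmem _).mp hmu
    exact hiso s hs s' hs' e e' i hi hiK h.symm
  have htrw : ∀ s e, tr (w e ^ (2 ^ s)) = if e then 1 else 0 := by
    intro s e
    rw [tr_pow2]
    cases e
    · simpa using hw0
    · simpa using hw1
  have hfil : ∀ e : Bool, U.filter (fun u => tr u = if e then 1 else 0) =
      (range n).image fun s => w e ^ (2 ^ s) := by
    intro e
    ext u
    rw [mem_filter, hmem, mem_image]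
    constructor
    · rintro ⟨⟨s, hs, e', rfl⟩, h⟩
      rw [htrw] at h
      have he : e' = e := by
        revert h
        cases e <;> cases e' <;> simp
      rw [he]
      exact ⟨s, mem_range.mpr hs, rfl⟩
    · rintro ⟨s, hs, rfl⟩
      exact ⟨⟨s, mem_range.mp hs, e, rfl⟩, htrw s e⟩
  have hinj1 : ∀ e : Bool, Set.InjOn (fun s : ℕ => w e ^ (2 ^ s)) (range n : Set ℕ) := by
    intro e s hs s' hs' h
    exact (hdist s (mem_range.mp (mem_coe.mp hs)) s' (mem_range.mp (mem_coe.mp hs')) e e h).1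
  have hfil0 : U.filter (fun u => tr u = 0) = (range n).image fun s => w false ^ (2 ^ s) := by
    have := hfil false
    simpa using this
  have hfil1 : U.filter (fun u => tr u = 1) = (range n).image fun s => w true ^ (2 ^ s) := by
    have := hfil true
    simpa using this
  have hsw : ∀ c L, NC (fun y : F => tr y + if y ∈ U then 1 else 0) a c L = NC (fun y : F => tr y) a c L := by
    intro c L
    refine NC_pair a ha0 (fun y : F => tr y) U K hK hU0 hiso' hR' hL' ?_ c L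
    intro c' L' hL'2
    change ∑ u ∈ U.filter (fun u => tr u = 0), _ = ∑ u ∈ U.filter (fun u => tr u = 1), _
    rw [hfil0, hfil1, sum_image (hinj1 false), sum_image (hinj1 true)]
    exact hbal c' L' hL'2
  set g : F → ZMod 2 := fun y => tr y + if y ∈ U then 1 else 0 with hg
  have hRC : ∀ c k, 1 ≤ k → RC g a c k = RC (fun y : F => tr y) a c k := by
    intro c k _
    have h1 := RC_eq_NC g a ha0 c k
    have h2 := RC_eq_NC (fun y : F => tr y) a ha0 c k
    rw [hsw c k, hsw c (k + 1), hsw c (k + 2), ← h2] at h1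
    exact_mod_cast h1
  -- invariance under squaring
  have hpow : ∀ y : F, y ^ (2 ^ n) = y := by
    intro y
    rw [← hF]; exact FiniteField.pow_card y
  have hsqU : ∀ y, y ∈ U → y ^ 2 ∈ U := by
    intro y hy
    obtain ⟨s, hs, e, rfl⟩ := (hmem y).mp hy
    rw [← pow_mul, ← pow_succ]
    rcases Nat.lt_or_ge (s + 1) n with h1 | h1
    · exact hmem' _ h1 e
    · have : s + 1 = n := by omega
      rw [this, hpow]
      have h2 := hmem' 0 (by omega) e
      rwa [pow_zero, pow_one] at h2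
  have hsqU' : ∀ y, y ^ 2 ∈ U → y ∈ U := by
    intro y hy
    have h1 : ∀ m, y ^ (2 ^ (m + 1)) ∈ U := by
      intro m
      induction m with
      | zero => simpa using hy
      | succ m ih =>
        have := hsqU _ ih
        rwa [← pow_mul, ← pow_succ] at this
    have h2 := h1 (n - 1)
    rw [show n - 1 + 1 = n by omega, hpow] at h2
    exact h2
  have hgsq : ∀ y, g (y ^ 2) = g y := by
    intro y
    simp only [hg]
    rw [tr_sq]
    congr 1
    by_cases hy : y ∈ U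
    · rw [if_pos hy, if_pos (hsqU y hy)]
    · rw [if_neg hy, if_neg fun h => hy (hsqU' y h)]
  -- span
  have hxU : w false ∈ U := (hmem _).mpr ⟨0, by omega, false, by rw [pow_zero, pow_one]⟩
  have hP3' := p3_fail n (by omega) a U (w false) η hxU (hU0 _ hxU)
    (by
      intro l h1 h2 hl
      obtain ⟨s, hs, e, h⟩ := (hmem _).mp hl
      exact hx l h1 h2 s hs e h.symm) hη
    (by
      intro l hl hl2
      obtain ⟨s, hs, e, h⟩ := (hmem _).mp hl2
      exact hP3 l hl s hs e h.symm)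
  -- autocorrelation
  have hv0 : a ^ τ ≠ 0 := pow_ne_zero _ ha0
  have hv1 : a ^ τ ≠ 1 := by
    intro h
    have := orderOf_dvd_of_pow_eq_one h
    rw [ha] at this
    have := Nat.le_of_dvd (by omega) this
    omega
  have hformula := auto_formula n (by omega) hF U hU0 (a ^ τ) hv0 hv1
    (by
      intro u hu hmu
      obtain ⟨s, hs, e, rfl⟩ := (hmem u).mp hu
      obtain ⟨s', hs', e', h⟩ := (hmem _).mp hmu
      exact hτ4 s hs s' hs' e e' h.symm)
  have hinjOn : Set.InjOn (fun q : ℕ × Bool => w q.2 ^ (2 ^ q.1))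
      ((range n ×ˢ (univ : Finset Bool) : Finset (ℕ × Bool)) : Set (ℕ × Bool)) := by
    intro p hp p' hp' h
    have h1 : p.1 < n := by
      have := mem_coe.mp hp
      exact mem_range.mp (mem_product.mp this).1
    have h2 : p'.1 < n := by
      have := mem_coe.mp hp'
      exact mem_range.mp (mem_product.mp this).1
    obtain ⟨h3, h4⟩ := hdist _ h1 _ h2 _ _ h
    exact Prod.ext h3 h4
  have hUcard : Even U.card := by
    have : U.card = n * 2 := by
      rw [hU, card_image_of_injOn hinjOn, card_product, card_range, card_univ, Fintype.card_bool]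
    rw [this]; exact ⟨n, by omega⟩
  have hUsum : ∑ u ∈ U, u = 1 := by
    rw [hU, sum_image hinjOn, sum_product]
    have h1 : ∀ s ∈ range n, ∑ e : Bool, w e ^ (2 ^ s) = w true ^ (2 ^ s) + w false ^ (2 ^ s) := by
      intro s _
      rw [Fintype.sum_bool]
    rw [sum_congr rfl h1, sum_add_distrib, ← tr_eq_sum n hF, ← tr_eq_sum n hF, hw0, hw1, map_one,
      map_zero, add_zero]
  have hpar := parity_ne U hUcard hUsum (a ^ τ) hτ3
  refine adm_of_field n (by omega) hF a ha g hgsq hRC hP3' ⟨τ, by omega, hτ2, ?_⟩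
  intro hcontra
  apply hpar
  have h1 : ((univ.filter fun y : F => y ≠ 0 ∧ g y ≠ g (y * a ^ τ)).card : ℤ) = 2 ^ (n - 1) := by
    rw [hcontra]; push_cast; rfl
  simp only [hg] at h1
  rw [hformula] at h1
  linarith

end RunMult
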