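import Pool.Agent.Lib.MP_d16eef_co.ExSoundD

/-! Definitions for the certificates with two orbits: fast squaring modulo a sparse polynomial, run
lengths and their effect.  All functions are written with kernel primitives. -/

namespace RunMult

/-- one spreading step -/
def sp1 (k mask m : ℕ) : ℕ := Nat.land (Nat.xor m (Nat.shiftLeft m k)) mask

/-- the bits of `m < 2 ^ 256` moved to the even positions -/
def sprd (m : ℕ) : ℕ :=
  sp1 1
    0x55555555555555555555555555555555555555555555555555555555555555555555555555555555555555555555555555555555555555555555555555555555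
  (sp1 2
    0x33333333333333333333333333333333333333333333333333333333333333333333333333333333333333333333333333333333333333333333333333333333
  (sp1 4
    0xf0f0f0f0f0f0f0f0f0f0f0f0f0f0f0f0f0f0f0f0f0f0f0f0f0f0f0f0f0f0f0f0f0f0f0f0f0f0f0f0f0f0f0f0f0f0f0f0f0f0f0f0f0f0f0f0f0f0f0f0f0f0f0f
  (sp1 8
    0xff00ff00ff00ff00ff00ff00ff00ff00ff00ff00ff00ff00ff00ff00ff00ff00ff00ff00ff00ff00ff00ff00ff00ff00ff00ff00ff00ff00ff00ff00ff00ff
  (sp1 16
    0xffff0000ffff0000ffff0000ffff0000ffff0000ffff0000ffff0000ffff0000ffff0000ffff0000ffff0000ffff0000ffff0000ffff0000ffff0000ffff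
  (sp1 32
    0xffffffff00000000ffffffff00000000ffffffff00000000ffffffff00000000ffffffff00000000ffffffff00000000ffffffff00000000ffffffff
  (sp1 64
    0xffffffffffffffff0000000000000000ffffffffffffffff0000000000000000ffffffffffffffff0000000000000000ffffffffffffffff
  (sp1 128
    0xffffffffffffffffffffffffffffffff00000000000000000000000000000000ffffffffffffffffffffffffffffffff m)))))))

/-- `h * X ^ n` modulo `X ^ n + 1 + ∑ X ^ e` (sum over `e` in the list) -/
def mulr (ex : List ℕ) (h : ℕ) : ℕ :=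
  List.rec (motive := fun _ => ℕ) h (fun e _ ih => Nat.xor ih (Nat.shiftLeft h e)) ex

/-- one reduction step; `P1 = 2 ^ n - 1` -/
def redS (n P1 : ℕ) (ex : List ℕ) (m : ℕ) : ℕ :=
  Nat.xor (Nat.land m P1) (mulr ex (Nat.shiftRight m n))

/-- squaring modulo the sparse polynomial -/
def sqS (n P1 : ℕ) (ex : List ℕ) (m : ℕ) : ℕ := redS n P1 ex (redS n P1 ex (sprd m))

/-- the bit mask of `X ^ n + 1 + ∑ X ^ e` -/
def fS (n : ℕ) (ex : List ℕ) : ℕ := Nat.xor (2 ^ n) (mulr ex 1)

/-- division by `X` with kernel primitives -/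
def dXf (f m : ℕ) : ℕ :=
  cond (Nat.beq (Nat.land m 1) 0) (Nat.shiftRight m 1) (Nat.shiftRight (Nat.xor m f) 1)

/-- multiplication by `X` with kernel primitives -/
def mXk (P f m : ℕ) : ℕ :=
  cond (Nat.ble P (Nat.mul 2 m)) (Nat.xor (Nat.mul 2 m) f) (Nat.mul 2 m)

/-- `k`-fold squaring (0 if a value exceeds `P1`) -/
def itS (n P1 : ℕ) (ex : List ℕ) (k : ℕ) : ℕ → ℕ :=
  Nat.rec (motive := fun _ => ℕ → ℕ) (fun m => m)
    (fun _ ih m => cond (Nat.ble m P1) (ih (sqS n P1 ex m)) 0) k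

/-- `acc ^ (2 ^ k) * X ^ (e % 2 ^ k)` -/
def pwS (n P1 : ℕ) (ex : List ℕ) (P f e : ℕ) (k : ℕ) : ℕ → ℕ :=
  Nat.rec (motive := fun _ => ℕ → ℕ) (fun acc => acc)
    (fun k ih acc => cond (Nat.ble acc P1)
      (ih (cond (Nat.beq (Nat.land (Nat.shiftRight e k) 1) 1) (mXk P f (sqS n P1 ex acc))
        (sqS n P1 ex acc))) 0) k

/-- `acc * X ^ k + b * (the polynomial of the low k bits of m)` -/
def mMulS (P P1 f b m : ℕ) (k : ℕ) : ℕ → ℕ :=
  Nat.rec (motive := fun _ => ℕ → ℕ) (fun acc => acc)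
    (fun k ih acc => cond (Nat.ble acc P1)
      (ih (Nat.xor (mXk P f acc) (cond (Nat.beq (Nat.land (Nat.shiftRight m k) 1) 1) b 0))) 0) k

/-- the check at one prime divisor `q`; `v` is the inverse of `X ^ ((2 ^ n - 1) / q) - 1` -/
def chkS (n P1 : ℕ) (ex : List ℕ) (P f q v : ℕ) : Bool :=
  Nat.beq (mMulS P P1 f v (Nat.xor (pwS n P1 ex P f (Nat.div P1 q) n 1) 1) n 0) 1 &&
    Nat.ble v P1

/-- the parity of the number of positions in `T` at which `m` has the bit `1` -/
def lamF (T : List ℕ) (m : ℕ) : ℕ :=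
  List.rec (motive := fun _ => ℕ) 0
    (fun i _ ih => Nat.xor ih (Nat.land (Nat.shiftRight m i) 1)) T

/-- the functional is invariant under Frobenius -/
def frF (P f : ℕ) (T : List ℕ) (k : ℕ) : ℕ → ℕ → Bool :=
  Nat.rec (motive := fun _ => ℕ → ℕ → Bool) (fun _ _ => true)
    (fun _ ih u v => cond (Nat.beq (lamF T u) (lamF T v)) (ih (mXk P f (mXk P f u)) (Nat.mul 2 v))
      false) k

/-- the list consists of `u, u ^ 2, u ^ 4, …` -/
def cjS (n P1 : ℕ) (ex : List ℕ) (l : List ℕ) : ℕ → Bool :=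
  List.rec (motive := fun _ => ℕ → Bool) (fun _ => true)
    (fun y _ ih u => cond (Nat.beq y u) (ih (sqS n P1 ex y)) false) l

/-- the length of the run of `c` to the right, starting at `y`, at most `k` -/
def rnM (P f : ℕ) (T : List ℕ) (c k : ℕ) : ℕ → ℕ :=
  Nat.rec (motive := fun _ => ℕ → ℕ) (fun _ => 0)
    (fun _ ih y => cond (Nat.beq (lamF T y) c) (Nat.add (ih (mXk P f y)) 1) 0) k

/-- the length of the run of `c` to the left, starting at `y`, at most `k` -/
def rnD (f : ℕ) (T : List ℕ) (c k : ℕ) : ℕ → ℕ :=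
  Nat.rec (motive := fun _ => ℕ → ℕ) (fun _ => 0)
    (fun _ ih y => cond (Nat.beq (lamF T y) c) (Nat.add (ih (dXf f y)) 1) 0) k

/-- `1 + B + ⋯ + B ^ l`, `B = 2 ^ 16` -/
def geo (l : ℕ) : ℕ := Nat.div (Nat.sub (Nat.pow 65536 (Nat.add l 1)) 1) 65535

/-- the effect of the elements of the list: the sum of `geo l * geo r` over the elements, where
`l`, `r` are the run lengths of `c` on both sides; 0 if a run has length `K` or more -/
def effS (P f : ℕ) (T : List ℕ) (K c : ℕ) (l : List ℕ) : ℕ → ℕ :=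
  List.rec (motive := fun _ => ℕ → ℕ) (fun acc => acc)
    (fun y _ ih acc => (fun r d => cond (Nat.ble K r) 0 (cond (Nat.ble K d) 0
      (ih (Nat.add acc (Nat.mul (geo r) (geo d)))))) (rnM P f T c K (mXk P f y))
        (rnD f T c K (dXf f y))) l

/-- hash table of a list as a bit mask -/
def htF (M : ℕ) (l : List ℕ) : ℕ → ℕ :=
  List.rec (motive := fun _ => ℕ → ℕ) (fun acc => acc)
    (fun u _ ih acc => ih (Nat.lor acc (Nat.shiftLeft 1 (Nat.mod u M)))) l

/-- the residues of the list are distinct and do not occur in the table -/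
def ndF (M : ℕ) (l : List ℕ) : ℕ → Bool :=
  List.rec (motive := fun _ => ℕ → Bool) (fun _ => true)
    (fun u _ ih acc => cond (Nat.beq (Nat.land (Nat.shiftRight acc (Nat.mod u M)) 1) 0)
      (ih (Nat.lor acc (Nat.shiftLeft 1 (Nat.mod u M)))) false) l

/-- none of `y, X y, …, X ^ (k - 1) y` is in the list with the hash table `H` -/
def notIn (P f M H : ℕ) (k : ℕ) : ℕ → Bool :=
  Nat.rec (motive := fun _ => ℕ → Bool) (fun _ => true)
    (fun _ ih y => cond (Nat.beq (Nat.land (Nat.shiftRight H (Nat.mod y M)) 1) 0)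
      (ih (mXk P f y)) false) k

/-- `X ^ k * y` -/
def mXn (P f : ℕ) (k : ℕ) : ℕ → ℕ :=
  Nat.rec (motive := fun _ => ℕ → ℕ) (fun y => y) (fun _ ih y => ih (mXk P f y)) k

/-- `X ^ (-k) * y` -/
def dXn (f : ℕ) (k : ℕ) : ℕ → ℕ :=
  Nat.rec (motive := fun _ => ℕ → ℕ) (fun y => y) (fun _ ih y => ih (dXf f y)) k

/-- isolation for all elements of the list -/
def isoF (P f M H k tau : ℕ) (l : List ℕ) : Bool :=
  List.rec (motive := fun _ => Bool) true
    (fun y _ ih => cond (notIn P f M H k (mXk P f y)) (cond (notIn P f M H 1 (mXn P f tau y)) ih false)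
      false) l

/-- the functional vanishes at `y, X y, …, X ^ (k - 1) y` -/
def zerF (P f : ℕ) (T : List ℕ) (k : ℕ) : ℕ → Bool :=
  Nat.rec (motive := fun _ => ℕ → Bool) (fun _ => true)
    (fun _ ih y => cond (Nat.beq (lamF T y) 0) (ih (mXk P f y)) false) k

end RunMult
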