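import Pool.Agent.Lib.MP_d16eef_co.P.Sq

/-! AF-Gen : a root of the sparse polynomial that generates the multiplicative group.
Copy the proof of `exists_genA` in ExFast.lean (same folder), with `sqS` in place of the table
squaring: first `ev a (itS n (2 ^ n - 1) ex k m) = ev a m ^ (2 ^ k)` for `m < 2 ^ n` (induction on `k`; the
test `Nat.ble m P1` is true), `ev a (pwS ..) = ev a acc ^ (2 ^ k) * a ^ (e % 2 ^ k)` (as `ev_pwA`) and
`ev a (mMulS (2 ^ n) (2 ^ n - 1) f b m k acc) = ev a acc * a ^ k + ev a b * ev a (m % 2 ^ k)` (as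
`ev_mMul`), together with the bounds `< 2 ^ n`.  `maskPoly`, `aeval_maskPoly`, `coeff_maskPoly` are in
ExRoot.lean.  `Nat.beq x y = true` is `Nat.eq_of_beq_eq_true`, `Nat.ble` is `Nat.le_of_ble_eq_true`. -/

namespace RunMult

open Finset Polynomial

private theorem gen_bit (e k : ℕ) :
    Nat.beq (Nat.land (Nat.shiftRight e k) 1) 1 = e.testBit k := by
  have h1 : Nat.land (Nat.shiftRight e k) 1 = (e >>> k) % 2 := Nat.and_one_is_mod _
  rw [h1]
  have h2 : e.testBit k = decide ((e >>> k) % 2 = 1) := by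
    rw [Nat.testBit_eq_decide_div_mod_eq, Nat.shiftRight_eq_div_pow]
  rw [h2]
  by_cases h3 : (e >>> k) % 2 = 1
  · rw [h3]
    rfl
  · have h4 : (e >>> k) % 2 = 0 := by omega
    rw [h4]
    rfl

private theorem gen_ble {n m : ℕ} (hm : m < 2 ^ n) : Nat.ble m (2 ^ n - 1) = true :=
  Nat.ble_eq.mpr (by omega)

private theorem gen_itS_succ (n : ℕ) (ex : List ℕ) (k m : ℕ) (hm : m < 2 ^ n) :
    itS n (2 ^ n - 1) ex (k + 1) m = itS n (2 ^ n - 1) ex k (sqS n (2 ^ n - 1) ex m) := by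
  have h : itS n (2 ^ n - 1) ex (k + 1) m = cond (Nat.ble m (2 ^ n - 1))
    (itS n (2 ^ n - 1) ex k (sqS n (2 ^ n - 1) ex m)) 0 := rfl
  rw [h, gen_ble hm]
  rfl

private theorem gen_pwS_succ (n : ℕ) (ex : List ℕ) (P f e k acc : ℕ) (hm : acc < 2 ^ n) :
    pwS n (2 ^ n - 1) ex P f e (k + 1) acc = pwS n (2 ^ n - 1) ex P f e k
      (if e.testBit k then mX P f (sqS n (2 ^ n - 1) ex acc) else
        sqS n (2 ^ n - 1) ex acc) := by
  have h : pwS n (2 ^ n - 1) ex P f e (k + 1) acc = cond (Nat.ble acc (2 ^ n - 1))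
    (pwS n (2 ^ n - 1) ex P f e k (cond (Nat.beq (Nat.land (Nat.shiftRight e k) 1) 1)
      (mXk P f (sqS n (2 ^ n - 1) ex acc)) (sqS n (2 ^ n - 1) ex acc))) 0 := rfl
  rw [h, gen_ble hm, gen_bit, mXk_eq, cond_true]
  cases e.testBit k <;> rfl

private theorem gen_mMulS_succ (n P f b m k acc : ℕ) (hm : acc < 2 ^ n) :
    mMulS P (2 ^ n - 1) f b m (k + 1) acc = mMulS P (2 ^ n - 1) f b m k
      (Nat.xor (mX P f acc) (if m.testBit k then b else 0)) := by
  have h : mMulS P (2 ^ n - 1) f b m (k + 1) acc = cond (Nat.ble acc (2 ^ n - 1))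
    (mMulS P (2 ^ n - 1) f b m k (Nat.xor (mXk P f acc)
      (cond (Nat.beq (Nat.land (Nat.shiftRight m k) 1) 1) b 0))) 0 := rfl
  rw [h, gen_ble hm, gen_bit, mXk_eq, cond_true]
  cases m.testBit k <;> rfl

private theorem gen_ev_itS {R : Type} [CommRing R] (h2 : (2 : R) = 0) (a : R) (n : ℕ)
    (ex : List ℕ) (hn1 : 1 ≤ n) (hn : n ≤ 256) (hex : ∀ e ∈ ex, 1 ≤ e ∧ 2 * e ≤ n)
    (hf : ev a (fS n ex) = 0) (k m : ℕ) (hm : m < 2 ^ n) :
    ev a (itS n (2 ^ n - 1) ex k m) = ev a m ^ (2 ^ k) := by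
  induction k generalizing m with
  | zero => rw [pow_zero, pow_one]; rfl
  | succ k ih =>
    rw [gen_itS_succ n ex k m hm, ih _ (sqS_lt n ex hn1 hn hex m hm),
      ev_sqS h2 a n ex hn hf m hm, ← pow_mul, pow_succ 2 k, mul_comm 2 (2 ^ k)]

private theorem gen_pwS_lt (n : ℕ) (ex : List ℕ) (f e : ℕ) (hfl : f < 2 ^ (n + 1))
    (hf2 : 2 ^ n ≤ f) (hn1 : 1 ≤ n) (hn : n ≤ 256) (hex : ∀ e ∈ ex, 1 ≤ e ∧ 2 * e ≤ n)
    (k acc : ℕ) (hacc : acc < 2 ^ n) : pwS n (2 ^ n - 1) ex (2 ^ n) f e k acc < 2 ^ n := by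
  induction k generalizing acc with
  | zero => exact hacc
  | succ k ih =>
    rw [gen_pwS_succ n ex _ f e k acc hacc]
    apply ih
    have h3 := sqS_lt n ex hn1 hn hex acc hacc
    split_ifs
    · exact mX_lt n f _ hfl hf2 h3
    · exact h3

private theorem gen_ev_pwS {R : Type} [CommRing R] (h2 : (2 : R) = 0) (a : R) (n : ℕ)
    (ex : List ℕ) (e : ℕ) (hfl : fS n ex < 2 ^ (n + 1)) (hf2 : 2 ^ n ≤ fS n ex) (hn1 : 1 ≤ n)
    (hn : n ≤ 256) (hex : ∀ e ∈ ex, 1 ≤ e ∧ 2 * e ≤ n) (hf : ev a (fS n ex) = 0)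
    (k acc : ℕ) (hacc : acc < 2 ^ n) :
    ev a (pwS n (2 ^ n - 1) ex (2 ^ n) (fS n ex) e k acc) =
      ev a acc ^ (2 ^ k) * a ^ (e % 2 ^ k) := by
  induction k generalizing acc with
  | zero =>
    rw [pow_zero, pow_one, Nat.mod_one, pow_zero, mul_one]
    rfl
  | succ k ih =>
    have hs := sqS_lt n ex hn1 hn hex acc hacc
    have he : e % 2 ^ (k + 1) = e % 2 ^ k + 2 ^ k * (e / 2 ^ k % 2) := Nat.mod_pow_succ
    have hsq := ev_sqS h2 a n ex hn hf acc hacc
    rw [gen_pwS_succ n ex _ _ e k acc hacc, he]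
    have hb : e.testBit k = decide (e / 2 ^ k % 2 = 1) := Nat.testBit_eq_decide_div_mod_eq
    by_cases h : e / 2 ^ k % 2 = 1
    · rw [hb, decide_eq_true h, if_pos rfl, ih _ (mX_lt n _ _ hfl hf2 hs), ev_mX h2 a n _ _ hf,
        hsq, h, mul_one]
      ring
    · have h0 : e / 2 ^ k % 2 = 0 := by omega
      rw [hb, decide_eq_false h, if_neg (by decide), ih _ hs, hsq, h0, mul_zero, add_zero,
        ← pow_mul, pow_succ 2 k, mul_comm 2 (2 ^ k)]

private theorem gen_ev_mMulS {R : Type} [CommRing R] (h2 : (2 : R) = 0) (a : R) (n f b m : ℕ)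
    (hfl : f < 2 ^ (n + 1)) (hf2 : 2 ^ n ≤ f) (hf : ev a f = 0) (hb : b < 2 ^ n) (k acc : ℕ)
    (hacc : acc < 2 ^ n) :
    ev a (mMulS (2 ^ n) (2 ^ n - 1) f b m k acc) =
      ev a acc * a ^ k + ev a b * ev a (m % 2 ^ k) := by
  induction k generalizing acc with
  | zero =>
    rw [pow_zero, pow_zero, Nat.mod_one, ev_zero, mul_one, mul_zero, add_zero]
    rfl
  | succ k ih =>
    have hx : Nat.xor (mX (2 ^ n) f acc) (if m.testBit k then b else 0) < 2 ^ n := by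
      apply Nat.xor_lt_two_pow (mX_lt n f _ hfl hf2 hacc)
      split_ifs
      · exact hb
      · positivity
    rw [gen_mMulS_succ n _ f b m k acc hacc, ih _ hx, ev_xor h2, ev_mX h2 a n f acc hf,
      ev_mod_succ]
    split_ifs
    · ring
    · rw [ev_zero]
      ring

theorem exists_genS (F : Type) [Field F] [Fintype F] [DecidableEq F] [Algebra (ZMod 2) F]
    (n : ℕ) (ex : List ℕ) (hn : 2 ≤ n) (hn2 : n ≤ 256) (hF : Fintype.card F = 2 ^ n)
    (hex : ∀ e ∈ ex, 1 ≤ e ∧ 2 * e ≤ n)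
    (hit : Nat.beq (itS n (2 ^ n - 1) ex n 2) 2 = true) (qs : List (ℕ × ℕ))
    (hq : ∀ q ∈ qs, chkS n (2 ^ n - 1) ex (2 ^ n) (fS n ex) q.1 q.2 = true)
    (hqs : ∀ p : ℕ, p.Prime → p ∣ 2 ^ n - 1 → ∃ v, (p, v) ∈ qs) :
    ∃ a : F, ev a (fS n ex) = 0 ∧ orderOf a = 2 ^ n - 1 := by
  have h2 := two_eq_zero_of_algebra F
  have hn1 : 1 ≤ n := by omega
  have hfl := fS_lt n ex hn1 hex
  have hf2 := fS_ge n ex hn1 hex
  have hodd := fS_odd n ex hn1 hex
  have hone : 1 < 2 ^ n := Nat.one_lt_two_pow (by omega)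
  have h4 : 2 < 2 ^ n := by
    calc 2 < 2 ^ 2 := by norm_num
      _ ≤ 2 ^ n := Nat.pow_le_pow_right (by norm_num) hn
  have hsq : itS n (2 ^ n - 1) ex n 2 = 2 := Nat.eq_of_beq_eq_true hit
  have hdvd : maskPoly n (fS n ex) ∣ X ^ (2 ^ n) - X := by
    have h2' := two_eq_zero_of_algebra (AdjoinRoot (maskPoly n (fS n ex)))
    have hf : ev (AdjoinRoot.root (maskPoly n (fS n ex))) (fS n ex) = 0 := by
      rw [← aeval_maskPoly n (fS n ex) hfl, AdjoinRoot.aeval_eq, AdjoinRoot.mk_self]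
    have h3 := gen_ev_itS h2' (AdjoinRoot.root (maskPoly n (fS n ex))) n ex hn1 hn2 hex hf n 2 h4
    rw [hsq, ev_two] at h3
    rw [← AdjoinRoot.mk_eq_zero, map_sub, map_pow, AdjoinRoot.mk_X, ← h3, sub_self]
  obtain ⟨g, hg⟩ := hdvd
  -- a root
  obtain ⟨a, ha⟩ : ∃ a : F, ev a (fS n ex) = 0 := by
    by_contra hcon
    push Not at hcon
    have hq : (X ^ Fintype.card F - X : F[X]) =
        (maskPoly n (fS n ex)).map (algebraMap (ZMod 2) F) * g.map (algebraMap (ZMod 2) F) := by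
      rw [← Polynomial.map_mul, ← hg, hF]
      simp
    have hdeg := FiniteField.X_pow_card_sub_X_natDegree_eq F (Fintype.one_lt_card (α := F))
    have hne := FiniteField.X_pow_card_sub_X_ne_zero F (Fintype.one_lt_card (α := F))
    rw [hq] at hne hdeg
    have hm0 := left_ne_zero_of_mul hne
    have hg0 := right_ne_zero_of_mul hne
    rw [natDegree_mul hm0 hg0] at hdeg
    have hmd : n ≤ ((maskPoly n (fS n ex)).map (algebraMap (ZMod 2) F)).natDegree := by
      apply le_natDegree_of_ne_zero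
      rw [coeff_map, coeff_maskPoly n (fS n ex) hfl hf2, map_one]
      exact one_ne_zero
    apply hg0
    refine eq_zero_of_natDegree_lt_card_of_eval_eq_zero (ι := F)
      (g.map (algebraMap (ZMod 2) F)) (f := id) Function.injective_id (fun c => ?_) (by omega)
    have h3 : (X ^ Fintype.card F - X : F[X]).eval c = 0 := by
      simp [FiniteField.pow_card]
    rw [hq, eval_mul] at h3
    rcases mul_eq_zero.mp h3 with h4 | h4
    · exfalso
      apply hcon c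
      rw [← aeval_maskPoly n (fS n ex) hfl, aeval_def, ← eval_map, h4]
    · exact h4
  have ha0 : a ≠ 0 := by
    rintro rfl
    rw [ev_eq_sum _ (fS n ex) (n + 1) hfl, Finset.sum_eq_single 0] at ha
    · simp [Nat.testBit_zero, hodd] at ha
    · intro i _ hi
      rw [zero_pow hi, ite_self]
    · simp
  refine ⟨a, ha, orderOf_eq_of_pow_and_pow_div_prime (by omega) ?_ ?_⟩
  · rw [← hF]
    exact FiniteField.pow_card_sub_one_eq_one a ha0
  · intro p hp hpd hcon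
    obtain ⟨v, hv⟩ := hqs p hp hpd
    have h3 := hq _ hv
    simp only [chkS, Bool.and_eq_true] at h3
    obtain ⟨h3, h5⟩ := h3
    have h3' : mMulS (2 ^ n) (2 ^ n - 1) (fS n ex) v
        (Nat.xor (pwS n (2 ^ n - 1) ex (2 ^ n) (fS n ex) ((2 ^ n - 1) / p) n 1) 1) n 0 = 1 :=
      Nat.eq_of_beq_eq_true h3
    have hvl : v < 2 ^ n := by
      have := Nat.le_of_ble_eq_true h5
      omega
    have hw : pwS n (2 ^ n - 1) ex (2 ^ n) (fS n ex) ((2 ^ n - 1) / p) n 1 < 2 ^ n :=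
      gen_pwS_lt n ex _ _ hfl hf2 hn1 hn2 hex n 1 hone
    have h4 := congrArg (ev a) h3'
    rw [gen_ev_mMulS h2 a n _ _ _ hfl hf2 ha hvl _ _ (by positivity), Nat.mod_eq_of_lt, ev_one,
      ev_zero, zero_mul, zero_add, ev_xor h2, ev_one,
      gen_ev_pwS h2 a n ex _ hfl hf2 hn1 hn2 hex ha _ _ hone, ev_one,
      one_pow, one_mul, Nat.mod_eq_of_lt, hcon, one_add_one_eq_two, h2, mul_zero] at h4
    · exact zero_ne_one h4
    · exact lt_of_le_of_lt (Nat.div_le_self _ _) (by omega)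
    · exact Nat.xor_lt_two_pow hw hone

end RunMult
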