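import Pool.Agent.Lib.MP_d16eef_co.P.Sq

/-! AF-HashS : conjugate lists and hash tables.
* `cjS_spec`: induction on `l`: `cjS n P1 ex l u = true` says `l = [u, sqS u, sqS (sqS u), …]`, and
  `ev a (sqS m) = ev a m ^ 2`, `sqS m < 2 ^ n` (`ev_sqS`, `sqS_lt`).
* hash table: as `htab_mem`, `ndH_spec` in ExSound.lean / ExSplit.lean: every `u ∈ l` has its bit `u % M` set
  in `htF M l 0`; `Nat.land (Nat.shiftRight H i) 1 = (H.testBit i).toNat`; so
  `Nat.beq (..) 0 = true` at `v % M` implies `v ∉ l`.
* `notIn_spec`, `isoF_spec`: induction; `mXk_eq`, `mXn P f k y = mXit P f k y` (ExDefs.lean). -/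

namespace RunMult

open Finset

private theorem hs_cond {b c : Bool} (h : cond b c false = true) : b = true ∧ c = true := by
  cases b <;> simp_all

private theorem hs_bit (H i : ℕ) :
    Nat.beq (Nat.land (Nat.shiftRight H i) 1) 0 = !Nat.testBit H i := by
  have h1 : Nat.land (Nat.shiftRight H i) 1 = 1 &&& (H >>> i) := Nat.and_comm _ _
  rw [h1]
  unfold Nat.testBit
  generalize 1 &&& (H >>> i) = z
  rcases z with _ | z
  · rfl
  · rfl

private theorem hs_cjS_cons (n P1 : ℕ) (ex : List ℕ) (y : ℕ) (l : List ℕ) (u : ℕ) :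
    cjS n P1 ex (y :: l) u = cond (Nat.beq y u) (cjS n P1 ex l (sqS n P1 ex y)) false := rfl

theorem cjS_spec {R : Type} [CommRing R] (h2 : (2 : R) = 0) (a : R) (n : ℕ) (ex : List ℕ)
    (hn1 : 1 ≤ n) (hn : n ≤ 256) (hex : ∀ e ∈ ex, 1 ≤ e ∧ 2 * e ≤ n) (hf : ev a (fS n ex) = 0)
    (l : List ℕ) (u : ℕ) (hu : u < 2 ^ n) (h : cjS n (2 ^ n - 1) ex l u = true) (s : ℕ)
    (hs : s < l.length) : l[s] < 2 ^ n ∧ ev a l[s] = ev a u ^ (2 ^ s) := by
  induction l generalizing u s with
  | nil => simp at hs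
  | cons y l ih =>
    rw [hs_cjS_cons] at h
    obtain ⟨h1, h3⟩ := hs_cond h
    have hy : y = u := Nat.eq_of_beq_eq_true h1
    subst hy
    rcases s with _ | s
    · rw [List.getElem_cons_zero, pow_zero, pow_one]
      exact ⟨hu, rfl⟩
    · rw [List.getElem_cons_succ]
      have h4 := ih (sqS n (2 ^ n - 1) ex y) (sqS_lt n ex hn1 hn hex y hu) h3 s
        (by simpa using hs)
      refine ⟨h4.1, ?_⟩
      rw [h4.2, ev_sqS h2 a n ex hn hf y hu, ← pow_mul, pow_succ, mul_comm (2 ^ s) 2]

private theorem hs_ndF_cons (M u : ℕ) (l : List ℕ) (H : ℕ) :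
    ndF M (u :: l) H = cond (Nat.beq (Nat.land (Nat.shiftRight H (Nat.mod u M)) 1) 0)
      (ndF M l (Nat.lor H (Nat.shiftLeft 1 (Nat.mod u M)))) false := rfl

private theorem hs_lor (H i j : ℕ) : Nat.testBit (Nat.lor H (Nat.shiftLeft 1 i)) j =
    (Nat.testBit H j || decide (i = j)) := by
  have h1 : Nat.lor H (Nat.shiftLeft 1 i) = H ||| (1 <<< i) := rfl
  rw [h1, Nat.testBit_or, Nat.testBit_shiftLeft]
  congr 1
  by_cases h : i = j
  · subst h
    simp
  · rw [decide_eq_false h]
    by_cases h2 : i ≤ j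
    · obtain ⟨k, hk⟩ : ∃ k, j - i = k + 1 := ⟨j - i - 1, by omega⟩
      have h4 : Nat.testBit 1 (k + 1) = false := by
        rw [Nat.testBit_succ]
        exact Nat.zero_testBit k
      rw [hk, h4, Bool.and_false]
    · simp [h2]

private theorem hs_ndF (M : ℕ) (l : List ℕ) (H : ℕ) (h : ndF M l H = true) :
    l.Nodup ∧ ∀ u ∈ l, Nat.testBit H (u % M) = false := by
  induction l generalizing H with
  | nil => simp
  | cons u l ih =>
    rw [hs_ndF_cons, hs_bit] at h
    obtain ⟨h1, h3⟩ := hs_cond h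
    obtain ⟨h4, h5⟩ := ih _ h3
    have h1' : Nat.testBit H (u % M) = false := by
      have : Nat.testBit H (Nat.mod u M) = false := by simpa using h1
      exact this
    have h6 : ∀ v ∈ l, Nat.testBit H (v % M) = false ∧ u % M ≠ v % M := by
      intro v hv
      have h7 := h5 v hv
      rw [hs_lor, Bool.or_eq_false_iff] at h7
      refine ⟨h7.1, fun h8 => ?_⟩
      have h9 := of_decide_eq_false h7.2
      exact h9 h8
    refine ⟨List.nodup_cons.2 ⟨fun hu => (h6 u hu).2 rfl, h4⟩, fun v hv => ?_⟩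
    rcases List.mem_cons.1 hv with rfl | hv
    · exact h1'
    · exact (h6 v hv).1

theorem ndF_spec (M : ℕ) (l : List ℕ) (h : ndF M l 0 = true) : l.Nodup := (hs_ndF M l 0 h).1

theorem mXn_eq (P f k y : ℕ) : mXn P f k y = mXit P f k y := by
  induction k generalizing y with
  | zero => rfl
  | succ k ih =>
    have h : mXn P f (k + 1) y = mXn P f k (mXk P f y) := rfl
    rw [h, ih, mXk_eq]
    rfl

theorem dXn_eq (f k y : ℕ) : dXn f k y = dXit f k y := by
  induction k generalizing y with
  | zero => rfl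
  | succ k ih =>
    have h : dXn f (k + 1) y = dXn f k (dXf f y) := rfl
    rw [h, ih, dXf_eq]
    rfl

private theorem hs_htF_aux (M : ℕ) (l : List ℕ) (H i : ℕ) (h : Nat.testBit H i = true) :
    Nat.testBit (htF M l H) i = true := by
  induction l generalizing H with
  | nil => exact h
  | cons u l ih =>
    have h1 : htF M (u :: l) H = htF M l (Nat.lor H (Nat.shiftLeft 1 (Nat.mod u M))) := rfl
    rw [h1]
    refine ih _ ?_
    rw [hs_lor, h, Bool.true_or]

private theorem hs_htF_mem (M : ℕ) (l : List ℕ) (H u : ℕ) (hu : u ∈ l) :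
    Nat.testBit (htF M l H) (u % M) = true := by
  induction l generalizing H with
  | nil => simp at hu
  | cons v l ih =>
    have h1 : htF M (v :: l) H = htF M l (Nat.lor H (Nat.shiftLeft 1 (Nat.mod v M))) := rfl
    rw [h1]
    rcases List.mem_cons.1 hu with rfl | hu
    · refine hs_htF_aux M l _ _ ?_
      rw [hs_lor]
      have h2 : Nat.mod u M = u % M := rfl
      rw [h2, decide_eq_true rfl, Bool.or_true]
    · exact ih _ hu

theorem notIn_spec (P f M k y : ℕ) (l : List ℕ) (h : notIn P f M (htF M l 0) k y = true) (i : ℕ)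
    (hi : i < k) : mXit P f i y ∉ l := by
  induction k generalizing y i with
  | zero => omega
  | succ k ih =>
    have h1 : notIn P f M (htF M l 0) (k + 1) y =
        cond (Nat.beq (Nat.land (Nat.shiftRight (htF M l 0) (Nat.mod y M)) 1) 0)
          (notIn P f M (htF M l 0) k (mXk P f y)) false := rfl
    rw [h1, hs_bit] at h
    obtain ⟨h2, h3⟩ := hs_cond h
    rcases i with _ | i
    · intro hy
      have h4 := hs_htF_mem M l 0 y hy
      have h5 : Nat.testBit (htF M l 0) (Nat.mod y M) = true := h4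
      rw [h5] at h2
      simp at h2
    · have h4 := ih (mXk P f y) h3 i (by omega)
      rw [mXk_eq] at h4
      exact h4

theorem isoF_spec (P f M H k tau : ℕ) (l : List ℕ) (h : isoF P f M H k tau l = true) (y : ℕ)
    (hy : y ∈ l) :
    notIn P f M H k (mXk P f y) = true ∧ notIn P f M H 1 (mXn P f tau y) = true := by
  induction l with
  | nil => simp at hy
  | cons u l ih =>
    have h1 : isoF P f M H k tau (u :: l) = cond (notIn P f M H k (mXk P f u))
        (cond (notIn P f M H 1 (mXn P f tau u)) (isoF P f M H k tau l) false) false := rfl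
    rw [h1] at h
    obtain ⟨h2, h3⟩ := hs_cond h
    obtain ⟨h4, h5⟩ := hs_cond h3
    rcases List.mem_cons.1 hy with rfl | hy
    · exact ⟨h2, h4⟩
    · exact ih h5 hy

theorem zerF_spec (P f : ℕ) (T : List ℕ) (k y : ℕ) (h : zerF P f T k y = true) (i : ℕ)
    (hi : i < k) : lamF T (mXit P f i y) = 0 := by
  induction k generalizing y i with
  | zero => omega
  | succ k ih =>
    have h1 : zerF P f T (k + 1) y =
        cond (Nat.beq (lamF T y) 0) (zerF P f T k (mXk P f y)) false := rfl
    rw [h1] at h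
    obtain ⟨h2, h3⟩ := hs_cond h
    rcases i with _ | i
    · exact Nat.eq_of_beq_eq_true h2
    · have h4 := ih (mXk P f y) h3 i (by omega)
      rw [mXk_eq] at h4
      exact h4

end RunMult
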