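import Pool.Agent.Lib.MP_d16eef_co.Core

/-! AF-NCp : the window counts after flipping a balanced set.
`U` is a finite set with: isolation (`u * a ^ i ∉ U` for `0 < |i| ≤ 2 K - 2`), runs broken within `K` on both
sides, and the balance condition `hbal` for all window lengths `L < 2 K`.
Let `g x = m x + [x ∈ U]`, `h ∈ {m, g}`.  Fix `c`, `L`, and let `W h = {x ≠ 0 | h (x a ^ j) = c for j < L}`.
(1) If `x ∈ W h`, `j < L` and `u = x a ^ j ∈ U` then `j < K` and `L - 1 - j < K`: otherwise the window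
    contains all positions `-K, …, -1` (or `1, …, K`) relative to `u`, where `h = m` (isolation,
    `K ≤ 2 K - 2`), contradicting the broken run.  So two such positions `j < j'` satisfy
    `j' - j ≤ L - 1 - j ≤ K - 1 ≤ 2 K - 2`, contradicting isolation: at most one position.  In particular if
    `L ≥ 2 K` then no window of `W h` meets `U`.
(2) The windows of `W h` not meeting `U` are the same for `m` and `g`.
(3) The windows of `W h` meeting `U` are in bijection (`x ↦ (x a ^ j, j)`, inverse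
    `(u, j) ↦ u * (a ^ j)⁻¹`) with the pairs `(u, j)`, `u ∈ U`, `j < L`, with `h u = c` and
    `m (u a ^ (i - j)) = c` for all `i < L`, `i ≠ j` (for such a pair all positions `i ≠ j` of the window are
    within `K - 1` of `j` by the argument of (1), so they are not in `U`, so `h = m` there).
    So their number is `∑_{u ∈ U, h u = c} cnt u`,
    `cnt u = #{j < L | ∀ i < L, i ≠ j → m (u a ^ (i - j)) = c}`.
(4) `g u = c` iff `m u ≠ c` (`g u = m u + 1`).  By `hbal`,
    `∑_{u ∈ U, m u = 0} cnt u = ∑_{u ∈ U, m u = 1} cnt u` if `L < 2 K`; and if `L ≥ 2 K` all `cnt u` are 0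
    by (1).  Hence `NC g a c L = NC m a c L`.
See `NC_swap` in Swap.lean for the manipulations with `a ^ (i - j)` (`swap_shift`). -/

namespace RunMult

open Finset

section

variable {F : Type} [Field F] [Fintype F] [DecidableEq F]

private theorem ncp_shift (a : F) (ha : a ≠ 0) (x : F) (i j : ℕ) :
    (x * a ^ j) * a ^ ((i : ℤ) - j) = x * a ^ i := by
  rw [zpow_sub₀ ha, zpow_natCast, zpow_natCast]
  have : a ^ j ≠ 0 := pow_ne_zero _ ha
  field_simp

private theorem ncp_shift' (a : F) (ha : a ≠ 0) (v : F) (i j : ℕ) :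
    v * (a ^ j)⁻¹ * a ^ i = v * a ^ ((i : ℤ) - j) := by
  rw [zpow_sub₀ ha, zpow_natCast, zpow_natCast]
  have : a ^ j ≠ 0 := pow_ne_zero _ ha
  field_simp

/-- the positions of a window around `u` are close to `u` -/
private theorem ncp_close (a : F) (m : F → ZMod 2) (K : ℕ) {u : F}
    (hR : ∀ c, ∃ i : ℤ, 1 ≤ i ∧ i ≤ K ∧ m (u * a ^ i) ≠ c)
    (hL : ∀ c, ∃ i : ℤ, 1 ≤ i ∧ i ≤ K ∧ m (u * a ^ (-i)) ≠ c) {c : ZMod 2} {L j : ℕ}
    (hj : j < L) (h : ∀ i < L, i ≠ j → |(i : ℤ) - j| ≤ K → m (u * a ^ ((i : ℤ) - j)) = c) :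
    j + 1 ≤ K ∧ L ≤ j + K := by
  constructor
  · by_contra hcon
    push Not at hcon
    obtain ⟨i, hi1, hi2, hi3⟩ := hL c
    obtain ⟨i', rfl⟩ : ∃ i' : ℕ, i = i' := ⟨i.toNat, by omega⟩
    have e : ((j - i' : ℕ) : ℤ) - j = -(i' : ℤ) := by omega
    have h1 := h (j - i') (by omega) (by omega) (by rw [e, abs_neg, Nat.abs_cast]; omega)
    rw [e] at h1
    exact hi3 h1
  · by_contra hcon
    push Not at hcon
    obtain ⟨i, hi1, hi2, hi3⟩ := hR c
    obtain ⟨i', rfl⟩ : ∃ i' : ℕ, i = i' := ⟨i.toNat, by omega⟩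
    have e : ((j + i' : ℕ) : ℤ) - j = (i' : ℤ) := by omega
    have h1 := h (j + i') (by omega) (by omega) (by rw [e, Nat.abs_cast]; omega)
    rw [e] at h1
    exact hi3 h1

/-- the windows which meet `U` -/
private theorem ncp_count (a : F) (ha : a ≠ 0)
    (m : F → ZMod 2) (U : Finset F) (K : ℕ) (hK : 2 ≤ K) (hU0 : ∀ u ∈ U, u ≠ 0)
    (hiso : ∀ u ∈ U, ∀ i : ℤ, i ≠ 0 → |i| ≤ ((2 * K - 2 : ℕ) : ℤ) → u * a ^ i ∉ U)
    (hR : ∀ u ∈ U, ∀ c, ∃ i : ℤ, 1 ≤ i ∧ i ≤ K ∧ m (u * a ^ i) ≠ c)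
    (hL : ∀ u ∈ U, ∀ c, ∃ i : ℤ, 1 ≤ i ∧ i ≤ K ∧ m (u * a ^ (-i)) ≠ c)
    (f : F → ZMod 2) (hf : ∀ x, x ∉ U → f x = m x) (c : ZMod 2) (L : ℕ) :
    NC f a c L = (univ.filter fun x : F => (x ≠ 0 ∧ ∀ j < L, m (x * a ^ j) = c) ∧
        ∀ j < L, x * a ^ j ∉ U).card +
      ∑ u ∈ U.filter (fun u => f u = c),
        ((range L).filter fun j => ∀ i < L, i ≠ j → m (u * a ^ ((i : ℤ) - j)) = c).card := by
  classical
  have hcast : ((2 * K - 2 : ℕ) : ℤ) = 2 * K - 2 := by omega
  -- the windows meeting `U`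
  have h1 : ((univ.filter fun x : F => x ≠ 0 ∧ ∀ j < L, f (x * a ^ j) = c).filter
      fun x => ∃ j < L, x * a ^ j ∈ U).card = ∑ u ∈ U.filter (fun u => f u = c),
        ((range L).filter fun j => ∀ i < L, i ≠ j → m (u * a ^ ((i : ℤ) - j)) = c).card := by
    rw [← card_sigma]
    symm
    refine card_bij (fun p _ => p.1 * (a ^ p.2)⁻¹) ?_ ?_ ?_
    · rintro ⟨u, j⟩ hp
      simp only [mem_sigma, mem_filter, mem_range] at hp
      obtain ⟨⟨hu, hfu⟩, hj, hm⟩ := hp
      obtain ⟨b1, b2⟩ := ncp_close a m K (hR u hu) (hL u hu) hj fun i hi hij _ => hm i hi hij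
      simp only [mem_filter, mem_univ, true_and]
      refine ⟨⟨mul_ne_zero (hU0 u hu) (inv_ne_zero (pow_ne_zero _ ha)), fun i hi => ?_⟩,
        j, hj, ?_⟩
      · rw [ncp_shift' a ha]
        by_cases hij : i = j
        · rw [hij, sub_self, zpow_zero, mul_one]
          exact hfu
        · rw [hf _ (hiso u hu _ (by omega) (by rw [hcast, abs_le]; constructor <;> omega))]
          exact hm i hi hij
      · rw [ncp_shift' a ha, sub_self, zpow_zero, mul_one]
        exact hu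
    · rintro ⟨u, j⟩ hp ⟨u', j'⟩ hp' heq
      simp only [mem_sigma, mem_filter, mem_range] at hp hp'
      obtain ⟨⟨hu, hfu⟩, hj, hm⟩ := hp
      obtain ⟨⟨hu', hfu'⟩, hj', hm'⟩ := hp'
      obtain ⟨b1, b2⟩ := ncp_close a m K (hR u hu) (hL u hu) hj fun i hi hij _ => hm i hi hij
      have heq' : u * (a ^ j)⁻¹ = u' * (a ^ j')⁻¹ := heq
      have e : u * a ^ ((j' : ℤ) - j) = u' := by
        rw [← ncp_shift' a ha u j' j, heq']
        rw [inv_mul_cancel_right₀ (pow_ne_zero _ ha)]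
      by_cases hjj : j' = j
      · subst hjj
        rw [sub_self, zpow_zero, mul_one] at e
        rw [e]
      · exfalso
        refine hiso u hu ((j' : ℤ) - j) (by omega)
          (by rw [hcast, abs_le]; constructor <;> omega) ?_
        rw [e]
        exact hu'
    · intro x hx
      simp only [mem_filter, mem_univ, true_and] at hx
      obtain ⟨⟨hx0, hx⟩, j, hj, hu⟩ := hx
      have hval : ∀ i < L, i ≠ j → |(i : ℤ) - j| ≤ ((2 * K - 2 : ℕ) : ℤ) →
          m (x * a ^ j * a ^ ((i : ℤ) - j)) = c := by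
        intro i hi hij hle
        rw [← hf _ (hiso _ hu _ (by omega) hle), ncp_shift a ha]
        exact hx i hi
      obtain ⟨b1, b2⟩ := ncp_close a m K (hR _ hu) (hL _ hu) hj fun i hi hij hle =>
        hval i hi hij (by omega)
      refine ⟨⟨x * a ^ j, j⟩, ?_, ?_⟩
      · simp only [mem_sigma, mem_filter, mem_range]
        refine ⟨⟨hu, hx j hj⟩, hj, fun i hi hij => hval i hi hij ?_⟩
        rw [hcast, abs_le]
        constructor <;> omega
      · show x * a ^ j * (a ^ j)⁻¹ = x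
        rw [mul_inv_cancel_right₀ (pow_ne_zero _ ha)]
  -- the others
  have h0 : ((univ.filter fun x : F => x ≠ 0 ∧ ∀ j < L, f (x * a ^ j) = c).filter
      fun x => ¬ ∃ j < L, x * a ^ j ∈ U).card =
      (univ.filter fun x : F => (x ≠ 0 ∧ ∀ j < L, m (x * a ^ j) = c) ∧
        ∀ j < L, x * a ^ j ∉ U).card := by
    congr 1
    ext x
    simp only [mem_filter, mem_univ, true_and, not_exists, not_and]
    constructor
    · rintro ⟨⟨hx0, hx⟩, hU⟩
      exact ⟨⟨hx0, fun j hj => by rw [← hf _ (hU j hj)]; exact hx j hj⟩, hU⟩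
    · rintro ⟨⟨hx0, hx⟩, hU⟩
      exact ⟨⟨hx0, fun j hj => by rw [hf _ (hU j hj)]; exact hx j hj⟩, hU⟩
  rw [← h1, ← h0, add_comm, card_filter_add_card_filter_not]
  unfold NC
  congr!

end

theorem NC_pair {F : Type} [Field F] [Fintype F] [DecidableEq F] (a : F) (ha : a ≠ 0)
    (m : F → ZMod 2) (U : Finset F) (K : ℕ) (hK : 2 ≤ K) (hU0 : ∀ u ∈ U, u ≠ 0)
    (hiso : ∀ u ∈ U, ∀ i : ℤ, i ≠ 0 → |i| ≤ ((2 * K - 2 : ℕ) : ℤ) → u * a ^ i ∉ U)
    (hR : ∀ u ∈ U, ∀ c, ∃ i : ℤ, 1 ≤ i ∧ i ≤ K ∧ m (u * a ^ i) ≠ c)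
    (hL : ∀ u ∈ U, ∀ c, ∃ i : ℤ, 1 ≤ i ∧ i ≤ K ∧ m (u * a ^ (-i)) ≠ c)
    (hbal : ∀ c, ∀ L < 2 * K,
      ∑ u ∈ U.filter (fun u => m u = 0),
        ((range L).filter fun j => ∀ i < L, i ≠ j → m (u * a ^ ((i : ℤ) - j)) = c).card =
      ∑ u ∈ U.filter (fun u => m u = 1),
        ((range L).filter fun j => ∀ i < L, i ≠ j → m (u * a ^ ((i : ℤ) - j)) = c).card)
    (c : ZMod 2) (L : ℕ) :
    NC (fun x => m x + if x ∈ U then 1 else 0) a c L = NC m a c L := by
  classical
  rw [ncp_count a ha m U K hK hU0 hiso hR hL (fun x => m x + if x ∈ U then 1 else 0)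
      (fun x hx => by rw [if_neg hx, add_zero]) c L,
    ncp_count a ha m U K hK hU0 hiso hR hL m (fun _ _ => rfl) c L]
  congr 1
  have hz : ∀ z : ZMod 2, z = 0 ∨ z = 1 := by decide
  have hfil : U.filter (fun x => (m x + if x ∈ U then 1 else 0) = c) =
      U.filter (fun u => m u = c + 1) := by
    refine filter_congr fun u hu => ?_
    rw [if_pos hu]
    generalize m u = z
    revert z c
    decide
  rw [hfil]
  by_cases hLK : L < 2 * K
  · have hb := hbal c L hLK
    rcases hz c with hc | hc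
    · have e1 : U.filter (fun u => m u = c + 1) = U.filter (fun u => m u = 1) := by
        rw [hc, zero_add]
      have e2 : U.filter (fun u => m u = c) = U.filter (fun u => m u = 0) := by
        rw [hc]
      rw [e1, e2]
      exact hb.symm
    · have e1 : U.filter (fun u => m u = c + 1) = U.filter (fun u => m u = 0) := by
        rw [hc]
        rfl
      have e2 : U.filter (fun u => m u = c) = U.filter (fun u => m u = 1) := by
        rw [hc]
      rw [e1, e2]
      exact hb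
  · have h0 : ∀ u ∈ U,
        ((range L).filter fun j => ∀ i < L, i ≠ j → m (u * a ^ ((i : ℤ) - j)) = c).card = 0 := by
      intro u hu
      rw [card_eq_zero, filter_eq_empty_iff]
      intro j hj hm
      rw [mem_range] at hj
      obtain ⟨b1, b2⟩ := ncp_close a m K (hR u hu) (hL u hu) hj fun i hi hij _ => hm i hi hij
      omega
    rw [sum_eq_zero fun u hu => h0 u (mem_filter.1 hu).1,
      sum_eq_zero fun u hu => h0 u (mem_filter.1 hu).1]

end RunMult
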