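import Pool.Agent.Lib.MP_d16eef_co.ExPrimes

/-! Further primality certificates. -/

namespace RunMult

theorem prime_5153 : Nat.Prime 5153 := by
  refine prime_of_cert 5153 5 13 [2, 2, 2, 2, 2, 7, 23] (by norm_num) (by norm_num) ?_ (by norm_num)
    (by decide +kernel)
  intro q hq
  simp only [List.mem_cons, List.not_mem_nil, or_false] at hq
  rcases hq with rfl | rfl | rfl | rfl | rfl | rfl | rfl
  · norm_num
  · norm_num
  · norm_num
  · norm_num
  · norm_num
  · norm_num
  · norm_num

theorem prime_5419 : Nat.Prime 5419 := by
  refine prime_of_cert 5419 3 13 [2, 3, 3, 7, 43] (by norm_num) (by norm_num) ?_ (by norm_num)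
    (by decide +kernel)
  intro q hq
  simp only [List.mem_cons, List.not_mem_nil, or_false] at hq
  rcases hq with rfl | rfl | rfl | rfl | rfl
  · norm_num
  · norm_num
  · norm_num
  · norm_num
  · norm_num

theorem prime_8101 : Nat.Prime 8101 := by
  refine prime_of_cert 8101 6 13 [2, 2, 3, 3, 3, 3, 5, 5] (by norm_num) (by norm_num) ?_ (by norm_num)
    (by decide +kernel)
  intro q hq
  simp only [List.mem_cons, List.not_mem_nil, or_false] at hq
  rcases hq with rfl | rfl | rfl | rfl | rfl | rfl | rfl | rfl
  · norm_num
  · norm_num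
  · norm_num
  · norm_num
  · norm_num
  · norm_num
  · norm_num
  · norm_num

theorem prime_8191 : Nat.Prime 8191 := by
  refine prime_of_cert 8191 17 13 [2, 3, 3, 5, 7, 13] (by norm_num) (by norm_num) ?_ (by norm_num)
    (by decide +kernel)
  intro q hq
  simp only [List.mem_cons, List.not_mem_nil, or_false] at hq
  rcases hq with rfl | rfl | rfl | rfl | rfl | rfl
  · norm_num
  · norm_num
  · norm_num
  · norm_num
  · norm_num
  · norm_num

theorem prime_14449 : Nat.Prime 14449 := by
  refine prime_of_cert 14449 22 14 [2, 2, 2, 2, 3, 7, 43] (by norm_num) (by norm_num) ?_ (by norm_num)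
    (by decide +kernel)
  intro q hq
  simp only [List.mem_cons, List.not_mem_nil, or_false] at hq
  rcases hq with rfl | rfl | rfl | rfl | rfl | rfl | rfl
  · norm_num
  · norm_num
  · norm_num
  · norm_num
  · norm_num
  · norm_num
  · norm_num

theorem prime_26317 : Nat.Prime 26317 := by
  refine prime_of_cert 26317 6 15 [2, 2, 3, 3, 17, 43] (by norm_num) (by norm_num) ?_ (by norm_num)
    (by decide +kernel)
  intro q hq
  simp only [List.mem_cons, List.not_mem_nil, or_false] at hq
  rcases hq with rfl | rfl | rfl | rfl | rfl | rfl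
  · norm_num
  · norm_num
  · norm_num
  · norm_num
  · norm_num
  · norm_num

theorem prime_30269 : Nat.Prime 30269 := by
  refine prime_of_cert 30269 3 15 [2, 2, 7, 23, 47] (by norm_num) (by norm_num) ?_ (by norm_num)
    (by decide +kernel)
  intro q hq
  simp only [List.mem_cons, List.not_mem_nil, or_false] at hq
  rcases hq with rfl | rfl | rfl | rfl | rfl
  · norm_num
  · norm_num
  · norm_num
  · norm_num
  · norm_num

theorem prime_38737 : Nat.Prime 38737 := by
  refine prime_of_cert 38737 5 16 [2, 2, 2, 2, 3, 3, 269] (by norm_num) (by norm_num) ?_ (by norm_num)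
    (by decide +kernel)
  intro q hq
  simp only [List.mem_cons, List.not_mem_nil, or_false] at hq
  rcases hq with rfl | rfl | rfl | rfl | rfl | rfl | rfl
  · norm_num
  · norm_num
  · norm_num
  · norm_num
  · norm_num
  · norm_num
  · norm_num

theorem prime_43691 : Nat.Prime 43691 := by
  refine prime_of_cert 43691 6 16 [2, 5, 17, 257] (by norm_num) (by norm_num) ?_ (by norm_num)
    (by decide +kernel)
  intro q hq
  simp only [List.mem_cons, List.not_mem_nil, or_false] at hq
  rcases hq with rfl | rfl | rfl | rfl
  · norm_num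
  · norm_num
  · norm_num
  · norm_num

theorem prime_61681 : Nat.Prime 61681 := by
  refine prime_of_cert 61681 29 16 [2, 2, 2, 2, 3, 5, 257] (by norm_num) (by norm_num) ?_ (by norm_num)
    (by decide +kernel)
  intro q hq
  simp only [List.mem_cons, List.not_mem_nil, or_false] at hq
  rcases hq with rfl | rfl | rfl | rfl | rfl | rfl | rfl
  · norm_num
  · norm_num
  · norm_num
  · norm_num
  · norm_num
  · norm_num
  · norm_num

theorem prime_65537 : Nat.Prime 65537 := by
  refine prime_of_cert 65537 3 17 [2, 2, 2, 2, 2, 2, 2, 2, 2, 2, 2, 2, 2, 2, 2, 2] (by norm_num) (by norm_num) ?_ (by norm_num)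
    (by decide +kernel)
  intro q hq
  simp only [List.mem_cons, List.not_mem_nil, or_false] at hq
  rcases hq with rfl | rfl | rfl | rfl | rfl | rfl | rfl | rfl | rfl | rfl | rfl | rfl | rfl | rfl | rfl | rfl
  · norm_num
  · norm_num
  · norm_num
  · norm_num
  · norm_num
  · norm_num
  · norm_num
  · norm_num
  · norm_num
  · norm_num
  · norm_num
  · norm_num
  · norm_num
  · norm_num
  · norm_num
  · norm_num

theorem prime_87211 : Nat.Prime 87211 := by
  refine prime_of_cert 87211 13 17 [2, 3, 3, 3, 5, 17, 19] (by norm_num) (by norm_num) ?_ (by norm_num)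
    (by decide +kernel)
  intro q hq
  simp only [List.mem_cons, List.not_mem_nil, or_false] at hq
  rcases hq with rfl | rfl | rfl | rfl | rfl | rfl | rfl
  · norm_num
  · norm_num
  · norm_num
  · norm_num
  · norm_num
  · norm_num
  · norm_num

theorem prime_148961 : Nat.Prime 148961 := by
  refine prime_of_cert 148961 3 18 [2, 2, 2, 2, 2, 5, 7, 7, 19] (by norm_num) (by norm_num) ?_ (by norm_num)
    (by decide +kernel)
  intro q hq
  simp only [List.mem_cons, List.not_mem_nil, or_false] at hq
  rcases hq with rfl | rfl | rfl | rfl | rfl | rfl | rfl | rfl | rfl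
  · norm_num
  · norm_num
  · norm_num
  · norm_num
  · norm_num
  · norm_num
  · norm_num
  · norm_num
  · norm_num

theorem prime_229153 : Nat.Prime 229153 := by
  refine prime_of_cert 229153 15 18 [2, 2, 2, 2, 2, 3, 7, 11, 31] (by norm_num) (by norm_num) ?_ (by norm_num)
    (by decide +kernel)
  intro q hq
  simp only [List.mem_cons, List.not_mem_nil, or_false] at hq
  rcases hq with rfl | rfl | rfl | rfl | rfl | rfl | rfl | rfl | rfl
  · norm_num
  · norm_num
  · norm_num
  · norm_num
  · norm_num
  · norm_num
  · norm_num
  · norm_num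
  · norm_num

theorem prime_246241 : Nat.Prime 246241 := by
  refine prime_of_cert 246241 11 18 [2, 2, 2, 2, 2, 3, 3, 3, 3, 5, 19] (by norm_num) (by norm_num) ?_ (by norm_num)
    (by decide +kernel)
  intro q hq
  simp only [List.mem_cons, List.not_mem_nil, or_false] at hq
  rcases hq with rfl | rfl | rfl | rfl | rfl | rfl | rfl | rfl | rfl | rfl | rfl
  · norm_num
  · norm_num
  · norm_num
  · norm_num
  · norm_num
  · norm_num
  · norm_num
  · norm_num
  · norm_num
  · norm_num
  · norm_num

theorem prime_268501 : Nat.Prime 268501 := by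
  refine prime_of_cert 268501 6 19 [2, 2, 3, 5, 5, 5, 179] (by norm_num) (by norm_num) ?_ (by norm_num)
    (by decide +kernel)
  intro q hq
  simp only [List.mem_cons, List.not_mem_nil, or_false] at hq
  rcases hq with rfl | rfl | rfl | rfl | rfl | rfl | rfl
  · norm_num
  · norm_num
  · norm_num
  · norm_num
  · norm_num
  · norm_num
  · norm_num

theorem prime_274177 : Nat.Prime 274177 := by
  refine prime_of_cert 274177 5 19 [2, 2, 2, 2, 2, 2, 2, 2, 3, 3, 7, 17] (by norm_num) (by norm_num) ?_ (by norm_num)
    (by decide +kernel)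
  intro q hq
  simp only [List.mem_cons, List.not_mem_nil, or_false] at hq
  rcases hq with rfl | rfl | rfl | rfl | rfl | rfl | rfl | rfl | rfl | rfl | rfl | rfl
  · norm_num
  · norm_num
  · norm_num
  · norm_num
  · norm_num
  · norm_num
  · norm_num
  · norm_num
  · norm_num
  · norm_num
  · norm_num
  · norm_num

theorem prime_279073 : Nat.Prime 279073 := by
  refine prime_of_cert 279073 10 19 [2, 2, 2, 2, 2, 3, 3, 3, 17, 19] (by norm_num) (by norm_num) ?_ (by norm_num)
    (by decide +kernel)
  intro q hq
  simp only [List.mem_cons, List.not_mem_nil, or_false] at hq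
  rcases hq with rfl | rfl | rfl | rfl | rfl | rfl | rfl | rfl | rfl | rfl
  · norm_num
  · norm_num
  · norm_num
  · norm_num
  · norm_num
  · norm_num
  · norm_num
  · norm_num
  · norm_num
  · norm_num

theorem prime_340801 : Nat.Prime 340801 := by
  refine prime_of_cert 340801 11 19 [2, 2, 2, 2, 2, 2, 3, 5, 5, 71] (by norm_num) (by norm_num) ?_ (by norm_num)
    (by decide +kernel)
  intro q hq
  simp only [List.mem_cons, List.not_mem_nil, or_false] at hq
  rcases hq with rfl | rfl | rfl | rfl | rfl | rfl | rfl | rfl | rfl | rfl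
  · norm_num
  · norm_num
  · norm_num
  · norm_num
  · norm_num
  · norm_num
  · norm_num
  · norm_num
  · norm_num
  · norm_num

theorem prime_354689 : Nat.Prime 354689 := by
  refine prime_of_cert 354689 3 19 [2, 2, 2, 2, 2, 2, 2, 17, 163] (by norm_num) (by norm_num) ?_ (by norm_num)
    (by decide +kernel)
  intro q hq
  simp only [List.mem_cons, List.not_mem_nil, or_false] at hq
  rcases hq with rfl | rfl | rfl | rfl | rfl | rfl | rfl | rfl | rfl
  · norm_num
  · norm_num
  · norm_num
  · norm_num
  · norm_num
  · norm_num
  · norm_num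
  · norm_num
  · norm_num

theorem prime_414721 : Nat.Prime 414721 := by
  refine prime_of_cert 414721 13 19 [2, 2, 2, 2, 2, 2, 2, 2, 2, 2, 3, 3, 3, 3, 5] (by norm_num) (by norm_num) ?_ (by norm_num)
    (by decide +kernel)
  intro q hq
  simp only [List.mem_cons, List.not_mem_nil, or_false] at hq
  rcases hq with rfl | rfl | rfl | rfl | rfl | rfl | rfl | rfl | rfl | rfl | rfl | rfl | rfl | rfl | rfl
  · norm_num
  · norm_num
  · norm_num
  · norm_num
  · norm_num
  · norm_num
  · norm_num
  · norm_num
  · norm_num
  · norm_num
  · norm_num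
  · norm_num
  · norm_num
  · norm_num
  · norm_num

theorem prime_525313 : Nat.Prime 525313 := by
  refine prime_of_cert 525313 5 20 [2, 2, 2, 2, 2, 2, 2, 2, 2, 2, 3, 3, 3, 19] (by norm_num) (by norm_num) ?_ (by norm_num)
    (by decide +kernel)
  intro q hq
  simp only [List.mem_cons, List.not_mem_nil, or_false] at hq
  rcases hq with rfl | rfl | rfl | rfl | rfl | rfl | rfl | rfl | rfl | rfl | rfl | rfl | rfl | rfl
  · norm_num
  · norm_num
  · norm_num
  · norm_num
  · norm_num
  · norm_num
  · norm_num
  · norm_num
  · norm_num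
  · norm_num
  · norm_num
  · norm_num
  · norm_num
  · norm_num

theorem prime_858001 : Nat.Prime 858001 := by
  refine prime_of_cert 858001 17 20 [2, 2, 2, 2, 3, 5, 5, 5, 11, 13] (by norm_num) (by norm_num) ?_ (by norm_num)
    (by decide +kernel)
  intro q hq
  simp only [List.mem_cons, List.not_mem_nil, or_false] at hq
  rcases hq with rfl | rfl | rfl | rfl | rfl | rfl | rfl | rfl | rfl | rfl
  · norm_num
  · norm_num
  · norm_num
  · norm_num
  · norm_num
  · norm_num
  · norm_num
  · norm_num
  · norm_num
  · norm_num

theorem prime_2787601 : Nat.Prime 2787601 := by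
  refine prime_of_cert 2787601 7 22 [2, 2, 2, 2, 3, 5, 5, 23, 101] (by norm_num) (by norm_num) ?_ (by norm_num)
    (by decide +kernel)
  intro q hq
  simp only [List.mem_cons, List.not_mem_nil, or_false] at hq
  rcases hq with rfl | rfl | rfl | rfl | rfl | rfl | rfl | rfl | rfl
  · norm_num
  · norm_num
  · norm_num
  · norm_num
  · norm_num
  · norm_num
  · norm_num
  · norm_num
  · norm_num

theorem prime_17449 : Nat.Prime 17449 := by
  refine prime_of_cert 17449 14 15 [2, 2, 2, 3, 727] (by norm_num) (by norm_num) ?_ (by norm_num)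
    (by decide +kernel)
  intro q hq
  simp only [List.mem_cons, List.not_mem_nil, or_false] at hq
  rcases hq with rfl | rfl | rfl | rfl | rfl
  · norm_num
  · norm_num
  · norm_num
  · norm_num
  · norm_num

theorem prime_6700417 : Nat.Prime 6700417 := by
  refine prime_of_cert 6700417 5 23 [2, 2, 2, 2, 2, 2, 2, 3, 17449] (by norm_num) (by norm_num) ?_ (by norm_num)
    (by decide +kernel)
  intro q hq
  simp only [List.mem_cons, List.not_mem_nil, or_false] at hq
  rcases hq with rfl | rfl | rfl | rfl | rfl | rfl | rfl | rfl | rfl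
  · norm_num
  · norm_num
  · norm_num
  · norm_num
  · norm_num
  · norm_num
  · norm_num
  · norm_num
  · exact prime_17449

theorem prime_15790321 : Nat.Prime 15790321 := by
  refine prime_of_cert 15790321 19 24 [2, 2, 2, 2, 3, 3, 5, 7, 13, 241] (by norm_num) (by norm_num) ?_ (by norm_num)
    (by decide +kernel)
  intro q hq
  simp only [List.mem_cons, List.not_mem_nil, or_false] at hq
  rcases hq with rfl | rfl | rfl | rfl | rfl | rfl | rfl | rfl | rfl | rfl
  · norm_num
  · norm_num
  · norm_num
  · norm_num
  · norm_num
  · norm_num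
  · norm_num
  · norm_num
  · norm_num
  · norm_num

theorem prime_115903 : Nat.Prime 115903 := by
  refine prime_of_cert 115903 3 17 [2, 3, 3, 47, 137] (by norm_num) (by norm_num) ?_ (by norm_num)
    (by decide +kernel)
  intro q hq
  simp only [List.mem_cons, List.not_mem_nil, or_false] at hq
  rcases hq with rfl | rfl | rfl | rfl | rfl
  · norm_num
  · norm_num
  · norm_num
  · norm_num
  · norm_num

theorem prime_22253377 : Nat.Prime 22253377 := by
  refine prime_of_cert 22253377 5 25 [2, 2, 2, 2, 2, 2, 3, 115903] (by norm_num) (by norm_num) ?_ (by norm_num)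
    (by decide +kernel)
  intro q hq
  simp only [List.mem_cons, List.not_mem_nil, or_false] at hq
  rcases hq with rfl | rfl | rfl | rfl | rfl | rfl | rfl | rfl
  · norm_num
  · norm_num
  · norm_num
  · norm_num
  · norm_num
  · norm_num
  · norm_num
  · exact prime_115903

theorem prime_33975937 : Nat.Prime 33975937 := by
  refine prime_of_cert 33975937 5 26 [2, 2, 2, 2, 2, 2, 2, 3, 3, 3, 3, 29, 113] (by norm_num) (by norm_num) ?_ (by norm_num)
    (by decide +kernel)
  intro q hq
  simp only [List.mem_cons, List.not_mem_nil, or_false] at hq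
  rcases hq with rfl | rfl | rfl | rfl | rfl | rfl | rfl | rfl | rfl | rfl | rfl | rfl | rfl
  · norm_num
  · norm_num
  · norm_num
  · norm_num
  · norm_num
  · norm_num
  · norm_num
  · norm_num
  · norm_num
  · norm_num
  · norm_num
  · norm_num
  · norm_num

theorem prime_119782433 : Nat.Prime 119782433 := by
  refine prime_of_cert 119782433 3 27 [2, 2, 2, 2, 2, 7, 11, 173, 281] (by norm_num) (by norm_num) ?_ (by norm_num)
    (by decide +kernel)
  intro q hq
  simp only [List.mem_cons, List.not_mem_nil, or_false] at hq
  rcases hq with rfl | rfl | rfl | rfl | rfl | rfl | rfl | rfl | rfl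
  · norm_num
  · norm_num
  · norm_num
  · norm_num
  · norm_num
  · norm_num
  · norm_num
  · norm_num
  · norm_num

theorem prime_183076097 : Nat.Prime 183076097 := by
  refine prime_of_cert 183076097 3 28 [2, 2, 2, 2, 2, 2, 2, 2, 7, 19, 19, 283] (by norm_num) (by norm_num) ?_ (by norm_num)
    (by decide +kernel)
  intro q hq
  simp only [List.mem_cons, List.not_mem_nil, or_false] at hq
  rcases hq with rfl | rfl | rfl | rfl | rfl | rfl | rfl | rfl | rfl | rfl | rfl | rfl
  · norm_num
  · norm_num
  · norm_num
  · norm_num
  · norm_num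
  · norm_num
  · norm_num
  · norm_num
  · norm_num
  · norm_num
  · norm_num
  · norm_num

theorem prime_49481 : Nat.Prime 49481 := by
  refine prime_of_cert 49481 3 16 [2, 2, 2, 5, 1237] (by norm_num) (by norm_num) ?_ (by norm_num)
    (by decide +kernel)
  intro q hq
  simp only [List.mem_cons, List.not_mem_nil, or_false] at hq
  rcases hq with rfl | rfl | rfl | rfl | rfl
  · norm_num
  · norm_num
  · norm_num
  · norm_num
  · norm_num

theorem prime_308761441 : Nat.Prime 308761441 := by
  refine prime_of_cert 308761441 17 29 [2, 2, 2, 2, 2, 3, 5, 13, 49481] (by norm_num) (by norm_num) ?_ (by norm_num)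
    (by decide +kernel)
  intro q hq
  simp only [List.mem_cons, List.not_mem_nil, or_false] at hq
  rcases hq with rfl | rfl | rfl | rfl | rfl | rfl | rfl | rfl | rfl
  · norm_num
  · norm_num
  · norm_num
  · norm_num
  · norm_num
  · norm_num
  · norm_num
  · norm_num
  · exact prime_49481

theorem prime_411233 : Nat.Prime 411233 := by
  refine prime_of_cert 411233 3 19 [2, 2, 2, 2, 2, 71, 181] (by norm_num) (by norm_num) ?_ (by norm_num)
    (by decide +kernel)
  intro q hq
  simp only [List.mem_cons, List.not_mem_nil, or_false] at hq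
  rcases hq with rfl | rfl | rfl | rfl | rfl | rfl | rfl
  · norm_num
  · norm_num
  · norm_num
  · norm_num
  · norm_num
  · norm_num
  · norm_num

theorem prime_394783681 : Nat.Prime 394783681 := by
  refine prime_of_cert 394783681 7 29 [2, 2, 2, 2, 2, 2, 3, 5, 411233] (by norm_num) (by norm_num) ?_ (by norm_num)
    (by decide +kernel)
  intro q hq
  simp only [List.mem_cons, List.not_mem_nil, or_false] at hq
  rcases hq with rfl | rfl | rfl | rfl | rfl | rfl | rfl | rfl | rfl
  · norm_num
  · norm_num
  · norm_num
  · norm_num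
  · norm_num
  · norm_num
  · norm_num
  · norm_num
  · exact prime_411233

theorem prime_8707 : Nat.Prime 8707 := by
  refine prime_of_cert 8707 5 14 [2, 3, 1451] (by norm_num) (by norm_num) ?_ (by norm_num)
    (by decide +kernel)
  intro q hq
  simp only [List.mem_cons, List.not_mem_nil, or_false] at hq
  rcases hq with rfl | rfl | rfl
  · norm_num
  · norm_num
  · norm_num

theorem prime_2931542417 : Nat.Prime 2931542417 := by
  refine prime_of_cert 2931542417 3 32 [2, 2, 2, 2, 11, 1913, 8707] (by norm_num) (by norm_num) ?_ (by norm_num)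
    (by decide +kernel)
  intro q hq
  simp only [List.mem_cons, List.not_mem_nil, or_false] at hq
  rcases hq with rfl | rfl | rfl | rfl | rfl | rfl | rfl
  · norm_num
  · norm_num
  · norm_num
  · norm_num
  · norm_num
  · norm_num
  · exact prime_8707

theorem prime_6947 : Nat.Prime 6947 := by
  refine prime_of_cert 6947 2 13 [2, 23, 151] (by norm_num) (by norm_num) ?_ (by norm_num)
    (by decide +kernel)
  intro q hq
  simp only [List.mem_cons, List.not_mem_nil, or_false] at hq
  rcases hq with rfl | rfl | rfl
  · norm_num
  · norm_num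
  · norm_num

theorem prime_3173389601 : Nat.Prime 3173389601 := by
  refine prime_of_cert 3173389601 6 32 [2, 2, 2, 2, 2, 5, 5, 571, 6947] (by norm_num) (by norm_num) ?_ (by norm_num)
    (by decide +kernel)
  intro q hq
  simp only [List.mem_cons, List.not_mem_nil, or_false] at hq
  rcases hq with rfl | rfl | rfl | rfl | rfl | rfl | rfl | rfl | rfl
  · norm_num
  · norm_num
  · norm_num
  · norm_num
  · norm_num
  · norm_num
  · norm_num
  · norm_num
  · exact prime_6947

theorem prime_4278255361 : Nat.Prime 4278255361 := by
  refine prime_of_cert 4278255361 23 32 [2, 2, 2, 2, 2, 2, 2, 2, 3, 5, 17, 65537] (by norm_num) (by norm_num) ?_ (by norm_num)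
    (by decide +kernel)
  intro q hq
  simp only [List.mem_cons, List.not_mem_nil, or_false] at hq
  rcases hq with rfl | rfl | rfl | rfl | rfl | rfl | rfl | rfl | rfl | rfl | rfl | rfl
  · norm_num
  · norm_num
  · norm_num
  · norm_num
  · norm_num
  · norm_num
  · norm_num
  · norm_num
  · norm_num
  · norm_num
  · norm_num
  · exact prime_65537

theorem prime_4562284561 : Nat.Prime 4562284561 := by
  refine prime_of_cert 4562284561 11 33 [2, 2, 2, 2, 3, 5, 17, 19, 229, 257] (by norm_num) (by norm_num) ?_ (by norm_num)
    (by decide +kernel)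
  intro q hq
  simp only [List.mem_cons, List.not_mem_nil, or_false] at hq
  rcases hq with rfl | rfl | rfl | rfl | rfl | rfl | rfl | rfl | rfl | rfl
  · norm_num
  · norm_num
  · norm_num
  · norm_num
  · norm_num
  · norm_num
  · norm_num
  · norm_num
  · norm_num
  · norm_num

theorem prime_43872038849 : Nat.Prime 43872038849 := by
  refine prime_of_cert 43872038849 3 36 [2, 2, 2, 2, 2, 2, 11, 41, 307, 4951] (by norm_num) (by norm_num) ?_ (by norm_num)
    (by decide +kernel)
  intro q hq
  simp only [List.mem_cons, List.not_mem_nil, or_false] at hq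
  rcases hq with rfl | rfl | rfl | rfl | rfl | rfl | rfl | rfl | rfl | rfl
  · norm_num
  · norm_num
  · norm_num
  · norm_num
  · norm_num
  · norm_num
  · norm_num
  · norm_num
  · norm_num
  · norm_num

theorem prime_5429251 : Nat.Prime 5429251 := by
  refine prime_of_cert 5429251 2 23 [2, 3, 3, 5, 5, 5, 19, 127] (by norm_num) (by norm_num) ?_ (by norm_num)
    (by decide +kernel)
  intro q hq
  simp only [List.mem_cons, List.not_mem_nil, or_false] at hq
  rcases hq with rfl | rfl | rfl | rfl | rfl | rfl | rfl | rfl
  · norm_num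
  · norm_num
  · norm_num
  · norm_num
  · norm_num
  · norm_num
  · norm_num
  · norm_num

theorem prime_46908728641 : Nat.Prime 46908728641 := by
  refine prime_of_cert 46908728641 7 36 [2, 2, 2, 2, 2, 2, 3, 3, 3, 5, 5429251] (by norm_num) (by norm_num) ?_ (by norm_num)
    (by decide +kernel)
  intro q hq
  simp only [List.mem_cons, List.not_mem_nil, or_false] at hq
  rcases hq with rfl | rfl | rfl | rfl | rfl | rfl | rfl | rfl | rfl | rfl | rfl
  · norm_num
  · norm_num
  · norm_num
  · norm_num
  · norm_num
  · norm_num
  · norm_num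
  · norm_num
  · norm_num
  · norm_num
  · exact prime_5429251

theorem prime_660071 : Nat.Prime 660071 := by
  refine prime_of_cert 660071 11 20 [2, 5, 149, 443] (by norm_num) (by norm_num) ?_ (by norm_num)
    (by decide +kernel)
  intro q hq
  simp only [List.mem_cons, List.not_mem_nil, or_false] at hq
  rcases hq with rfl | rfl | rfl | rfl
  · norm_num
  · norm_num
  · norm_num
  · norm_num

theorem prime_242906129 : Nat.Prime 242906129 := by
  refine prime_of_cert 242906129 3 28 [2, 2, 2, 2, 23, 660071] (by norm_num) (by norm_num) ?_ (by norm_num)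
    (by decide +kernel)
  intro q hq
  simp only [List.mem_cons, List.not_mem_nil, or_false] at hq
  rcases hq with rfl | rfl | rfl | rfl | rfl | rfl
  · norm_num
  · norm_num
  · norm_num
  · norm_num
  · norm_num
  · exact prime_660071

theorem prime_54410972897 : Nat.Prime 54410972897 := by
  refine prime_of_cert 54410972897 3 36 [2, 2, 2, 2, 2, 7, 242906129] (by norm_num) (by norm_num) ?_ (by norm_num)
    (by decide +kernel)
  intro q hq
  simp only [List.mem_cons, List.not_mem_nil, or_false] at hq
  rcases hq with rfl | rfl | rfl | rfl | rfl | rfl | rfl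
  · norm_num
  · norm_num
  · norm_num
  · norm_num
  · norm_num
  · norm_num
  · exact prime_242906129

theorem prime_790333 : Nat.Prime 790333 := by
  refine prime_of_cert 790333 2 20 [2, 2, 3, 67, 983] (by norm_num) (by norm_num) ?_ (by norm_num)
    (by decide +kernel)
  intro q hq
  simp only [List.mem_cons, List.not_mem_nil, or_false] at hq
  rcases hq with rfl | rfl | rfl | rfl | rfl
  · norm_num
  · norm_num
  · norm_num
  · norm_num
  · norm_num

theorem prime_88959882481 : Nat.Prime 88959882481 := by
  refine prime_of_cert 88959882481 26 37 [2, 2, 2, 2, 3, 5, 7, 67, 790333] (by norm_num) (by norm_num) ?_ (by norm_num)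
    (by decide +kernel)
  intro q hq
  simp only [List.mem_cons, List.not_mem_nil, or_false] at hq
  rcases hq with rfl | rfl | rfl | rfl | rfl | rfl | rfl | rfl | rfl
  · norm_num
  · norm_num
  · norm_num
  · norm_num
  · norm_num
  · norm_num
  · norm_num
  · norm_num
  · exact prime_790333

theorem prime_28751 : Nat.Prime 28751 := by
  refine prime_of_cert 28751 14 15 [2, 5, 5, 5, 5, 23] (by norm_num) (by norm_num) ?_ (by norm_num)
    (by decide +kernel)
  intro q hq
  simp only [List.mem_cons, List.not_mem_nil, or_false] at hq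
  rcases hq with rfl | rfl | rfl | rfl | rfl | rfl
  · norm_num
  · norm_num
  · norm_num
  · norm_num
  · norm_num
  · norm_num

theorem prime_487824887233 : Nat.Prime 487824887233 := by
  refine prime_of_cert 487824887233 5 39 [2, 2, 2, 2, 2, 2, 3, 3, 3, 3, 3, 1091, 28751] (by norm_num) (by norm_num) ?_ (by norm_num)
    (by decide +kernel)
  intro q hq
  simp only [List.mem_cons, List.not_mem_nil, or_false] at hq
  rcases hq with rfl | rfl | rfl | rfl | rfl | rfl | rfl | rfl | rfl | rfl | rfl | rfl | rfl
  · norm_num
  · norm_num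
  · norm_num
  · norm_num
  · norm_num
  · norm_num
  · norm_num
  · norm_num
  · norm_num
  · norm_num
  · norm_num
  · norm_num
  · exact prime_28751

theorem prime_1205951 : Nat.Prime 1205951 := by
  refine prime_of_cert 1205951 13 21 [2, 5, 5, 89, 271] (by norm_num) (by norm_num) ?_ (by norm_num)
    (by decide +kernel)
  intro q hq
  simp only [List.mem_cons, List.not_mem_nil, or_false] at hq
  rcases hq with rfl | rfl | rfl | rfl | rfl
  · norm_num
  · norm_num
  · norm_num
  · norm_num
  · norm_num

theorem prime_2879347902817 : Nat.Prime 2879347902817 := by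
  refine prime_of_cert 2879347902817 15 42 [2, 2, 2, 2, 2, 3, 7, 11, 17, 19, 1205951] (by norm_num) (by norm_num) ?_ (by norm_num)
    (by decide +kernel)
  intro q hq
  simp only [List.mem_cons, List.not_mem_nil, or_false] at hq
  rcases hq with rfl | rfl | rfl | rfl | rfl | rfl | rfl | rfl | rfl | rfl | rfl
  · norm_num
  · norm_num
  · norm_num
  · norm_num
  · norm_num
  · norm_num
  · norm_num
  · norm_num
  · norm_num
  · norm_num
  · exact prime_1205951

theorem prime_85607 : Nat.Prime 85607 := by
  refine prime_of_cert 85607 5 17 [2, 23, 1861] (by norm_num) (by norm_num) ?_ (by norm_num)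
    (by decide +kernel)
  intro q hq
  simp only [List.mem_cons, List.not_mem_nil, or_false] at hq
  rcases hq with rfl | rfl | rfl
  · norm_num
  · norm_num
  · norm_num

theorem prime_684857 : Nat.Prime 684857 := by
  refine prime_of_cert 684857 3 20 [2, 2, 2, 85607] (by norm_num) (by norm_num) ?_ (by norm_num)
    (by decide +kernel)
  intro q hq
  simp only [List.mem_cons, List.not_mem_nil, or_false] at hq
  rcases hq with rfl | rfl | rfl | rfl
  · norm_num
  · norm_num
  · norm_num
  · exact prime_85607

theorem prime_24517014940753 : Nat.Prime 24517014940753 := by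
  refine prime_of_cert 24517014940753 15 45 [2, 2, 2, 2, 3, 17, 19, 2309, 684857] (by norm_num) (by norm_num) ?_ (by norm_num)
    (by decide +kernel)
  intro q hq
  simp only [List.mem_cons, List.not_mem_nil, or_false] at hq
  rcases hq with rfl | rfl | rfl | rfl | rfl | rfl | rfl | rfl | rfl
  · norm_num
  · norm_num
  · norm_num
  · norm_num
  · norm_num
  · norm_num
  · norm_num
  · norm_num
  · exact prime_684857

theorem prime_17029 : Nat.Prime 17029 := by
  refine prime_of_cert 17029 10 15 [2, 2, 3, 3, 11, 43] (by norm_num) (by norm_num) ?_ (by norm_num)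
    (by decide +kernel)
  intro q hq
  simp only [List.mem_cons, List.not_mem_nil, or_false] at hq
  rcases hq with rfl | rfl | rfl | rfl | rfl | rfl
  · norm_num
  · norm_num
  · norm_num
  · norm_num
  · norm_num
  · norm_num

theorem prime_6096383 : Nat.Prime 6096383 := by
  refine prime_of_cert 6096383 5 23 [2, 179, 17029] (by norm_num) (by norm_num) ?_ (by norm_num)
    (by decide +kernel)
  intro q hq
  simp only [List.mem_cons, List.not_mem_nil, or_false] at hq
  rcases hq with rfl | rfl | rfl
  · norm_num
  · norm_num
  · exact prime_17029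

theorem prime_44479210368001 : Nat.Prime 44479210368001 := by
  refine prime_of_cert 44479210368001 13 46 [2, 2, 2, 2, 2, 2, 2, 2, 2, 2, 3, 5, 5, 5, 19, 6096383] (by norm_num) (by norm_num) ?_ (by norm_num)
    (by decide +kernel)
  intro q hq
  simp only [List.mem_cons, List.not_mem_nil, or_false] at hq
  rcases hq with rfl | rfl | rfl | rfl | rfl | rfl | rfl | rfl | rfl | rfl | rfl | rfl | rfl | rfl | rfl | rfl
  · norm_num
  · norm_num
  · norm_num
  · norm_num
  · norm_num
  · norm_num
  · norm_num
  · norm_num
  · norm_num
  · norm_num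
  · norm_num
  · norm_num
  · norm_num
  · norm_num
  · norm_num
  · exact prime_6096383

theorem prime_16657 : Nat.Prime 16657 := by
  refine prime_of_cert 16657 5 15 [2, 2, 2, 2, 3, 347] (by norm_num) (by norm_num) ?_ (by norm_num)
    (by decide +kernel)
  intro q hq
  simp only [List.mem_cons, List.not_mem_nil, or_false] at hq
  rcases hq with rfl | rfl | rfl | rfl | rfl | rfl
  · norm_num
  · norm_num
  · norm_num
  · norm_num
  · norm_num
  · norm_num

theorem prime_166571 : Nat.Prime 166571 := by
  refine prime_of_cert 166571 2 18 [2, 5, 16657] (by norm_num) (by norm_num) ?_ (by norm_num)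
    (by decide +kernel)
  intro q hq
  simp only [List.mem_cons, List.not_mem_nil, or_false] at hq
  rcases hq with rfl | rfl | rfl
  · norm_num
  · norm_num
  · exact prime_16657

theorem prime_2998279 : Nat.Prime 2998279 := by
  refine prime_of_cert 2998279 3 22 [2, 3, 3, 166571] (by norm_num) (by norm_num) ?_ (by norm_num)
    (by decide +kernel)
  intro q hq
  simp only [List.mem_cons, List.not_mem_nil, or_false] at hq
  rcases hq with rfl | rfl | rfl | rfl
  · norm_num
  · norm_num
  · norm_num
  · exact prime_166571

theorem prime_67280421310721 : Nat.Prime 67280421310721 := by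
  refine prime_of_cert 67280421310721 3 46 [2, 2, 2, 2, 2, 2, 2, 2, 5, 47, 373, 2998279] (by norm_num) (by norm_num) ?_ (by norm_num)
    (by decide +kernel)
  intro q hq
  simp only [List.mem_cons, List.not_mem_nil, or_false] at hq
  rcases hq with rfl | rfl | rfl | rfl | rfl | rfl | rfl | rfl | rfl | rfl | rfl | rfl
  · norm_num
  · norm_num
  · norm_num
  · norm_num
  · norm_num
  · norm_num
  · norm_num
  · norm_num
  · norm_num
  · norm_num
  · norm_num
  · exact prime_2998279

theorem prime_17291 : Nat.Prime 17291 := by
  refine prime_of_cert 17291 6 15 [2, 5, 7, 13, 19] (by norm_num) (by norm_num) ?_ (by norm_num)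
    (by decide +kernel)
  intro q hq
  simp only [List.mem_cons, List.not_mem_nil, or_false] at hq
  rcases hq with rfl | rfl | rfl | rfl | rfl
  · norm_num
  · norm_num
  · norm_num
  · norm_num
  · norm_num

theorem prime_509081623 : Nat.Prime 509081623 := by
  refine prime_of_cert 509081623 10 29 [2, 3, 7, 701, 17291] (by norm_num) (by norm_num) ?_ (by norm_num)
    (by decide +kernel)
  intro q hq
  simp only [List.mem_cons, List.not_mem_nil, or_false] at hq
  rcases hq with rfl | rfl | rfl | rfl | rfl
  · norm_num
  · norm_num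
  · norm_num
  · norm_num
  · exact prime_17291

theorem prime_138991501037953 : Nat.Prime 138991501037953 := by
  refine prime_of_cert 138991501037953 5 47 [2, 2, 2, 2, 2, 2, 2, 3, 3, 3, 79, 509081623] (by norm_num) (by norm_num) ?_ (by norm_num)
    (by decide +kernel)
  intro q hq
  simp only [List.mem_cons, List.not_mem_nil, or_false] at hq
  rcases hq with rfl | rfl | rfl | rfl | rfl | rfl | rfl | rfl | rfl | rfl | rfl | rfl
  · norm_num
  · norm_num
  · norm_num
  · norm_num
  · norm_num
  · norm_num
  · norm_num
  · norm_num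
  · norm_num
  · norm_num
  · norm_num
  · exact prime_509081623

theorem prime_5693 : Nat.Prime 5693 := by
  refine prime_of_cert 5693 2 13 [2, 2, 1423] (by norm_num) (by norm_num) ?_ (by norm_num)
    (by decide +kernel)
  intro q hq
  simp only [List.mem_cons, List.not_mem_nil, or_false] at hq
  rcases hq with rfl | rfl | rfl
  · norm_num
  · norm_num
  · norm_num

theorem prime_74713 : Nat.Prime 74713 := by
  refine prime_of_cert 74713 10 17 [2, 2, 2, 3, 11, 283] (by norm_num) (by norm_num) ?_ (by norm_num)
    (by decide +kernel)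
  intro q hq
  simp only [List.mem_cons, List.not_mem_nil, or_false] at hq
  rcases hq with rfl | rfl | rfl | rfl | rfl | rfl
  · norm_num
  · norm_num
  · norm_num
  · norm_num
  · norm_num
  · norm_num

theorem prime_358429848460993 : Nat.Prime 358429848460993 := by
  refine prime_of_cert 358429848460993 15 49 [2, 2, 2, 2, 2, 2, 3, 3, 7, 11, 19, 5693, 74713] (by norm_num) (by norm_num) ?_ (by norm_num)
    (by decide +kernel)
  intro q hq
  simp only [List.mem_cons, List.not_mem_nil, or_false] at hq
  rcases hq with rfl | rfl | rfl | rfl | rfl | rfl | rfl | rfl | rfl | rfl | rfl | rfl | rfl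
  · norm_num
  · norm_num
  · norm_num
  · norm_num
  · norm_num
  · norm_num
  · norm_num
  · norm_num
  · norm_num
  · norm_num
  · norm_num
  · exact prime_5693
  · exact prime_74713

theorem prime_18446744069414584321 : Nat.Prime 18446744069414584321 := by
  refine prime_of_cert 18446744069414584321 7 64 [2, 2, 2, 2, 2, 2, 2, 2, 2, 2, 2, 2, 2, 2, 2, 2, 2, 2, 2, 2, 2, 2, 2, 2, 2, 2, 2, 2, 2, 2, 2, 2, 3, 5, 17, 257, 65537] (by norm_num) (by norm_num) ?_ (by norm_num)
    (by decide +kernel)
  intro q hq
  simp only [List.mem_cons, List.not_mem_nil, or_false] at hq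
  rcases hq with rfl | rfl | rfl | rfl | rfl | rfl | rfl | rfl | rfl | rfl | rfl | rfl | rfl | rfl | rfl | rfl | rfl | rfl | rfl | rfl | rfl | rfl | rfl | rfl | rfl | rfl | rfl | rfl | rfl | rfl | rfl | rfl | rfl | rfl | rfl | rfl | rfl
  · norm_num
  · norm_num
  · norm_num
  · norm_num
  · norm_num
  · norm_num
  · norm_num
  · norm_num
  · norm_num
  · norm_num
  · norm_num
  · norm_num
  · norm_num
  · norm_num
  · norm_num
  · norm_num
  · norm_num
  · norm_num
  · norm_num
  · norm_num
  · norm_num
  · norm_num
  · norm_num
  · norm_num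
  · norm_num
  · norm_num
  · norm_num
  · norm_num
  · norm_num
  · norm_num
  · norm_num
  · norm_num
  · norm_num
  · norm_num
  · norm_num
  · norm_num
  · exact prime_65537

theorem prime_291280009243618888211558641 : Nat.Prime 291280009243618888211558641 := by
  refine prime_of_cert 291280009243618888211558641 17 88 [2, 2, 2, 2, 3, 5, 23, 89, 353, 397, 683, 2113, 2931542417] (by norm_num) (by norm_num) ?_ (by norm_num)
    (by decide +kernel)
  intro q hq
  simp only [List.mem_cons, List.not_mem_nil, or_false] at hq
  rcases hq with rfl | rfl | rfl | rfl | rfl | rfl | rfl | rfl | rfl | rfl | rfl | rfl | rfl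
  · norm_num
  · norm_num
  · norm_num
  · norm_num
  · norm_num
  · norm_num
  · norm_num
  · norm_num
  · norm_num
  · norm_num
  · norm_num
  · norm_num
  · exact prime_2931542417

theorem prime_78919881726271091143763623681 : Nat.Prime 78919881726271091143763623681 := by
  refine prime_of_cert 78919881726271091143763623681 47 96 [2, 2, 2, 2, 2, 2, 2, 2, 3, 3, 5, 7, 13, 17, 97, 193, 241, 673, 65537, 22253377] (by norm_num) (by norm_num) ?_ (by norm_num)
    (by decide +kernel)
  intro q hq
  simp only [List.mem_cons, List.not_mem_nil, or_false] at hq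
  rcases hq with rfl | rfl | rfl | rfl | rfl | rfl | rfl | rfl | rfl | rfl | rfl | rfl | rfl | rfl | rfl | rfl | rfl | rfl | rfl | rfl
  · norm_num
  · norm_num
  · norm_num
  · norm_num
  · norm_num
  · norm_num
  · norm_num
  · norm_num
  · norm_num
  · norm_num
  · norm_num
  · norm_num
  · norm_num
  · norm_num
  · norm_num
  · norm_num
  · norm_num
  · norm_num
  · exact prime_65537
  · exact prime_22253377

end RunMult
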