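import Pool.Agent.Lib.MP_d16eef_co.P.TrS

/-! AF-RunS : the run lengths.
Induction on `k` (generalising `y`): with `htr : ∀ m < 2 ^ n, tr (ev a m) = (lamF T m : ZMod 2)`, the bit
compared at step `i` is `tr (ev a y * a ^ i)` (`ev_mX`, `mX_lt`; left: `ev_dX`, `dX_lt`, `dXf_eq`, `mXk_eq`).
`lamF T m` is 0 or 1 (`lamF_eq`) and `c` is 0 or 1, so `Nat.beq (lamF T m) c` decides
`tr (ev a m) = (c : ZMod 2)`.  `Nat.add x 1 = x + 1`. -/

namespace RunMult

open Finset

section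

variable {F : Type} [Field F] [Fintype F] [DecidableEq F] [Algebra (ZMod 2) F]

private theorem lamF_lt2 (T : List ℕ) (m : ℕ) : lamF T m < 2 := by
  rw [lamF_eq]
  split_ifs <;> omega

private theorem cast_ne_of_lt2 {x c : ℕ} (hx : x < 2) (hc : c < 2) (h : x ≠ c) :
    (x : ZMod 2) ≠ (c : ZMod 2) := by
  interval_cases x <;> interval_cases c <;> simp_all

omit [Fintype F] [DecidableEq F] in
/-- the general form: a step `g` on the codes which is multiplication by `b` on the values -/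
private theorem rn_spec (P : ℕ) (T : List ℕ) (a b : F) (g : ℕ → ℕ)
    (htr : ∀ m < P, tr (ev a m) = (lamF T m : ZMod 2)) (hg : ∀ y < P, g y < P)
    (he : ∀ y, ev a (g y) = b * ev a y) (c : ℕ) (hc : c < 2) (R : ℕ → ℕ → ℕ) (hR0 : ∀ y, R 0 y = 0)
    (hRs : ∀ k y, R (k + 1) y = cond (Nat.beq (lamF T y) c) (Nat.add (R k (g y)) 1) 0)
    (k y : ℕ) (hy : y < P) :
    R k y ≤ k ∧ (∀ i < R k y, tr (ev a y * b ^ i) = (c : ZMod 2)) ∧
    (R k y < k → tr (ev a y * b ^ R k y) ≠ (c : ZMod 2)) := by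
  induction k generalizing y with
  | zero =>
    rw [hR0]
    exact ⟨le_refl 0, fun i hi => absurd hi (Nat.not_lt_zero i), fun h => absurd h (lt_irrefl 0)⟩
  | succ k ih =>
    rw [hRs]
    cases hb : Nat.beq (lamF T y) c with
    | true =>
      have h1 : lamF T y = c := Nat.eq_of_beq_eq_true hb
      obtain ⟨h2, h3, h4⟩ := ih (g y) (hg y hy)
      have e : cond true (Nat.add (R k (g y)) 1) 0 = R k (g y) + 1 := rfl
      rw [e]
      refine ⟨by omega, fun i hi => ?_, fun h => ?_⟩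
      · cases i with
        | zero => rw [pow_zero, mul_one, htr y hy, h1]
        | succ i =>
          have h5 := h3 i (by omega)
          rw [he] at h5
          rw [← h5]
          congr 1
          ring
      · have h5 := h4 (by omega)
        rw [he] at h5
        intro h6
        apply h5
        rw [← h6]
        congr 1
        ring
    | false =>
      have h1 : lamF T y ≠ c := Nat.ne_of_beq_eq_false hb
      have e : cond false (Nat.add (R k (g y)) 1) 0 = 0 := rfl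
      rw [e]
      refine ⟨Nat.zero_le _, fun i hi => absurd hi (Nat.not_lt_zero i), fun _ => ?_⟩
      rw [pow_zero, mul_one, htr y hy]
      exact cast_ne_of_lt2 (lamF_lt2 T y) hc h1

theorem rnM_spec (n f : ℕ) (T : List ℕ) (a : F) (hf : ev a f = 0) (hfl : f < 2 ^ (n + 1))
    (hf2 : 2 ^ n ≤ f) (htr : ∀ m < 2 ^ n, tr (ev a m) = (lamF T m : ZMod 2)) (c : ℕ) (hc : c < 2)
    (k y : ℕ) (hy : y < 2 ^ n) :
    rnM (2 ^ n) f T c k y ≤ k ∧
    (∀ i < rnM (2 ^ n) f T c k y, tr (ev a y * a ^ i) = (c : ZMod 2)) ∧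
    (rnM (2 ^ n) f T c k y < k → tr (ev a y * a ^ rnM (2 ^ n) f T c k y) ≠ (c : ZMod 2)) :=
  rn_spec (2 ^ n) T a a (mXk (2 ^ n) f) htr
    (fun y hy => by rw [mXk_eq]; exact mX_lt n f y hfl hf2 hy)
    (fun y => by rw [mXk_eq]; exact ev_mX (two_eq_zero' F) a n f y hf) c hc
    (fun k y => rnM (2 ^ n) f T c k y) (fun _ => rfl) (fun _ _ => rfl) k y hy

theorem rnD_spec (n f : ℕ) (T : List ℕ) (a : F) (ha : a ≠ 0) (hf : ev a f = 0)
    (hfl : f < 2 ^ (n + 1)) (hf2 : 2 ^ n ≤ f) (hodd : f % 2 = 1)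
    (htr : ∀ m < 2 ^ n, tr (ev a m) = (lamF T m : ZMod 2)) (c : ℕ) (hc : c < 2)
    (k y : ℕ) (hy : y < 2 ^ n) :
    rnD f T c k y ≤ k ∧
    (∀ i < rnD f T c k y, tr (ev a y * a⁻¹ ^ i) = (c : ZMod 2)) ∧
    (rnD f T c k y < k → tr (ev a y * a⁻¹ ^ rnD f T c k y) ≠ (c : ZMod 2)) :=
  rn_spec (2 ^ n) T a a⁻¹ (dXf f) htr
    (fun y hy => by rw [dXf_eq]; exact dX_lt n f y hfl hy)
    (fun y => by
      rw [dXf_eq, ← ev_dX (two_eq_zero' F) a f y hodd hf, inv_mul_cancel_left₀ ha]) c hc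
    (fun k y => rnD f T c k y) (fun _ => rfl) (fun _ _ => rfl) k y hy

end

end RunMult
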