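import Pool.Agent.Lib.MP_d16eef_co.Sieve

/-! AF-Siv2 : the sieve with a core and a rest (Cohen's prime sieve).
Follow `exists_prim` in Sieve.lean.  `N = 2 ^ n - 1`, `g` a generator, `c t = 1` if `cnd κ E (g ^ t)` else 0
(`t < N`), `X = 2 ^ (2 κ b)`, `W = (6 κ + 1) 2 ^ ((n + 1) / 2)`, `e = ∏_{p ∈ C} p` (squarefree, divides `N`).
For `d ∣ N` let `S d = ∑_{t < N, d ∣ t} c t`; `exists_prim` proves `|X S(d) - N / d| ≤ X W` (`hdiv` there;
extract it as a private lemma).
* `#{t < N | gcd (t, e) = 1, c t = 1} = ∑_{d ∣ e} μ(d) S(d)`, and for a prime `r ∈ R` (`r ∤ e`)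
  `#{t < N | gcd (t, e) = 1, r ∣ t, c t = 1} = ∑_{d ∣ e} μ(d) S(d r)` (`d ∣ t` and `r ∣ t` iff `d r ∣ t`).
* `∑_{d ∣ e} μ(d) / d = ∏_{p ∈ C} (1 - 1 / p)`, `∑_{d ∣ e} |μ(d)| = 2 ^ |C|` (`siv_abs`-like with
  `e.primeFactors = C`).
* If `gcd (t, e) = 1` and no `r ∈ R` divides `t` then `gcd (t, N) = 1` (`hCR`), so
  `#{t < N | gcd (t, N) = 1, c t = 1} ≥ ∑_{d ∣ e} μ(d) S(d) - ∑_{r ∈ R} ∑_{d ∣ e} μ(d) S(d r)`, and `X` times
  this is at least `N ∏_C (1 - 1/p) (1 - ∑_R 1/r) - (1 + |R|) 2 ^ |C| X W > 0`.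
So some `t` with `gcd (t, N) = 1` satisfies `cnd κ E (g ^ t)`, and `a = g ^ t` is a generator. -/

namespace RunMult

open Finset

private theorem siv2_star (N e : ℕ) (he : 0 < e) (c : ℕ → ℤ) :
    ∑ t ∈ (range N).filter (fun t => e.Coprime t), c t =
      ∑ d ∈ e.divisors, ArithmeticFunction.moebius d * ∑ t ∈ (range N).filter (d ∣ ·), c t := by
  have e1 : ∀ d ∈ e.divisors, ArithmeticFunction.moebius d * ∑ t ∈ (range N).filter (d ∣ ·), c t
      = ∑ t ∈ range N, if d ∣ t then ArithmeticFunction.moebius d * c t else 0 := by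
    intro d _
    rw [Finset.mul_sum, Finset.sum_filter]
  rw [Finset.sum_congr rfl e1, Finset.sum_comm, Finset.sum_filter]
  refine Finset.sum_congr rfl fun t _ => ?_
  rw [← Finset.sum_filter, ← Finset.sum_mul]
  have e2 : e.divisors.filter (· ∣ t) = (e.gcd t).divisors := by
    ext d
    simp only [Finset.mem_filter, Nat.mem_divisors, Nat.dvd_gcd_iff]
    constructor
    · rintro ⟨⟨h1, _⟩, h3⟩
      exact ⟨⟨h1, h3⟩, (Nat.gcd_pos_of_pos_left t he).ne'⟩
    · rintro ⟨⟨h1, h3⟩, _⟩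
      exact ⟨⟨h1, he.ne'⟩, h3⟩
  rw [e2, siv_mobius]
  unfold Nat.Coprime
  split_ifs <;> simp

private theorem siv2_prod (e : ℕ) (hsq : Squarefree e) :
    ∏ p ∈ e.primeFactors, (1 - 1 / (p : ℚ)) =
      ∑ d ∈ e.divisors, ((ArithmeticFunction.moebius d : ℤ) : ℚ) * (1 / (d : ℚ)) := by
  let f : ArithmeticFunction ℚ := ⟨fun n => 1 / (n : ℚ), by simp⟩
  have hf : f.IsMultiplicative := by
    refine ⟨?_, ?_⟩
    · show 1 / ((1 : ℕ) : ℚ) = 1
      norm_num
    · intro m n _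
      show 1 / ((m * n : ℕ) : ℚ) = 1 / (m : ℚ) * (1 / (n : ℚ))
      push_cast
      rw [one_div_mul_one_div]
  exact hf.prodPrimeFactors_one_sub_of_squarefree f hsq

private theorem siv2_est (N e : ℕ) (he : 0 < e) (hsq : Squarefree e) (c : ℕ → ℤ) (X K Z : ℚ)
    (h : ∀ d ∈ e.divisors,
      |X * ((∑ t ∈ (range N).filter (d ∣ ·), c t : ℤ) : ℚ) - Z / d| ≤ K) :
    |X * ((∑ t ∈ (range N).filter (fun t => e.Coprime t), c t : ℤ) : ℚ)
      - Z * ∏ p ∈ e.primeFactors, (1 - 1 / (p : ℚ))| ≤ 2 ^ e.primeFactors.card * K := by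
  rw [siv2_star N e he c, siv2_prod e hsq, Int.cast_sum, Finset.mul_sum, Finset.mul_sum,
    ← Finset.sum_sub_distrib]
  have habs : (∑ d ∈ e.divisors, |((ArithmeticFunction.moebius d : ℤ) : ℚ)|)
      = 2 ^ e.primeFactors.card := by
    have h1 := siv_abs e he
    have h2 : ((∑ d ∈ e.divisors, |ArithmeticFunction.moebius d| : ℤ) : ℚ)
        = ((2 ^ e.primeFactors.card : ℤ) : ℚ) := by rw [h1]
    rw [Int.cast_sum] at h2
    simp only [Int.cast_abs] at h2
    rw [h2]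
    push_cast
    rfl
  rw [← habs, Finset.sum_mul]
  refine (Finset.abs_sum_le_sum_abs _ _).trans (Finset.sum_le_sum fun d hd => ?_)
  have h3 : X * ((ArithmeticFunction.moebius d * ∑ t ∈ (range N).filter (d ∣ ·), c t : ℤ) : ℚ)
      - Z * (((ArithmeticFunction.moebius d : ℤ) : ℚ) * (1 / (d : ℚ)))
      = ((ArithmeticFunction.moebius d : ℤ) : ℚ)
        * (X * ((∑ t ∈ (range N).filter (d ∣ ·), c t : ℤ) : ℚ) - Z / d) := by
    rw [Int.cast_mul]
    ring
  rw [h3, abs_mul]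
  exact mul_le_mul_of_nonneg_left (h d hd) (abs_nonneg _)

private theorem siv2_core (N : ℕ) (hN : 0 < N) (C R : Finset ℕ) (hCR : N.primeFactors = C ∪ R)
    (hdisj : Disjoint C R) (c : ℕ → ℤ) (hc0 : ∀ t, 0 ≤ c t) (X W : ℚ) (hX : 0 < X)
    (hdiv : ∀ d ∈ N.divisors,
      |X * ((∑ t ∈ (range N).filter (d ∣ ·), c t : ℤ) : ℚ) - (N : ℚ) / d| ≤ X * W)
    (hineq : X * W * (2 ^ C.card * (1 + R.card)) <
      (∏ p ∈ C, (1 - 1 / (p : ℚ))) * (1 - ∑ p ∈ R, 1 / (p : ℚ)) * N) :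
    ∑ t ∈ (range N).filter (fun t => N.Coprime t), c t ≠ 0 := by
  classical
  have hprime : ∀ p ∈ C ∪ R, p.Prime ∧ p ∣ N := by
    intro p hp
    rw [← hCR] at hp
    exact ⟨Nat.prime_of_mem_primeFactors hp, Nat.dvd_of_mem_primeFactors hp⟩
  have hC : ∀ p ∈ C, p.Prime := fun p hp => (hprime p (Finset.mem_union_left _ hp)).1
  obtain ⟨e, hedef⟩ : ∃ e, e = ∏ p ∈ C, p := ⟨_, rfl⟩
  have hefac : e.primeFactors = C := by
    rw [hedef]
    exact Nat.primeFactors_prod hC
  have hesq : Squarefree e := by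
    rw [hedef]
    refine Finset.squarefree_prod_of_pairwise_isCoprime (fun p hp q hq hpq => ?_)
      fun p hp => (hC p hp).squarefree
    simp only [Function.onFun, ← Nat.coprime_iff_isRelPrime]
    exact (Nat.coprime_primes (hC p hp) (hC q hq)).mpr hpq
  have he0 : 0 < e := Nat.pos_of_ne_zero hesq.ne_zero
  have heN : e ∣ N := by
    have h1 : e ∣ ∏ p ∈ N.primeFactors, p := by
      rw [hedef, hCR]
      exact Finset.prod_dvd_prod_of_subset _ _ _ Finset.subset_union_left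
    exact h1.trans (Nat.prod_primeFactors_dvd N)
  -- the core
  have hA := siv2_est N e he0 hesq c X (X * W) N (fun d hd =>
    hdiv d (Nat.mem_divisors.2 ⟨(Nat.dvd_of_mem_divisors hd).trans heN, hN.ne'⟩))
  have hB : ∀ r ∈ R, |X * ((∑ t ∈ (range N).filter (fun t => e.Coprime t),
      (if r ∣ t then c t else 0) : ℤ) : ℚ) - (N : ℚ) / r * ∏ p ∈ e.primeFactors, (1 - 1 / (p : ℚ))|
      ≤ 2 ^ e.primeFactors.card * (X * W) := by
    intro r hr
    refine siv2_est N e he0 hesq (fun t => if r ∣ t then c t else 0) X (X * W) (N / r) ?_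
    intro d hd
    have hde := Nat.dvd_of_mem_divisors hd
    have hrp := hprime r (Finset.mem_union_right _ hr)
    have hre : e.Coprime r := by
      rw [Nat.coprime_comm]
      refine (Nat.Prime.coprime_iff_not_dvd hrp.1).2 fun hh => ?_
      have h1 : r ∈ e.primeFactors := Nat.mem_primeFactors.2 ⟨hrp.1, hh, he0.ne'⟩
      rw [hefac] at h1
      exact Finset.disjoint_left.1 hdisj h1 hr
    have hdr : d.Coprime r := Nat.Coprime.coprime_dvd_left hde hre
    have h2 : d * r ∈ N.divisors := Nat.mem_divisors.2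
      ⟨Nat.Coprime.mul_dvd_of_dvd_of_dvd hdr (hde.trans heN) hrp.2, hN.ne'⟩
    have h3 : ∑ t ∈ (range N).filter (d ∣ ·), (if r ∣ t then c t else 0)
        = ∑ t ∈ (range N).filter (d * r ∣ ·), c t := by
      rw [← Finset.sum_filter, Finset.filter_filter]
      congr 1
      ext t
      simp only [Finset.mem_filter, Finset.mem_range]
      constructor
      · rintro ⟨h4, h5, h6⟩
        exact ⟨h4, Nat.Coprime.mul_dvd_of_dvd_of_dvd hdr h5 h6⟩
      · rintro ⟨h4, h5⟩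
        exact ⟨h4, (dvd_mul_right d r).trans h5, (dvd_mul_left r d).trans h5⟩
    rw [h3]
    have h4 := hdiv (d * r) h2
    have h5 : (N : ℚ) / ((d * r : ℕ) : ℚ) = (N : ℚ) / r / d := by
      push_cast
      rw [div_div, mul_comm]
    rwa [h5] at h4
  rw [hefac] at hA hB
  -- comparison
  have hT : ∑ t ∈ (range N).filter (fun t => e.Coprime t), c t
      - ∑ r ∈ R, ∑ t ∈ (range N).filter (fun t => e.Coprime t), (if r ∣ t then c t else 0)
      ≤ ∑ t ∈ (range N).filter (fun t => N.Coprime t), c t := by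
    rw [Finset.sum_comm, ← Finset.sum_sub_distrib]
    have hsub : (range N).filter (fun t => N.Coprime t) ⊆
        (range N).filter (fun t => e.Coprime t) := by
      intro t ht
      rw [Finset.mem_filter] at ht ⊢
      exact ⟨ht.1, Nat.Coprime.coprime_dvd_left heN ht.2⟩
    rw [← Finset.sum_sdiff hsub]
    have h1 : ∑ t ∈ (range N).filter (fun t => e.Coprime t) \
        (range N).filter (fun t => N.Coprime t), (c t - ∑ r ∈ R, if r ∣ t then c t else 0) ≤ 0 := by
      refine Finset.sum_nonpos fun t ht => ?_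
      rw [Finset.mem_sdiff, Finset.mem_filter, Finset.mem_filter] at ht
      obtain ⟨⟨ht1, ht2⟩, ht3⟩ := ht
      have ht4 : ¬ N.Coprime t := fun hh => ht3 ⟨ht1, hh⟩
      obtain ⟨r, hr1, hr2⟩ := Nat.exists_prime_and_dvd ht4
      have hrN : r ∣ N := hr2.trans (Nat.gcd_dvd_left N t)
      have hrt : r ∣ t := hr2.trans (Nat.gcd_dvd_right N t)
      have hr3 : r ∈ C ∪ R := by
        rw [← hCR]
        exact Nat.mem_primeFactors.2 ⟨hr1, hrN, hN.ne'⟩
      have hr4 : r ∈ R := by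
        rcases Finset.mem_union.1 hr3 with h2 | h2
        · exfalso
          have h3 : r ∣ e := by
            rw [hedef]
            exact Finset.dvd_prod_of_mem _ h2
          have h4 : r ∣ e.gcd t := Nat.dvd_gcd h3 hrt
          rw [ht2] at h4
          exact hr1.one_lt.ne' (Nat.dvd_one.1 h4)
        · exact h2
      have h5 : c t ≤ ∑ r ∈ R, if r ∣ t then c t else 0 := by
        refine le_trans ?_ (Finset.single_le_sum (f := fun r => if r ∣ t then c t else 0)
          (fun s _ => ?_) hr4)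
        · rw [if_pos hrt]
        · split_ifs
          · exact hc0 t
          · exact le_refl 0
      linarith
    have h2 : ∑ t ∈ (range N).filter (fun t => N.Coprime t),
        (c t - ∑ r ∈ R, if r ∣ t then c t else 0)
        ≤ ∑ t ∈ (range N).filter (fun t => N.Coprime t), c t := by
      refine Finset.sum_le_sum fun t _ => ?_
      have h3 : 0 ≤ ∑ r ∈ R, if r ∣ t then c t else 0 := by
        refine Finset.sum_nonneg fun r _ => ?_
        split_ifs
        · exact hc0 t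
        · exact le_refl 0
      linarith
    linarith
  intro h0
  rw [h0] at hT
  have hTQ : ((∑ t ∈ (range N).filter (fun t => e.Coprime t), c t : ℤ) : ℚ)
      - ∑ r ∈ R, ((∑ t ∈ (range N).filter (fun t => e.Coprime t),
        (if r ∣ t then c t else 0) : ℤ) : ℚ) ≤ 0 := by
    have h1 := (Int.cast_le (R := ℚ)).2 hT
    rw [Int.cast_sub, Int.cast_zero, Int.cast_sum (s := R)] at h1
    exact h1
  have hA' := (abs_le.1 hA).1
  have hB' : X * ∑ r ∈ R, ((∑ t ∈ (range N).filter (fun t => e.Coprime t),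
        (if r ∣ t then c t else 0) : ℤ) : ℚ)
      ≤ ∑ r ∈ R, ((N : ℚ) / r * ∏ p ∈ C, (1 - 1 / (p : ℚ)) + 2 ^ C.card * (X * W)) := by
    rw [Finset.mul_sum]
    refine Finset.sum_le_sum fun r hr => ?_
    have := (abs_le.1 (hB r hr)).2
    linarith
  rw [Finset.sum_add_distrib, Finset.sum_const, nsmul_eq_mul] at hB'
  have h6 : ∑ r ∈ R, (N : ℚ) / r * ∏ p ∈ C, (1 - 1 / (p : ℚ))
      = N * (∏ p ∈ C, (1 - 1 / (p : ℚ))) * ∑ r ∈ R, 1 / (r : ℚ) := by
    rw [Finset.mul_sum]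
    refine Finset.sum_congr rfl fun r _ => ?_
    ring
  rw [h6] at hB'
  have h7 := mul_le_mul_of_nonneg_left hTQ hX.le
  rw [mul_sub, mul_zero] at h7
  nlinarith

theorem exists_prim2 {F : Type} [Field F] [Fintype F] [DecidableEq F] [Algebra (ZMod 2) F]
    (n κ b : ℕ) (hn : 2 ≤ n) (hκ : 1 ≤ κ) (hF : Fintype.card F = 2 ^ n)
    (E : Finset F) (hE0 : (0 : F) ∈ E) (hEadd : ∀ x ∈ E, ∀ y ∈ E, x + y ∈ E)
    (hEc : E.card = 2 ^ b) (C R : Finset ℕ) (hCR : (2 ^ n - 1).primeFactors = C ∪ R)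
    (hdisj : Disjoint C R)
    (hineq : (2 : ℚ) ^ (2 * κ * b) * ((6 * κ + 1) * 2 ^ ((n + 1) / 2)) *
      (2 ^ C.card * (1 + R.card)) <
      (∏ p ∈ C, (1 - 1 / (p : ℚ))) * (1 - ∑ p ∈ R, 1 / (p : ℚ)) * (2 ^ n - 1)) :
    ∃ a : F, orderOf a = 2 ^ n - 1 ∧ cnd κ E a := by
  classical
  obtain ⟨g, hg, ho⟩ := siv_gen n hF
  obtain ⟨N, hNdef⟩ : ∃ N, N = 2 ^ n - 1 := ⟨_, rfl⟩
  have h4 : 4 ≤ 2 ^ n := by
    calc 4 = 2 ^ 2 := by norm_num
      _ ≤ 2 ^ n := Nat.pow_le_pow_right (by norm_num) hn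
  have hN : 0 < N := by omega
  have hNodd : Odd N := by
    obtain ⟨m, hm⟩ : ∃ m, 2 ^ n = 2 * m := ⟨2 ^ (n - 1), by rw [← pow_succ']; congr 1; omega⟩
    exact ⟨m - 1, by omega⟩
  have hNQ : (N : ℚ) = 2 ^ n - 1 := by
    rw [hNdef, Nat.cast_sub (by omega)]
    push_cast
    rfl
  rw [← hNdef] at ho hCR ⊢
  rw [← hNQ] at hineq
  set c : ℕ → ℤ := fun t => if cnd κ E (g ^ t) then 1 else 0 with hc
  set X : ℤ := 2 ^ (2 * κ * b) with hX
  set Q : ℤ := 2 ^ ((n + 1) / 2) with hQ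
  have hX0 : 0 < X := by positivity
  have hQ0 : 0 < Q := by positivity
  -- the estimate for one divisor
  have hdiv : ∀ d ∈ N.divisors, |X * (∑ t ∈ (range N).filter (d ∣ ·), c t) -
      (∑ t ∈ (range N).filter (d ∣ ·), (1 : ℤ))| ≤ X * ((6 * κ + 1) * Q) := by
    intro d hd
    obtain ⟨⟨M, hM⟩, _⟩ := Nat.mem_divisors.mp hd
    have hd0 : 0 < d := Nat.pos_of_mem_divisors hd
    have hdodd : Odd d := hNodd.of_dvd_nat ⟨M, hM⟩
    have hcard := card_cnd n κ b d hn hκ hF E hE0 hEadd hEc hdodd _ rfl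
    rw [siv_count n hF g hg (by rw [ho, hNdef]) (fun y => cnd κ E (y ^ d)), ← hNdef] at hcard
    have e1 : ∑ t ∈ range N, (if cnd κ E ((g ^ t) ^ d) then (1 : ℤ) else 0)
        = d * ∑ u ∈ range M, c (d * u) := by
      rw [hM]
      have := siv_periodic (fun t => if cnd κ E ((g ^ t) ^ d) then (1 : ℤ) else 0) M (by
        intro t
        have : (g ^ (M + t)) ^ d = (g ^ t) ^ d := by
          rw [← pow_mul, ← pow_mul, add_mul, pow_add]
          have e : g ^ (M * d) = 1 := by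
            rw [mul_comm, ← hM, ← ho]
            exact pow_orderOf_eq_one g
          rw [e, one_mul]
        simp only [this]) d
      rw [this]
      congr 1
      refine Finset.sum_congr rfl fun u _ => ?_
      simp only [hc]
      rw [← pow_mul, mul_comm u d]
    rw [e1] at hcard
    rw [siv_mult N d M hM hd0 c, siv_mult N d M hM hd0 (fun _ => 1)]
    have e2 : ((2 : ℤ) ^ n - 1) = d * M := by
      have : (N : ℤ) = d * M := by rw [hM]; push_cast; rfl
      rw [← this, hNdef]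
      push_cast [Nat.one_le_two_pow]
      rfl
    rw [e2] at hcard
    have hd0' : (0 : ℤ) < d := by exact_mod_cast hd0
    have hd1' : (1 : ℤ) ≤ d := by exact_mod_cast hd0
    have e3 : X * (d * ∑ u ∈ range M, c (d * u)) - d * M
        = d * (X * (∑ u ∈ range M, c (d * u)) - ∑ _u ∈ range M, (1 : ℤ)) := by
      simp
      ring
    rw [e3, abs_mul, abs_of_pos hd0'] at hcard
    have e4 : X * ((3 * (d * (2 * κ - 1)) + 4) * Q) ≤ d * (X * ((6 * κ + 1) * Q)) := by
      have : (3 * ((d : ℤ) * (2 * κ - 1)) + 4) ≤ d * (6 * κ + 1) := by nlinarith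
      calc X * ((3 * (d * (2 * κ - 1)) + 4) * Q) ≤ X * ((d * (6 * κ + 1)) * Q) := by
            apply mul_le_mul_of_nonneg_left _ hX0.le
            exact mul_le_mul_of_nonneg_right this hQ0.le
        _ = d * (X * ((6 * κ + 1) * Q)) := by ring
    exact le_of_mul_le_mul_left (hcard.trans e4) hd0'
  have hdivQ : ∀ d ∈ N.divisors,
      |(X : ℚ) * ((∑ t ∈ (range N).filter (d ∣ ·), c t : ℤ) : ℚ) - (N : ℚ) / d|
        ≤ (X : ℚ) * (((6 * κ + 1) * Q : ℤ) : ℚ) := by
    intro d hd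
    have h1 := hdiv d hd
    obtain ⟨⟨M, hM⟩, _⟩ := Nat.mem_divisors.mp hd
    have hd0 : 0 < d := Nat.pos_of_mem_divisors hd
    have h2 : ∑ t ∈ (range N).filter (d ∣ ·), (1 : ℤ) = M := by
      rw [siv_mult N d M hM hd0 (fun _ => 1)]
      simp
    rw [h2] at h1
    have h3 : (N : ℚ) / d = ((M : ℤ) : ℚ) := by
      have hd0' : (d : ℚ) ≠ 0 := by exact_mod_cast hd0.ne'
      rw [hM, div_eq_iff hd0']
      push_cast
      ring
    rw [h3]
    have h4 := (Int.cast_le (R := ℚ)).2 h1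
    rw [Int.cast_abs, Int.cast_sub, Int.cast_mul, Int.cast_mul X] at h4
    exact h4
  have hpos := siv2_core N hN C R hCR hdisj c (fun t => by simp only [hc]; split_ifs <;> simp)
    (X : ℚ) (((6 * κ + 1) * Q : ℤ) : ℚ) (by exact_mod_cast hX0) hdivQ (by
      rw [hX, hQ]
      push_cast
      exact hineq)
  obtain ⟨t, ht, hct⟩ := Finset.exists_ne_zero_of_sum_ne_zero hpos
  rw [Finset.mem_filter, Finset.mem_range] at ht
  have hcnd : cnd κ E (g ^ t) := by
    by_contra hcon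
    apply hct
    simp [hc, hcon]
  refine ⟨g ^ t, ?_, hcnd⟩
  rcases Nat.eq_zero_or_pos t with h0 | h0
  · -- then `N = 1`, impossible
    subst h0
    have := ht.2
    rw [Nat.coprime_zero_right] at this
    omega
  · rw [orderOf_pow' g (by omega), ho]
    have : N.gcd t = 1 := ht.2
    rw [this, Nat.div_one]

end RunMult
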