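import Pool.Agent.Lib.MP_d16eef_co.P.Siv2
import Pool.Agent.Lib.MP_d16eef_co.Assemble

/-! AF-Siv3 : numerical criterion from the primes below 128.
`adm_of_ineq_field`/`adm_of_ineq` in Assemble.lean with `exists_prim` replaced by `exists_prim2`.
From `sivChk n b κ C0 R0 s = true`:
* every element of `C0 ++ R0` is a prime `< 128` dividing `N = 2 ^ n - 1`, the list has no duplicates, and every
  prime `p < 128` dividing `N` is in it;
* let `C = C0.toFinset`, `R = N.primeFactors \ C`; the primes of `R` are those of `R0` and `k` primes `≥ 128`;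
  the product of all these primes divides `N` (`Nat.prod_primeFactors_dvd`), so
  `2 ^ (7 k) * (C0 ++ R0).prod ≤ N < 2 ^ (7 (s + 1)) * (C0 ++ R0).prod`, hence `k ≤ s`;
* `∑_{R} 1 / p ≤ ∑_{R0} 1 / p + s / 128`, `|R| ≤ |R0| + s`; the last inequality of `sivChk` is the inequality of
  `exists_prim2` multiplied by `(∏ C0) (∏ R0) 128`. -/

namespace RunMult

open Finset

/-- the list of the numbers `l.prod / q`, summed -/
def sumInv (l : List ℕ) : ℕ := (l.map fun q => l.prod / q).sum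

def sivChk (n b κ : ℕ) (C0 R0 : List ℕ) (s : ℕ) : Bool :=
  ((List.range 128).all fun p => decide (p < 2) || decide ((2 ^ n - 1) % p ≠ 0) ||
    (C0 ++ R0).any fun q => decide (p % q = 0)) &&
  ((C0 ++ R0).all fun q => decide (2 ≤ q) && decide (q < 128) && decide ((2 ^ n - 1) % q = 0) &&
    (List.range q).all fun d => decide (d < 2) || decide (q % d ≠ 0)) &&
  decide (C0 ++ R0).Nodup &&
  decide (2 ^ n - 1 < 2 ^ (7 * (s + 1)) * (C0 ++ R0).prod) &&
  decide (2 ^ (2 * κ * b) * ((6 * κ + 1) * 2 ^ ((n + 1) / 2)) *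
      (2 ^ C0.length * (1 + R0.length + s)) * (C0.prod * R0.prod * 128) +
    (C0.map (· - 1)).prod * (sumInv R0 * 128 + s * R0.prod) * (2 ^ n - 1) <
    (C0.map (· - 1)).prod * (R0.prod * 128) * (2 ^ n - 1))

private theorem siv3_prime {q : ℕ} (h2 : 2 ≤ q)
    (h : ∀ d ∈ List.range q, d < 2 ∨ q % d ≠ 0) : q.Prime := by
  rw [Nat.prime_def_lt']
  refine ⟨h2, fun m hm hmq hd => ?_⟩
  rcases h m (List.mem_range.2 hmq) with h1 | h1
  · omega
  · exact h1 (Nat.mod_eq_zero_of_dvd hd)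

private theorem siv3_sumInv (l : List ℕ) (hl : ∀ q ∈ l, 2 ≤ q) :
    ((sumInv l : ℕ) : ℚ) = (l.prod : ℚ) * (l.map fun q : ℕ => 1 / (q : ℚ)).sum := by
  unfold sumInv
  generalize hP : l.prod = P
  have hdvd : ∀ q ∈ l, q ∣ P := fun q hq => hP ▸ List.dvd_prod hq
  clear hP
  induction l with
  | nil => simp
  | cons a l ih =>
    rw [List.map_cons, List.map_cons, List.sum_cons, List.sum_cons, Nat.cast_add, mul_add,
      ih (fun q hq => hl q (List.mem_cons_of_mem a hq))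
        (fun q hq => hdvd q (List.mem_cons_of_mem a hq))]
    congr 1
    have ha := hl a List.mem_cons_self
    rw [Nat.cast_div (hdvd a List.mem_cons_self) (by
      have : a ≠ 0 := by omega
      exact_mod_cast this)]
    ring

private theorem siv3_phi (l : List ℕ) (hl : ∀ q ∈ l, 2 ≤ q) :
    (((l.map (· - 1)).prod : ℕ) : ℚ)
      = (l.prod : ℚ) * (l.map fun q : ℕ => 1 - 1 / (q : ℚ)).prod := by
  induction l with
  | nil => simp
  | cons a l ih =>
    rw [List.map_cons, List.map_cons, List.prod_cons, List.prod_cons, List.prod_cons,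
      Nat.cast_mul, ih (fun q hq => hl q (List.mem_cons_of_mem a hq)), Nat.cast_mul]
    have ha := hl a List.mem_cons_self
    have ha0 : (a : ℚ) ≠ 0 := by
      have : a ≠ 0 := by omega
      exact_mod_cast this
    rw [Nat.cast_sub (by omega)]
    field_simp
    push_cast
    ring

private theorem siv3_ineq (n b κ : ℕ) (hn : 2 ≤ n) (C0 R0 : List ℕ) (s : ℕ)
    (h : sivChk n b κ C0 R0 s = true) : ∃ C R : Finset ℕ,
    (2 ^ n - 1).primeFactors = C ∪ R ∧ Disjoint C R ∧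
    (2 : ℚ) ^ (2 * κ * b) * ((6 * κ + 1) * 2 ^ ((n + 1) / 2)) *
      (2 ^ C.card * (1 + R.card)) <
      (∏ p ∈ C, (1 - 1 / (p : ℚ))) * (1 - ∑ p ∈ R, 1 / (p : ℚ)) * (2 ^ n - 1) := by
  classical
  have h4 : 4 ≤ 2 ^ n := by
    calc 4 = 2 ^ 2 := by norm_num
      _ ≤ 2 ^ n := Nat.pow_le_pow_right (by norm_num) hn
  have hNQ : ((2 ^ n - 1 : ℕ) : ℚ) = 2 ^ n - 1 := by
    rw [Nat.cast_sub (by omega)]
    push_cast
    rfl
  unfold sivChk at h
  rw [← hNQ]
  generalize 2 ^ n - 1 = N at h h4 ⊢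
  have hN : 0 < N := by
    by_contra hcon
    have h0 : N = 0 := by omega
    subst h0
    simp at h
  simp only [Bool.and_eq_true, List.all_eq_true, Bool.or_eq_true, decide_eq_true_eq,
    List.any_eq_true] at h
  obtain ⟨⟨⟨⟨h1, h2⟩, h3⟩, h5⟩, h6⟩ := h
  have hge : ∀ q ∈ C0 ++ R0, 2 ≤ q := fun q hq => (h2 q hq).1.1.1
  have hlt : ∀ q ∈ C0 ++ R0, q < 128 := fun q hq => (h2 q hq).1.1.2
  have hpr : ∀ q ∈ C0 ++ R0, q.Prime := fun q hq => siv3_prime (hge q hq) (h2 q hq).2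
  have hdv : ∀ q ∈ C0 ++ R0, q ∣ N := fun q hq => Nat.dvd_of_mod_eq_zero (h2 q hq).1.2
  have hgeC : ∀ q ∈ C0, 2 ≤ q := fun q hq => hge q (List.mem_append_left _ hq)
  have hgeR : ∀ q ∈ R0, 2 ≤ q := fun q hq => hge q (List.mem_append_right _ hq)
  have hndC : C0.Nodup := h3.of_append_left
  have hndR : R0.Nodup := h3.of_append_right
  have hsmall : ∀ p, p.Prime → p ∣ N → p < 128 → p ∈ C0 ++ R0 := by
    intro p hp hpN hp128
    rcases h1 p (List.mem_range.2 hp128) with (h7 | h7) | ⟨q, hq, h7⟩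
    · exact absurd hp.two_le (by omega)
    · exact absurd (Nat.mod_eq_zero_of_dvd hpN) h7
    · have h8 : q ∣ p := Nat.dvd_of_mod_eq_zero h7
      rcases (Nat.dvd_prime hp).1 h8 with h9 | h9
      · have := hge q hq
        omega
      · rwa [← h9]
  have hCsub : C0.toFinset ⊆ N.primeFactors := by
    intro p hp
    rw [List.mem_toFinset] at hp
    have hp' : p ∈ C0 ++ R0 := List.mem_append_left _ hp
    exact Nat.mem_primeFactors.2 ⟨hpr p hp', hdv p hp', hN.ne'⟩
  obtain ⟨B, hBdef⟩ : ∃ B : Finset ℕ, B = N.primeFactors.filter (128 ≤ ·) := ⟨_, rfl⟩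
  have hB128 : ∀ p ∈ B, 128 ≤ p := by
    intro p hp
    rw [hBdef, Finset.mem_filter] at hp
    exact hp.2
  have hRsub : N.primeFactors \ C0.toFinset ⊆ R0.toFinset ∪ B := by
    intro p hp
    rw [Finset.mem_sdiff, List.mem_toFinset] at hp
    have hp1 := Nat.mem_primeFactors.1 hp.1
    rw [Finset.mem_union, List.mem_toFinset, hBdef, Finset.mem_filter]
    rcases Nat.lt_or_ge p 128 with h7 | h7
    · rcases List.mem_append.1 (hsmall p hp1.1 hp1.2.1 h7) with h8 | h8
      · exact absurd h8 hp.2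
      · exact Or.inl h8
    · exact Or.inr ⟨hp.1, h7⟩
  -- the number of the large primes
  have hk : B.card ≤ s := by
    have hd : Disjoint (C0 ++ R0).toFinset B := by
      rw [Finset.disjoint_left]
      intro p hp hpB
      have h7 := hlt p (List.mem_toFinset.1 hp)
      have h8 := hB128 p hpB
      omega
    have hsub : (C0 ++ R0).toFinset ∪ B ⊆ N.primeFactors := by
      intro p hp
      rcases Finset.mem_union.1 hp with h7 | h7
      · have h8 := List.mem_toFinset.1 h7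
        exact Nat.mem_primeFactors.2 ⟨hpr p h8, hdv p h8, hN.ne'⟩
      · rw [hBdef] at h7
        exact (Finset.mem_filter.1 h7).1
    have h7 : ∏ p ∈ (C0 ++ R0).toFinset ∪ B, p ∣ N :=
      (Finset.prod_dvd_prod_of_subset _ _ _ hsub).trans (Nat.prod_primeFactors_dvd N)
    have h8 := Nat.le_of_dvd hN h7
    rw [Finset.prod_union hd, List.prod_toFinset _ h3, List.map_id'] at h8
    have h9 : 128 ^ B.card ≤ ∏ p ∈ B, p := by
      have := Finset.prod_le_prod' (s := B) (f := fun _ => 128) (g := fun p => p)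
        (fun p hp => hB128 p hp)
      rwa [Finset.prod_const] at this
    have hPpos : 0 < (C0 ++ R0).prod := by
      refine Nat.pos_of_ne_zero fun h0 => ?_
      rw [List.prod_eq_zero_iff] at h0
      have := hge 0 h0
      omega
    have h10 : (C0 ++ R0).prod * 2 ^ (7 * B.card) < (C0 ++ R0).prod * 2 ^ (7 * (s + 1)) := by
      calc (C0 ++ R0).prod * 2 ^ (7 * B.card) = (C0 ++ R0).prod * 128 ^ B.card := by
            rw [pow_mul]
            norm_num
        _ ≤ (C0 ++ R0).prod * ∏ p ∈ B, p := Nat.mul_le_mul_left _ h9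
        _ ≤ N := h8
        _ < 2 ^ (7 * (s + 1)) * (C0 ++ R0).prod := h5
        _ = (C0 ++ R0).prod * 2 ^ (7 * (s + 1)) := Nat.mul_comm _ _
    have h11 := lt_of_mul_lt_mul_left h10 (Nat.zero_le _)
    have h12 := (Nat.pow_lt_pow_iff_right (by norm_num : 1 < 2)).1 h11
    omega
  refine ⟨C0.toFinset, N.primeFactors \ C0.toFinset,
    (Finset.union_sdiff_of_subset hCsub).symm, Finset.disjoint_sdiff, ?_⟩
  have hCc : C0.toFinset.card = C0.length := List.toFinset_card_of_nodup hndC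
  have hRc : (N.primeFactors \ C0.toFinset).card ≤ R0.length + s := by
    refine (Finset.card_le_card hRsub).trans ((Finset.card_union_le _ _).trans ?_)
    rw [List.toFinset_card_of_nodup hndR]
    omega
  have hRs : ∑ p ∈ N.primeFactors \ C0.toFinset, 1 / (p : ℚ)
      ≤ (R0.map fun q : ℕ => 1 / (q : ℚ)).sum + s / 128 := by
    have h7 : ∑ p ∈ N.primeFactors \ C0.toFinset, 1 / (p : ℚ)
        ≤ ∑ p ∈ R0.toFinset ∪ B, 1 / (p : ℚ) :=
      Finset.sum_le_sum_of_subset_of_nonneg hRsub fun p _ _ => by positivity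
    have h8 : ∑ p ∈ R0.toFinset ∪ B, 1 / (p : ℚ)
        ≤ ∑ p ∈ R0.toFinset, 1 / (p : ℚ) + ∑ p ∈ B, 1 / (p : ℚ) := by
      rw [← Finset.sum_union_inter]
      have : 0 ≤ ∑ p ∈ R0.toFinset ∩ B, 1 / (p : ℚ) :=
        Finset.sum_nonneg fun p _ => by positivity
      linarith
    have h9 : ∑ p ∈ B, 1 / (p : ℚ) ≤ s / 128 := by
      have h10 : ∑ p ∈ B, 1 / (p : ℚ) ≤ ∑ _p ∈ B, (1 / 128 : ℚ) := by
        refine Finset.sum_le_sum fun p hp => ?_
        have h11 : (128 : ℚ) ≤ p := by exact_mod_cast hB128 p hp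
        exact one_div_le_one_div_of_le (by norm_num) h11
      rw [Finset.sum_const, nsmul_eq_mul] at h10
      have h11 : (B.card : ℚ) ≤ s := by exact_mod_cast hk
      linarith
    rw [List.sum_toFinset _ hndR] at h8
    linarith
  have hPc : (0 : ℚ) < C0.prod := by
    have : 0 < C0.prod := Nat.pos_of_ne_zero fun h0 => by
      rw [List.prod_eq_zero_iff] at h0
      have := hgeC 0 h0
      omega
    exact_mod_cast this
  have hPr : (0 : ℚ) < R0.prod := by
    have : 0 < R0.prod := Nat.pos_of_ne_zero fun h0 => by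
      rw [List.prod_eq_zero_iff] at h0
      have := hgeR 0 h0
      omega
    exact_mod_cast this
  have hΦ : 0 ≤ (C0.map fun q : ℕ => 1 - 1 / (q : ℚ)).prod := by
    refine List.prod_nonneg fun x hx => ?_
    obtain ⟨q, hq, rfl⟩ := List.mem_map.1 hx
    have h7 : (2 : ℚ) ≤ q := by exact_mod_cast hgeC q hq
    have h8 : 1 / (q : ℚ) ≤ 1 := by
      rw [div_le_one (by linarith)]
      linarith
    linarith
  rw [hCc, List.prod_toFinset _ hndC]
  have h6Q : (((2 ^ (2 * κ * b) * ((6 * κ + 1) * 2 ^ ((n + 1) / 2)) *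
      (2 ^ C0.length * (1 + R0.length + s)) * (C0.prod * R0.prod * 128) +
    (C0.map (· - 1)).prod * (sumInv R0 * 128 + s * R0.prod) * N : ℕ)) : ℚ) <
    (((C0.map (· - 1)).prod * (R0.prod * 128) * N : ℕ) : ℚ) := by exact_mod_cast h6
  have hphi := siv3_phi C0 hgeC
  have hinv := siv3_sumInv R0 hgeR
  generalize (C0.map (· - 1)).prod = Φn at h6Q hphi
  generalize sumInv R0 = Sn at h6Q hinv
  generalize hPcn : C0.prod = Pcn at h6Q hphi hPc
  generalize hPrn : R0.prod = Prn at h6Q hinv hPr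
  push_cast at h6Q
  rw [hphi, hinv] at h6Q
  have hNn : (0 : ℚ) ≤ N := Nat.cast_nonneg N
  have hRcQ : ((N.primeFactors \ C0.toFinset).card : ℚ) ≤ R0.length + s := by exact_mod_cast hRc
  generalize (C0.map fun q : ℕ => 1 - 1 / (q : ℚ)).prod = Φ at h6Q hΦ ⊢
  generalize (R0.map fun q : ℕ => 1 / (q : ℚ)).sum = σ at h6Q hRs
  generalize ∑ p ∈ N.primeFactors \ C0.toFinset, 1 / (p : ℚ) = σ' at hRs ⊢
  generalize ((N.primeFactors \ C0.toFinset).card : ℚ) = ρ at hRcQ ⊢
  have hZ : (0 : ℚ) ≤ (2 : ℚ) ^ (2 * κ * b) * ((6 * κ + 1) * 2 ^ ((n + 1) / 2)) := by positivity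
  generalize (2 : ℚ) ^ (2 * κ * b) * ((6 * κ + 1) * 2 ^ ((n + 1) / 2)) = Z at h6Q hZ ⊢
  have h2C : (0 : ℚ) ≤ 2 ^ C0.length := by positivity
  generalize (2 : ℚ) ^ C0.length = T at h6Q h2C ⊢
  generalize ((Pcn : ℕ) : ℚ) = Pc at h6Q hPc
  generalize ((Prn : ℕ) : ℚ) = Pr at h6Q hPr
  have h7 : Z * (T * (1 + R0.length + s)) < Φ * (1 - (σ + s / 128)) * N := by
    have h8 : 0 < Pc * Pr * 128 := by positivity
    refine lt_of_mul_lt_mul_right ?_ h8.le
    have h9 : Φ * (1 - (σ + s / 128)) * N * (Pc * Pr * 128)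
        = Pc * Φ * (Pr * 128) * N - Pc * Φ * (Pr * σ * 128 + s * Pr) * N := by ring
    rw [h9]
    linarith
  calc Z * (T * (1 + ρ)) ≤ Z * (T * (1 + R0.length + s)) := by
        refine mul_le_mul_of_nonneg_left (mul_le_mul_of_nonneg_left ?_ h2C) hZ
        linarith
    _ < Φ * (1 - (σ + s / 128)) * N := h7
    _ ≤ Φ * (1 - σ') * N := by
        refine mul_le_mul_of_nonneg_right (mul_le_mul_of_nonneg_left ?_ hΦ) hNn
        linarith

private theorem siv3_field {F : Type} [Field F] [Fintype F] [DecidableEq F] [Algebra (ZMod 2) F]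
    (n b m κ : ℕ) (hF : Fintype.card F = 2 ^ n)
    (hn : 44 ≤ n) (hb : 1 ≤ b) (hbm : n = b * m) (hm : Odd m)
    (hκ1 : 8 * n ≤ 4 ^ κ) (hκ2 : 4 ^ κ < 32 * n) (C0 R0 : List ℕ) (s : ℕ)
    (h : sivChk n b κ C0 R0 s = true) : Adm n := by
  obtain ⟨E, hE, hEc, d, hdE, hd1⟩ := exists_E n b m hb hbm hm hF
  obtain ⟨C, R, hCR, hdisj, hineq⟩ := siv3_ineq n b κ (by omega) C0 R0 s h
  have hκ : 1 ≤ κ := by
    rcases Nat.eq_zero_or_pos κ with h | h
    · rw [h, pow_zero] at hκ1; omega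
    · exact h
  have hE0 : (0 : F) ∈ E := by
    rw [hE, zero_pow (by positivity)]
  have hEadd : ∀ x ∈ E, ∀ y ∈ E, x + y ∈ E := by
    intro x hx y hy
    rw [hE] at hx hy ⊢
    rw [add_pow2, hx, hy]
  obtain ⟨a, ha, hcnd⟩ := exists_prim2 n κ b (by omega) hκ hF E hE0 hEadd hEc C R hCR hdisj hineq
  obtain ⟨-, ha0⟩ := gen_ne_zero n hF a ha
  have hd0 : d ≠ 0 := by
    rintro rfl
    rw [tr_zero] at hd1
    revert hd1; decide
  have hwin := cnd_ext n b κ hb hκ hF E hE a ha0 hcnd d hdE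
  obtain ⟨g, η, hg, hgwin, hη, hη0, hηd⟩ := asm_gen n (2 * κ) hn hF a ha d hd0 hwin
  have hκn : 4 * κ ≤ n + 2 := by
    by_contra hcon
    push Not at hcon
    -- `n < 4 κ`, `8 n ≤ 4 ^ κ < 32 n < 128 κ`
    have h1 : 4 ^ κ < 128 * κ := by omega
    have h2 : ∀ k : ℕ, 12 ≤ k → 128 * k ≤ 4 ^ k := by
      intro k hk
      induction k, hk using Nat.le_induction with
      | base => norm_num
      | succ k hk ih => rw [pow_succ]; omega
    rcases Nat.lt_or_ge κ 12 with h | h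
    · omega
    · exact absurd (h2 κ h) (by omega)
  have hpow : 4 ^ κ = 2 ^ (2 * κ) := by
    rw [pow_mul]; norm_num
  obtain ⟨x, hx1, hx2, hx3, hx4⟩ := exists_x n (2 * κ) hn (by rw [← hpow]; exact hκ1)
    (by omega) hF g hg d η hd0 hη0 hηd
  exact adm_core n (2 * κ) (by omega) (by omega) hF g hg d x η hd1 hgwin hx1 hx2 hx3 hη hx4

theorem adm_of_siv (n b m κ : ℕ) (hn : 44 ≤ n) (hb : 1 ≤ b) (hbm : n = b * m) (hm : Odd m)
    (hκ1 : 8 * n ≤ 4 ^ κ) (hκ2 : 4 ^ κ < 32 * n) (C0 R0 : List ℕ) (s : ℕ)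
    (h : sivChk n b κ C0 R0 s = true) : Adm n := by
  classical
  have : Fact (Nat.Prime 2) := ⟨Nat.prime_two⟩
  let _ : Fintype (GaloisField 2 n) := Fintype.ofFinite _
  have hF : Fintype.card (GaloisField 2 n) = 2 ^ n := by
    rw [← Nat.card_eq_fintype_card]
    exact GaloisField.card 2 n (by omega)
  exact siv3_field (F := GaloisField 2 n) n b m κ hF hn hb hbm hm hκ1 hκ2 C0 R0 s h

end RunMult
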