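import Pool.Agent.Lib.MP_d16eef_co.P.Siv3

/-! The cases settled by the sieve with the primes below 128. -/

set_option maxRecDepth 100000

namespace RunMult

theorem adm_s116 : Adm 116 :=
  adm_of_siv 116 4 29 5 (by norm_num) (by norm_num) (by norm_num) (by decide) (by norm_num)
    (by norm_num) [] [3, 5, 59] 15 (by decide +kernel)

theorem adm_s124 : Adm 124 :=
  adm_of_siv 124 4 31 5 (by norm_num) (by norm_num) (by norm_num) (by decide) (by norm_num)
    (by norm_num) [] [3, 5] 17 (by decide +kernel)

theorem adm_s132 : Adm 132 :=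
  adm_of_siv 132 4 33 6 (by norm_num) (by norm_num) (by norm_num) (by decide) (by norm_num)
    (by norm_num) [3] [5, 7, 13, 23, 67, 89] 14 (by decide +kernel)

theorem adm_s140 : Adm 140 :=
  adm_of_siv 140 4 35 6 (by norm_num) (by norm_num) (by norm_num) (by decide) (by norm_num)
    (by norm_num) [3] [5, 11, 29, 31, 41, 43, 71, 113, 127] 13 (by decide +kernel)

theorem adm_s148 : Adm 148 :=
  adm_of_siv 148 4 37 6 (by norm_num) (by norm_num) (by norm_num) (by decide) (by norm_num)
    (by norm_num) [] [3, 5] 20 (by decide +kernel)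

theorem adm_s156 : Adm 156 :=
  adm_of_siv 156 4 39 6 (by norm_num) (by norm_num) (by norm_num) (by decide) (by norm_num)
    (by norm_num) [3] [5, 7, 13, 53, 79] 19 (by decide +kernel)

theorem adm_s164 : Adm 164 :=
  adm_of_siv 164 4 41 6 (by norm_num) (by norm_num) (by norm_num) (by decide) (by norm_num)
    (by norm_num) [] [3, 5, 83] 21 (by decide +kernel)

theorem adm_s172 : Adm 172 :=
  adm_of_siv 172 4 43 6 (by norm_num) (by norm_num) (by norm_num) (by decide) (by norm_num)
    (by norm_num) [] [3, 5] 24 (by decide +kernel)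

theorem adm_s180 : Adm 180 :=
  adm_of_siv 180 4 45 6 (by norm_num) (by norm_num) (by norm_num) (by decide) (by norm_num)
    (by norm_num) [3] [5, 7, 11, 13, 19, 31, 37, 41, 61, 73, 109] 18 (by decide +kernel)

theorem adm_s188 : Adm 188 :=
  adm_of_siv 188 4 47 6 (by norm_num) (by norm_num) (by norm_num) (by decide) (by norm_num)
    (by norm_num) [] [3, 5] 26 (by decide +kernel)

theorem adm_s196 : Adm 196 :=
  adm_of_siv 196 4 49 6 (by norm_num) (by norm_num) (by norm_num) (by decide) (by norm_num)
    (by norm_num) [] [3, 5, 29, 43, 113, 127] 24 (by decide +kernel)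

theorem adm_s204 : Adm 204 :=
  adm_of_siv 204 4 51 6 (by norm_num) (by norm_num) (by norm_num) (by decide) (by norm_num)
    (by norm_num) [3] [5, 7, 13, 103] 26 (by decide +kernel)

theorem adm_s212 : Adm 212 :=
  adm_of_siv 212 4 53 6 (by norm_num) (by norm_num) (by norm_num) (by decide) (by norm_num)
    (by norm_num) [] [3, 5, 107] 28 (by decide +kernel)

theorem adm_s220 : Adm 220 :=
  adm_of_siv 220 4 55 6 (by norm_num) (by norm_num) (by norm_num) (by decide) (by norm_num)
    (by norm_num) [3] [5, 11, 23, 31, 41, 89] 27 (by decide +kernel)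

theorem adm_s228 : Adm 228 :=
  adm_of_siv 228 4 57 6 (by norm_num) (by norm_num) (by norm_num) (by decide) (by norm_num)
    (by norm_num) [3] [5, 7, 13] 31 (by decide +kernel)

theorem adm_s236 : Adm 236 :=
  adm_of_siv 236 4 59 6 (by norm_num) (by norm_num) (by norm_num) (by decide) (by norm_num)
    (by norm_num) [] [3, 5] 33 (by decide +kernel)

theorem adm_s244 : Adm 244 :=
  adm_of_siv 244 4 61 6 (by norm_num) (by norm_num) (by norm_num) (by decide) (by norm_num)
    (by norm_num) [] [3, 5] 34 (by decide +kernel)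

theorem adm_s252 : Adm 252 :=
  adm_of_siv 252 4 63 6 (by norm_num) (by norm_num) (by norm_num) (by decide) (by norm_num)
    (by norm_num) [3] [5, 7, 13, 19, 29, 37, 43, 73, 109, 113, 127] 27 (by decide +kernel)

theorem adm_s260 : Adm 260 :=
  adm_of_siv 260 4 65 6 (by norm_num) (by norm_num) (by norm_num) (by decide) (by norm_num)
    (by norm_num) [3] [5, 11, 31, 41, 53] 33 (by decide +kernel)

theorem adm_s232 : Adm 232 :=
  adm_of_siv 232 8 29 6 (by norm_num) (by norm_num) (by norm_num) (by decide) (by norm_num)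
    (by norm_num) [3] [5, 17, 59] 31 (by decide +kernel)

theorem adm_s248 : Adm 248 :=
  adm_of_siv 248 8 31 6 (by norm_num) (by norm_num) (by norm_num) (by decide) (by norm_num)
    (by norm_num) [3] [5, 17] 34 (by decide +kernel)

theorem adm_s264 : Adm 264 :=
  adm_of_siv 264 8 33 6 (by norm_num) (by norm_num) (by norm_num) (by decide) (by norm_num)
    (by norm_num) [3] [5, 7, 13, 17, 23, 67, 89] 33 (by decide +kernel)

theorem adm_s280 : Adm 280 :=
  adm_of_siv 280 8 35 6 (by norm_num) (by norm_num) (by norm_num) (by decide) (by norm_num)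
    (by norm_num) [3] [5, 11, 17, 29, 31, 41, 43, 71, 113, 127] 32 (by decide +kernel)

theorem adm_s296 : Adm 296 :=
  adm_of_siv 296 8 37 6 (by norm_num) (by norm_num) (by norm_num) (by decide) (by norm_num)
    (by norm_num) [3] [5, 17] 41 (by decide +kernel)

theorem adm_s312 : Adm 312 :=
  adm_of_siv 312 8 39 6 (by norm_num) (by norm_num) (by norm_num) (by decide) (by norm_num)
    (by norm_num) [3] [5, 7, 13, 17, 53, 79] 40 (by decide +kernel)

theorem adm_s328 : Adm 328 :=
  adm_of_siv 328 8 41 6 (by norm_num) (by norm_num) (by norm_num) (by decide) (by norm_num)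
    (by norm_num) [3] [5, 17, 83] 44 (by decide +kernel)

theorem adm_s344 : Adm 344 :=
  adm_of_siv 344 8 43 6 (by norm_num) (by norm_num) (by norm_num) (by decide) (by norm_num)
    (by norm_num) [3] [5, 17] 48 (by decide +kernel)

theorem adm_s360 : Adm 360 :=
  adm_of_siv 360 8 45 6 (by norm_num) (by norm_num) (by norm_num) (by decide) (by norm_num)
    (by norm_num) [3, 5] [7, 11, 13, 17, 19, 31, 37, 41, 61, 73, 109] 43 (by decide +kernel)

theorem adm_s376 : Adm 376 :=
  adm_of_siv 376 8 47 6 (by norm_num) (by norm_num) (by norm_num) (by decide) (by norm_num)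
    (by norm_num) [3] [5, 17] 52 (by decide +kernel)

theorem adm_s392 : Adm 392 :=
  adm_of_siv 392 8 49 6 (by norm_num) (by norm_num) (by norm_num) (by decide) (by norm_num)
    (by norm_num) [3] [5, 17, 29, 43, 113, 127] 51 (by decide +kernel)

theorem adm_s408 : Adm 408 :=
  adm_of_siv 408 8 51 6 (by norm_num) (by norm_num) (by norm_num) (by decide) (by norm_num)
    (by norm_num) [3, 5] [7, 13, 17, 103] 55 (by decide +kernel)

theorem adm_s424 : Adm 424 :=
  adm_of_siv 424 8 53 6 (by norm_num) (by norm_num) (by norm_num) (by decide) (by norm_num)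
    (by norm_num) [3] [5, 17, 107] 58 (by decide +kernel)

theorem adm_s440 : Adm 440 :=
  adm_of_siv 440 8 55 6 (by norm_num) (by norm_num) (by norm_num) (by decide) (by norm_num)
    (by norm_num) [3, 5] [11, 17, 23, 31, 41, 89] 58 (by decide +kernel)

theorem adm_s456 : Adm 456 :=
  adm_of_siv 456 8 57 6 (by norm_num) (by norm_num) (by norm_num) (by decide) (by norm_num)
    (by norm_num) [3, 5] [7, 13, 17] 63 (by decide +kernel)

theorem adm_s472 : Adm 472 :=
  adm_of_siv 472 8 59 6 (by norm_num) (by norm_num) (by norm_num) (by decide) (by norm_num)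
    (by norm_num) [3] [5, 17] 66 (by decide +kernel)

theorem adm_s488 : Adm 488 :=
  adm_of_siv 488 8 61 6 (by norm_num) (by norm_num) (by norm_num) (by decide) (by norm_num)
    (by norm_num) [3] [5, 17] 68 (by decide +kernel)

theorem adm_s504 : Adm 504 :=
  adm_of_siv 504 8 63 6 (by norm_num) (by norm_num) (by norm_num) (by decide) (by norm_num)
    (by norm_num) [3, 5, 7] [13, 17, 19, 29, 37, 43, 73, 109, 113, 127] 63 (by decide +kernel)

theorem adm_s520 : Adm 520 :=
  adm_of_siv 520 8 65 7 (by norm_num) (by norm_num) (by norm_num) (by decide) (by norm_num)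
    (by norm_num) [3, 5] [11, 17, 31, 41, 53] 70 (by decide +kernel)

theorem adm_s536 : Adm 536 :=
  adm_of_siv 536 8 67 7 (by norm_num) (by norm_num) (by norm_num) (by decide) (by norm_num)
    (by norm_num) [3] [5, 17] 75 (by decide +kernel)

theorem adm_s552 : Adm 552 :=
  adm_of_siv 552 8 69 7 (by norm_num) (by norm_num) (by norm_num) (by decide) (by norm_num)
    (by norm_num) [3, 5] [7, 13, 17, 47] 75 (by decide +kernel)

end RunMult
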