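import Pool.Agent.Lib.MP_d16eef_co.P.Sq

/-! AF-TrS : the functional of the certificate is the trace.
`lamF T m` is `1` or `0` as `lam T m` is true or false: `lam` is a `foldl` of `Bool.xor` over the bits
(see `lam_eq_sum` in ExTrace.lean), `lamF` a right fold of `Nat.xor` of the same bits
(`Nat.land (Nat.shiftRight m i) 1 = (m.testBit i).toNat`).  Then the proof of `tr_evD` in ExSoundD.lean
applies: `cfun_sq'` needs `(List.range n).all (fun i => lam T (mXit (2 ^ n) f (2 * i) 1) == lam T (2 ^ i))`,
which follows from `frF` by induction as in `frb_spec` (ExSplit.lean; `mXk_eq`). -/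

namespace RunMult

open Finset

private theorem trS_bit (m i : ℕ) :
    Nat.land (Nat.shiftRight m i) 1 = if m.testBit i then 1 else 0 := by
  have h1 : Nat.land (Nat.shiftRight m i) 1 = (m.testBit i).toNat := by
    rw [Nat.toNat_testBit]
    change (m >>> i) &&& 1 = _
    rw [Nat.and_one_is_mod, Nat.shiftRight_eq_div_pow]
  rw [h1]
  cases m.testBit i <;> rfl

private theorem trS_fold (m : ℕ) (T : List ℕ) (b : Bool) :
    T.foldl (fun b i => Bool.xor b (Nat.testBit m i)) b =
      Bool.xor b (T.foldl (fun b i => Bool.xor b (Nat.testBit m i)) false) := by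
  induction T generalizing b with
  | nil => simp
  | cons i T ih =>
    rw [List.foldl_cons, List.foldl_cons, ih, ih (Bool.xor false (m.testBit i))]
    cases b <;> cases m.testBit i <;>
      cases T.foldl (fun b i => Bool.xor b (Nat.testBit m i)) false <;> rfl

theorem lamF_eq (T : List ℕ) (m : ℕ) : lamF T m = if lam T m then 1 else 0 := by
  induction T with
  | nil => rfl
  | cons i T ih =>
    have e1 : lamF (i :: T) m = Nat.xor (lamF T m) (Nat.land (Nat.shiftRight m i) 1) := rfl
    have e2 : lam (i :: T) m = Bool.xor (m.testBit i) (lam T m) := by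
      unfold lam
      rw [List.foldl_cons, trS_fold]
      simp
    rw [e1, e2, ih, trS_bit]
    cases lam T m <;> cases m.testBit i <;> rfl

private theorem trS_frF (P f : ℕ) (T : List ℕ) (k u v : ℕ) (h : frF P f T k u v = true) (i : ℕ)
    (hi : i < k) : lam T (mXit P f (2 * i) u) = lam T (2 ^ i * v) := by
  induction k generalizing u v i with
  | zero => omega
  | succ k ih =>
    have e0 : frF P f T (k + 1) u v = cond (Nat.beq (lamF T u) (lamF T v))
      (frF P f T k (mXk P f (mXk P f u)) (Nat.mul 2 v)) false := rfl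
    rw [e0] at h
    cases hb : Nat.beq (lamF T u) (lamF T v) with
    | false =>
      rw [hb] at h
      exact absurd h (by simp)
    | true =>
      rw [hb] at h
      have h1 : lamF T u = lamF T v := Nat.eq_of_beq_eq_true hb
      have h2 : frF P f T k (mXk P f (mXk P f u)) (Nat.mul 2 v) = true := h
      cases i with
      | zero =>
        rw [lamF_eq, lamF_eq] at h1
        have h3 : lam T u = lam T v := by
          revert h1
          cases lam T u <;> cases lam T v <;> simp
        simpa [mXit] using h3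
      | succ i =>
        have h3 := ih _ _ h2 i (by omega)
        have e1 : mXit P f (2 * (i + 1)) u = mXit P f (2 * i) (mX P f (mX P f u)) := rfl
        have e2 : 2 ^ (i + 1) * v = 2 ^ i * (2 * v) := by ring
        rw [e1, e2, ← mXk_eq P f u, ← mXk_eq P f (mXk P f u)]
        exact h3

theorem tr_evS {F : Type} [Field F] [Fintype F] [DecidableEq F] [Algebra (ZMod 2) F] (n f : ℕ)
    (T : List ℕ) (d : ℕ) (hn : 2 ≤ n) (hF : Fintype.card F = 2 ^ n) (a : F)
    (ha : orderOf a = 2 ^ n - 1) (hf : ev a f = 0) (hfl : f < 2 ^ (n + 1)) (hf2 : 2 ^ n ≤ f)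
    (hT : ∀ i ∈ T, i < n) (hd : d < 2 ^ n) (hd1 : lamF T d = 1)
    (hfr : frF (2 ^ n) f T n 1 1 = true) (m : ℕ) (hm : m < 2 ^ n) :
    tr (ev a m) = (lamF T m : ZMod 2) := by
  have hfr' : (List.range n).all
      (fun i => lam T (mXit (2 ^ n) f (2 * i) 1) == lam T (2 ^ i)) = true := by
    rw [List.all_eq_true]
    intro i hi
    rw [beq_iff_eq]
    have h3 := trS_frF (2 ^ n) f T n 1 1 hfr i (List.mem_range.mp hi)
    rwa [mul_one] at h3
  have hsq := cfun_sq' n f T hn hF a ha hf hfl hf2 hT hfr'
  obtain ⟨b, hb⟩ := exists_tr (cfun n hF a ha T)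
  have hb2 : b - b ^ 2 = 0 := by
    apply tr_nondeg
    intro z
    obtain ⟨y, rfl⟩ := sq_surj z
    rw [sub_mul, tr_sub, ← mul_pow, tr_sq, ← hb, ← hb, hsq, sub_self]
  have hb01 : b * (1 - b) = 0 := by rw [← hb2]; ring
  have hd1' : lam T d = true := by
    rw [lamF_eq] at hd1
    by_contra hc
    rw [if_neg hc] at hd1
    exact absurd hd1 (by norm_num)
  have hL1 : cfun n hF a ha T (ev a d) = 1 := by
    rw [cfun_ev n hF a ha T hT d hd, if_pos hd1']
  have e3 : ((lamF T m : ℕ) : ZMod 2) = if lam T m then 1 else 0 := by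
    rw [lamF_eq]
    split_ifs <;> simp
  rw [e3]
  rcases mul_eq_zero.mp hb01 with h0 | h0
  · rw [hb, h0, zero_mul, tr_zero] at hL1
    exact absurd hL1 zero_ne_one
  · have hb1 : b = 1 := (sub_eq_zero.mp h0).symm
    rw [← cfun_ev n hF a ha T hT m hm, hb, hb1, one_mul]

end RunMult
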