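import Pool.Agent.Lib.MP_d16eef_co.P.Gen
import Pool.Agent.Lib.MP_d16eef_co.P.TrS
import Pool.Agent.Lib.MP_d16eef_co.P.HashS
import Pool.Agent.Lib.MP_d16eef_co.P.Bal
import Pool.Agent.Lib.MP_d16eef_co.P.CoreP

/-! AF-Snd : soundness of the certificates.  (`PCert` is final.)
Take `F = GaloisField 2 n` (see `adm_of_prim` in ExFast.lean), `a` from `exists_genS`, `htr` from `tr_evS`,
`w false = ev a u`, `w true = ev a v`, `η = ev a eta`, and apply `adm_core_pair` with the given `K`, `tau`.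
* traces of `w e`: `tu`, `tv`; `hR`, `hL`: `brk_of_eff` for `c = 0, 1` (every element of `ZMod 2` is `0` or `1`);
* `hdist`: `ndF_spec` for `Lu ++ Lv`, `cjS_spec` and `ev_inj` (ExTrace.lean);
* `hiso`: for `j > 0`, `isoF_spec`, `notIn_spec` (`ev_mXit`, `mXit_lt`, `ev_inj`); for `j < 0` exchange the two
  elements;
* `hbal`: `bal_of_eff`; `hη`: `et0`, `zerF_spec`; `hx`: `p1`; `hP3`: `p2` (`ev_xor`); `hτ3`: `tau`
  (`ev_mXit`, `ev_dXit`); `hτ4`: second part of `isoF_spec`.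
See `adm_of_cert_field` in ExSound.lean and `adm_of_certD_field` in ExSoundD.lean/ExSplit.lean. -/

namespace RunMult

open Finset

structure PCert (n : ℕ) (ex T : List ℕ) (K tau M P P1 f d u v eta E0 E1 : ℕ) (Lu Lv : List ℕ)
    (qs : List (ℕ × ℕ)) : Prop where
  hP : P = 2 ^ n
  hP1 : P1 = 2 ^ n - 1
  hf : f = fS n ex
  hn : 3 ≤ n
  hn2 : n ≤ 256
  hex : ∀ e ∈ ex, 1 ≤ e ∧ 2 * e ≤ n
  hT : ∀ i ∈ T, i < n
  hK1 : 2 ≤ K
  hK2 : K ≤ 100
  ht1 : 1 ≤ tau
  ht2 : tau < 2 ^ n - 1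
  lu : Lu.length = n
  lv : Lv.length = n
  it : Nat.beq (itS n P1 ex n 2) 2 = true
  pq : ∀ q ∈ qs, chkS n P1 ex P f q.1 q.2 = true
  pr : ∀ p : ℕ, p.Prime → p ∣ 2 ^ n - 1 → ∃ v, (p, v) ∈ qs
  hd : d < 2 ^ n
  hd1 : lamF T d = 1
  tr : frF P f T n 1 1 = true
  hu : u < 2 ^ n
  hv : v < 2 ^ n
  heta : eta < 2 ^ n
  tu : lamF T u = 0
  tv : lamF T v = 1
  cu : cjS n P1 ex Lu u = true
  cv : cjS n P1 ex Lv v = true
  hE0 : E0 ≠ 0
  hE1 : E1 ≠ 0
  e0u : Nat.beq (effS P f T K 0 Lu 0) E0 = true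
  e0v : Nat.beq (effS P f T K 0 Lv 0) E0 = true
  e1u : Nat.beq (effS P f T K 1 Lu 0) E1 = true
  e1v : Nat.beq (effS P f T K 1 Lv 0) E1 = true
  nd : ndF M (Lu ++ Lv) 0 = true
  iso : isoF P f M (htF M (Lu ++ Lv) 0) (2 * K - 2) tau (Lu ++ Lv) = true
  p1 : notIn P f M (htF M (Lu ++ Lv) 0) (n - 1) (mXk P f u) = true
  p2 : notIn P f M (htF M (Lu ++ Lv) 0) n (Nat.xor u eta) = true
  et0 : lamF T eta = 1
  et : zerF P f T (n - 1) (mXk P f eta) = true
  tau1 : lamF T (mXn P f tau 1) ≠ lamF T (dXn f tau 1)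

private theorem snd_field {F : Type} [Field F] [Fintype F] [DecidableEq F] [Algebra (ZMod 2) F]
    (n : ℕ) (ex T : List ℕ) (K tau M P P1 f d u v eta E0 E1 : ℕ) (Lu Lv : List ℕ)
    (qs : List (ℕ × ℕ)) (hF : Fintype.card F = 2 ^ n)
    (h : PCert n ex T K tau M P P1 f d u v eta E0 E1 Lu Lv qs) : Adm n := by
  obtain ⟨rfl, rfl, rfl, hn, hn2, hex, hT, hK1, hK2, ht1, ht2, lu, lv, hit, pq, pr, hd, hd1, hfr,
    hu, hv, heta, tu, tv, cu, cv, hE0, hE1, e0u, e0v, e1u, e1v, hnd, hiso, p1, p2, et0, het,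
    tau1⟩ := h
  have h2F : (2 : F) = 0 := two_eq_zero_of_algebra F
  have hn1 : 1 ≤ n := by omega
  have hone : 1 < 2 ^ n := Nat.one_lt_two_pow (by omega)
  have hfl := fS_lt n ex hn1 hex
  have hf2 := fS_ge n ex hn1 hex
  have hodd := fS_odd n ex hn1 hex
  obtain ⟨a, hf, ha⟩ := exists_genS F n ex (by omega) hn2 hF hex hit qs pq pr
  have ha0 : a ≠ 0 := by
    rintro rfl
    rw [orderOf_zero] at ha
    omega
  have htr : ∀ m < 2 ^ n, tr (ev a m) = (lamF T m : ZMod 2) := fun m hm =>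
    tr_evS n (fS n ex) T d (by omega) hF a ha hf hfl hf2 hT hd hd1 hfr m hm
  have hMx : ∀ k m, m < 2 ^ n → mXit (2 ^ n) (fS n ex) k m < 2 ^ n := fun k m hm =>
    mXit_lt n (fS n ex) k m hfl hf2 hm
  have eMx : ∀ k m, ev a (mXit (2 ^ n) (fS n ex) k m) = a ^ k * ev a m := fun k m =>
    ev_mXit h2F a n (fS n ex) k m hf
  have hDx : ∀ k m, m < 2 ^ n → dXit (fS n ex) k m < 2 ^ n := fun k m hm =>
    dXit_lt n (fS n ex) k m hfl hm
  have eDx : ∀ k m, ev a (dXit (fS n ex) k m) = (a ^ k)⁻¹ * ev a m := fun k m => by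
    rw [eq_inv_mul_iff_mul_eq₀ (pow_ne_zero _ ha0)]
    exact ev_dXit h2F a (fS n ex) k m hodd hf
  have hcu : ∀ s (hs : s < Lu.length), Lu[s] < 2 ^ n ∧ ev a Lu[s] = ev a u ^ (2 ^ s) :=
    fun s hs => cjS_spec h2F a n ex hn1 hn2 hex hf Lu u hu cu s hs
  have hcv : ∀ s (hs : s < Lv.length), Lv[s] < 2 ^ n ∧ ev a Lv[s] = ev a v ^ (2 ^ s) :=
    fun s hs => cjS_spec h2F a n ex hn1 hn2 hex hf Lv v hv cv s hs
  obtain ⟨w, hwf, hwt⟩ : ∃ w : Bool → F, w false = ev a u ∧ w true = ev a v :=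
    ⟨fun e => if e then ev a v else ev a u, rfl, rfl⟩
  have hget : ∀ s < n, ∀ e : Bool, ∃ y, (Lu ++ Lv)[if e then n + s else s]? = some y ∧
      y < 2 ^ n ∧ ev a y = w e ^ (2 ^ s) := by
    intro s hs e
    cases e with
    | false =>
      have hs' : s < Lu.length := by omega
      refine ⟨Lu[s], ?_, (hcu s hs').1, ?_⟩
      · simp only [Bool.false_eq_true, if_false]
        rw [List.getElem?_append_left hs', List.getElem?_eq_getElem hs']
      · rw [hwf]; exact (hcu s hs').2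
    | true =>
      have hs' : s < Lv.length := by omega
      refine ⟨Lv[s], ?_, (hcv s hs').1, ?_⟩
      · simp only [if_true]
        rw [List.getElem?_append_right (by omega), lu, Nat.add_sub_cancel_left,
          List.getElem?_eq_getElem hs']
      · rw [hwt]; exact (hcv s hs').2
  have key : ∀ m y, y < 2 ^ n → y ∉ Lu ++ Lv → ev a y = m →
      ∀ s < n, ∀ e, m ≠ w e ^ (2 ^ s) := by
    intro m y hy hnt hm s hs e he
    obtain ⟨z, hz1, hz2, hz3⟩ := hget s hs e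
    have : y = z := ev_inj n hF a ha y z hy hz2 (by rw [hm, he, hz3])
    subst this
    exact hnt (List.mem_of_getElem? hz1)
  have hc01 : ∀ c : ZMod 2, c = ((0 : ℕ) : ZMod 2) ∨ c = ((1 : ℕ) : ZMod 2) := by decide
  have hwin : ∀ s < n, ∀ (e : Bool) (c : ZMod 2),
      (∃ i : ℤ, 1 ≤ i ∧ i ≤ K ∧ tr (w e ^ (2 ^ s) * a ^ i) ≠ c) ∧
      (∃ i : ℤ, 1 ≤ i ∧ i ≤ K ∧ tr (w e ^ (2 ^ s) * a ^ (-i)) ≠ c) := by
    intro s hs e c
    cases e with
    | false =>
      rw [hwf]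
      rcases hc01 c with rfl | rfl
      · exact brk_of_eff n (fS n ex) T a ha0 hf hfl hf2 hodd htr 0 (by norm_num) K Lu (ev a u) hcu
          E0 hE0 e0u s (by omega)
      · exact brk_of_eff n (fS n ex) T a ha0 hf hfl hf2 hodd htr 1 (by norm_num) K Lu (ev a u) hcu
          E1 hE1 e1u s (by omega)
    | true =>
      rw [hwt]
      rcases hc01 c with rfl | rfl
      · exact brk_of_eff n (fS n ex) T a ha0 hf hfl hf2 hodd htr 0 (by norm_num) K Lv (ev a v) hcv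
          E0 hE0 e0v s (by omega)
      · exact brk_of_eff n (fS n ex) T a ha0 hf hfl hf2 hodd htr 1 (by norm_num) K Lv (ev a v) hcv
          E1 hE1 e1v s (by omega)
  refine adm_core_pair n K tau hn hK1 hF a ha w (ev a eta) ?_ ?_ (fun s hs e c => (hwin s hs e c).1)
    (fun s hs e c => (hwin s hs e c).2) ?_ ?_ ?_ ?_ ?_ ?_ ht1 ht2 ?_ ?_
  · rw [hwf, htr u hu, tu, Nat.cast_zero]
  · rw [hwt, htr v hv, tv, Nat.cast_one]
  · -- distinctness
    intro s hs s' hs' e e' h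
    obtain ⟨y, hy1, hy2, hy3⟩ := hget s hs e
    obtain ⟨z, hz1, hz2, hz3⟩ := hget s' hs' e'
    have hyz : y = z := ev_inj n hF a ha y z hy2 hz2 (by rw [hy3, hz3, h])
    subst hyz
    have hnd' : (Lu ++ Lv).Nodup := ndF_spec M _ hnd
    have hi1 : (if e = true then n + s else s) < (Lu ++ Lv).length := by
      by_contra hcon
      rw [List.getElem?_eq_none (by omega)] at hy1
      simp at hy1
    have := (List.getElem?_inj hi1 hnd').mp (hy1.trans hz1.symm)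
    cases e <;> cases e' <;> simp at this ⊢ <;> omega
  · -- isolation
    have hpos : ∀ s < n, ∀ s' < n, ∀ e e' : Bool, ∀ k : ℕ, 1 ≤ k → k ≤ 2 * K - 2 →
        w e ^ (2 ^ s) * a ^ k ≠ w e' ^ (2 ^ s') := by
      intro s hs s' hs' e e' k hk1 hk2
      obtain ⟨y, hy1, hy2, hy3⟩ := hget s hs e
      have h5 := (isoF_spec _ _ _ _ _ _ _ hiso y (List.mem_of_getElem? hy1)).1
      have h6 := notIn_spec _ _ _ _ _ _ h5 (k - 1) (by omega)
      rw [mXk_eq] at h6
      have h7 : mXit (2 ^ n) (fS n ex) (k - 1) (mX (2 ^ n) (fS n ex) y) =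
          mXit (2 ^ n) (fS n ex) k y := by
        obtain ⟨k, rfl⟩ : ∃ k', k = k' + 1 := ⟨k - 1, by omega⟩
        rfl
      rw [h7] at h6
      exact key _ _ (hMx _ _ hy2) h6 (by rw [eMx, hy3, mul_comm]) s' hs' e'
    intro s hs s' hs' e e' j hj hjK h
    rcases lt_or_gt_of_ne hj with hneg | hps
    · obtain ⟨k, hk⟩ : ∃ k : ℕ, j = -(k : ℤ) := ⟨j.natAbs, by omega⟩
      subst hk
      have hk1 : 1 ≤ k := by omega
      have hk2 : k ≤ 2 * K - 2 := by
        rw [abs_neg, abs_of_nonneg (by positivity)] at hjK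
        exact_mod_cast hjK
      refine hpos s' hs' s hs e' e k hk1 hk2 ?_
      rw [← h, zpow_neg, zpow_natCast, mul_assoc, inv_mul_cancel₀ (pow_ne_zero _ ha0), mul_one]
    · obtain ⟨k, hk⟩ : ∃ k : ℕ, j = (k : ℤ) := ⟨j.natAbs, by omega⟩
      subst hk
      have hk1 : 1 ≤ k := by omega
      have hk2 : k ≤ 2 * K - 2 := by
        rw [abs_of_nonneg (by positivity)] at hjK
        exact_mod_cast hjK
      refine hpos s hs s' hs' e e' k hk1 hk2 ?_
      rw [zpow_natCast] at h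
      exact h
  · -- balance
    intro c L _
    rw [hwf, hwt]
    rcases hc01 c with rfl | rfl
    · exact bal_of_eff n (fS n ex) T a ha0 hf hfl hf2 hodd hn2 htr 0 (by norm_num) K hK2 Lu Lv lu
        lv (ev a u) (ev a v) hcu hcv E0 hE0 e0u e0v L
    · exact bal_of_eff n (fS n ex) T a ha0 hf hfl hf2 hodd hn2 htr 1 (by norm_num) K hK2 Lu Lv lu
        lv (ev a u) (ev a v) hcu hcv E1 hE1 e1u e1v L
  · -- eta
    intro l hl
    have h := htr _ (hMx l eta heta)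
    rw [eMx, mul_comm] at h
    rw [h]
    rcases Nat.eq_zero_or_pos l with rfl | hl0
    · simp only [mXit, if_true, et0, Nat.cast_one]
    · have h4 := zerF_spec _ _ _ _ _ het (l - 1) (by omega)
      rw [mXk_eq] at h4
      have h7 : mXit (2 ^ n) (fS n ex) (l - 1) (mX (2 ^ n) (fS n ex) eta) =
          mXit (2 ^ n) (fS n ex) l eta := by
        obtain ⟨l, rfl⟩ : ∃ k', l = k' + 1 := ⟨l - 1, by omega⟩
        rfl
      rw [h7] at h4
      rw [h4, if_neg (by omega), Nat.cast_zero]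
  · -- the first element
    intro l hl1 hl2 s hs e
    have h4 := notIn_spec _ _ _ _ _ _ p1 (l - 1) (by omega)
    rw [mXk_eq] at h4
    have h7 : mXit (2 ^ n) (fS n ex) (l - 1) (mX (2 ^ n) (fS n ex) u) =
        mXit (2 ^ n) (fS n ex) l u := by
      obtain ⟨l, rfl⟩ : ∃ k', l = k' + 1 := ⟨l - 1, by omega⟩
      rfl
    rw [h7] at h4
    exact key _ _ (hMx _ _ hu) h4 (by rw [eMx, mul_comm, hwf]) s hs e
  · -- the translate by eta
    intro l hl s hs e
    have h4 := notIn_spec _ _ _ _ _ _ p2 l hl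
    refine key _ _ (hMx _ _ (Nat.xor_lt_two_pow hu heta)) h4 ?_ s hs e
    rw [eMx]
    have := ev_xor h2F a u eta
    change ev a (u ^^^ eta) = _ at this
    rw [this, mul_comm, hwf]
  · -- tau
    have e1 : tr (a ^ tau) = (lamF T (mXn (2 ^ n) (fS n ex) tau 1) : ZMod 2) := by
      rw [mXn_eq, ← htr _ (hMx _ _ hone), eMx, ev_one, mul_one]
    have e2 : tr (a ^ tau)⁻¹ = (lamF T (dXn (fS n ex) tau 1) : ZMod 2) := by
      rw [dXn_eq, ← htr _ (hDx _ _ hone), eDx, ev_one, mul_one]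
    rw [e1, e2]
    intro h
    apply tau1
    revert h
    rw [lamF_eq, lamF_eq]
    cases lam T (mXn (2 ^ n) (fS n ex) tau 1) <;> cases lam T (dXn (fS n ex) tau 1) <;> simp
  · intro s hs s' hs' e e'
    obtain ⟨y, hy1, hy2, hy3⟩ := hget s hs e
    have h5 := (isoF_spec _ _ _ _ _ _ _ hiso y (List.mem_of_getElem? hy1)).2
    have h6 := notIn_spec _ _ _ _ _ _ h5 0 (by omega)
    have h7 : mXit (2 ^ n) (fS n ex) 0 (mXn (2 ^ n) (fS n ex) tau y) =
        mXit (2 ^ n) (fS n ex) tau y := by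
      rw [mXn_eq]; rfl
    rw [h7] at h6
    exact key _ _ (hMx _ _ hy2) h6 (by rw [eMx, hy3, mul_comm]) s' hs' e'

theorem adm_of_pcert (n : ℕ) (ex T : List ℕ) (K tau M P P1 f d u v eta E0 E1 : ℕ)
    (Lu Lv : List ℕ) (qs : List (ℕ × ℕ))
    (h : PCert n ex T K tau M P P1 f d u v eta E0 E1 Lu Lv qs) : Adm n := by
  classical
  let _ : Fintype (GaloisField 2 n) := Fintype.ofFinite _
  have hF : Fintype.card (GaloisField 2 n) = 2 ^ n := by
    rw [← Nat.card_eq_fintype_card]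
    exact GaloisField.card 2 n (by have := h.hn; omega)
  exact snd_field (F := GaloisField 2 n) n ex T K tau M P P1 f d u v eta E0 E1 Lu Lv qs hF h

end RunMult
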