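import Pool.Agent.Lib.MP_d16eef_co.P.Defs

/-! AF-Sq : fast squaring modulo a sparse polynomial.
* `ev_sprd`: `sp1 k mask` is additive for `Nat.xor` (`(x ^^^ (x <<< k)) &&& mask`:
  `Nat.shiftLeft_xor_distrib`, `Nat.and_xor_distrib_right` and so on; or by `Nat.eq_of_testBit_eq`), so
  `sprd (Nat.xor x y) = Nat.xor (sprd x) (sprd y)`, and `sprd (2 ^ i) = 2 ^ (2 * i)` for `i < 256` by
  `decide +kernel` (on `(List.range 256).all ...` or `∀ i < 256, ...`).  Both `m ↦ ev a (sprd m)` and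
  `m ↦ ev a m ^ 2` are additive for xor (`ev_xor`, `(x + y) ^ 2 = x ^ 2 + y ^ 2` because `2 = 0`) and agree on
  `2 ^ i`, `i < 256`; induct on `k` for `m < 2 ^ k`, `k ≤ 256`: either `m < 2 ^ k` or
  `m = Nat.xor (m % 2 ^ k) (2 ^ k)` (see `ev_mod_succ`, `testBit_top` in EvB.lean).
* `sprd_lt`: the same induction (or: `m < 2 ^ n`, top bit at most at `2 (n - 1)`).
* `ev_redS`: `m = (m % 2 ^ n) + 2 ^ n (m >>> n)`, `Nat.land m (2 ^ n - 1) = m % 2 ^ n`
  (`Nat.and_two_pow_sub_one_eq_mod`), `ev a (x <<< k) = a ^ k * ev a x` (from `ev_two_mul` by induction,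
  `Nat.shiftLeft_eq`), `ev a (mulr ex h) = ev a h * ev a (mulr ex 1)` (induction on `ex`), and
  `ev a (fS n ex) = 0` says `a ^ n = ev a (mulr ex 1)` (`2 = 0`).
* bounds: `mulr ex h < 2 ^ (k + E)` if `h < 2 ^ k` and all `e ≤ E`; with `2 e ≤ n`: `sprd m < 2 ^ (2 n)`,
  after the first step `< 2 ^ (n + n / 2)`, after the second `< 2 ^ n` (`n / 2 + n / 2 ≤ n`). -/

namespace RunMult

open Finset

private theorem sq_sp1_xor (k mask x y : ℕ) :
    sp1 k mask (Nat.xor x y) = Nat.xor (sp1 k mask x) (sp1 k mask y) := by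
  unfold sp1
  apply Nat.eq_of_testBit_eq
  intro i
  have hx : ∀ u v : ℕ, (Nat.xor u v).testBit i = Bool.xor (u.testBit i) (v.testBit i) :=
    fun u v => Nat.testBit_xor u v i
  have ha : ∀ u v : ℕ, (Nat.land u v).testBit i = (u.testBit i && v.testBit i) :=
    fun u v => Nat.testBit_and u v i
  have hs : ∀ u : ℕ, (Nat.shiftLeft u k).testBit i = (decide (i ≥ k) && u.testBit (i - k)) :=
    fun u => Nat.testBit_shiftLeft u
  have hx' : (Nat.xor x y).testBit (i - k) = Bool.xor (x.testBit (i - k)) (y.testBit (i - k)) :=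
    Nat.testBit_xor x y (i - k)
  rw [ha, hx, hx, hs, hx', hx, ha, ha, hx, hx, hs, hs]
  cases decide (i ≥ k) <;> cases x.testBit i <;> cases y.testBit i <;>
    cases x.testBit (i - k) <;> cases y.testBit (i - k) <;> cases mask.testBit i <;> rfl

private theorem sq_sprd_xor (x y : ℕ) : sprd (Nat.xor x y) = Nat.xor (sprd x) (sprd y) := by
  unfold sprd
  rw [sq_sp1_xor, sq_sp1_xor, sq_sp1_xor, sq_sp1_xor, sq_sp1_xor, sq_sp1_xor, sq_sp1_xor,
    sq_sp1_xor]

private theorem sq_sprd_zero : sprd 0 = 0 := by decide +kernel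

private theorem sq_sprd_pow_all :
    (List.range 256).all (fun i => sprd (2 ^ i) == 2 ^ (2 * i)) = true := by decide +kernel

private theorem sq_sprd_pow (i : ℕ) (hi : i < 256) : sprd (2 ^ i) = 2 ^ (2 * i) := by
  have h := (List.all_eq_true.mp sq_sprd_pow_all) i (List.mem_range.mpr hi)
  exact beq_iff_eq.1 h

private theorem sq_top (k m : ℕ) (hm : m < 2 ^ (k + 1)) (hm2 : 2 ^ k ≤ m) :
    m = Nat.xor (m % 2 ^ k) (2 ^ k) := by
  apply Nat.eq_of_testBit_eq
  intro i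
  have hx : (Nat.xor (m % 2 ^ k) (2 ^ k)).testBit i =
      Bool.xor ((m % 2 ^ k).testBit i) ((2 ^ k).testBit i) := Nat.testBit_xor _ _ i
  rw [hx, Nat.testBit_mod_two_pow, Nat.testBit_two_pow]
  rcases lt_trichotomy i k with h | h | h
  · simp [h, h.ne']
  · subst h
    rw [testBit_top i m hm hm2]
    simp
  · rw [Nat.testBit_lt_two_pow (lt_of_lt_of_le hm (Nat.pow_le_pow_right (by norm_num) h))]
    simp [h.not_gt, h.ne]

private theorem sq_ev_shiftLeft {R : Type} [CommRing R] (a : R) (x k : ℕ) :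
    ev a (Nat.shiftLeft x k) = a ^ k * ev a x := by
  have h : Nat.shiftLeft x k = x * 2 ^ k := Nat.shiftLeft_eq x k
  rw [h]
  induction k with
  | zero => simp
  | succ k ih =>
    have h1 : x * 2 ^ (k + 1) = 2 * (x * 2 ^ k) := by ring
    rw [h1, ev_two_mul, ih (Nat.shiftLeft_eq x k)]
    ring

private theorem sq_split (n m : ℕ) : m = Nat.xor (m % 2 ^ n) (Nat.shiftLeft (m / 2 ^ n) n) := by
  apply Nat.eq_of_testBit_eq
  intro i
  have hx : (Nat.xor (m % 2 ^ n) (Nat.shiftLeft (m / 2 ^ n) n)).testBit i =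
      Bool.xor ((m % 2 ^ n).testBit i) ((Nat.shiftLeft (m / 2 ^ n) n).testBit i) :=
    Nat.testBit_xor _ _ i
  have hs : (Nat.shiftLeft (m / 2 ^ n) n).testBit i =
      (decide (i ≥ n) && (m / 2 ^ n).testBit (i - n)) := Nat.testBit_shiftLeft _
  rw [hx, hs, Nat.testBit_mod_two_pow, Nat.testBit_div_two_pow]
  by_cases h : i < n
  · simp [h, Nat.not_le.2 h]
  · have h' : n ≤ i := by omega
    simp [h, h', Nat.sub_add_cancel h']

private theorem sq_ev_split {R : Type} [CommRing R] (h2 : (2 : R) = 0) (a : R) (n m : ℕ) :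
    ev a m = ev a (m % 2 ^ n) + a ^ n * ev a (m / 2 ^ n) := by
  conv_lhs => rw [sq_split n m]
  rw [ev_xor h2, sq_ev_shiftLeft]

private theorem sq_mulr_cons (e : ℕ) (ex : List ℕ) (h : ℕ) :
    mulr (e :: ex) h = Nat.xor (mulr ex h) (Nat.shiftLeft h e) := rfl

private theorem sq_ev_mulr {R : Type} [CommRing R] (h2 : (2 : R) = 0) (a : R) (ex : List ℕ)
    (h : ℕ) : ev a (mulr ex h) = ev a h * ev a (mulr ex 1) := by
  induction ex with
  | nil =>
    have e1 : mulr [] h = h := rfl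
    have e2 : mulr [] 1 = 1 := rfl
    rw [e1, e2, ev_one, mul_one]
  | cons e ex ih =>
    rw [sq_mulr_cons, sq_mulr_cons, ev_xor h2, ev_xor h2, ih, sq_ev_shiftLeft, sq_ev_shiftLeft,
      ev_one]
    ring

private theorem sq_shiftLeft_lt {h k e : ℕ} (hh : h < 2 ^ k) : Nat.shiftLeft h e < 2 ^ (k + e) := by
  have h1 : Nat.shiftLeft h e = h * 2 ^ e := Nat.shiftLeft_eq h e
  rw [h1, pow_add]
  exact Nat.mul_lt_mul_of_pos_right hh (by positivity)

private theorem sq_mulr_lt (ex : List ℕ) (E h k : ℕ) (hex : ∀ e ∈ ex, e ≤ E) (hh : h < 2 ^ k) :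
    mulr ex h < 2 ^ (k + E) := by
  induction ex with
  | nil => exact lt_of_lt_of_le hh (Nat.pow_le_pow_right (by norm_num) (by omega))
  | cons e ex ih =>
    rw [sq_mulr_cons]
    refine Nat.xor_lt_two_pow (ih fun e he => hex e (List.mem_cons_of_mem _ he)) ?_
    refine lt_of_lt_of_le (sq_shiftLeft_lt hh) (Nat.pow_le_pow_right (by norm_num) ?_)
    have := hex e List.mem_cons_self
    omega

private theorem sq_redS_lt (n j L : ℕ) (ex : List ℕ) (hex : ∀ e ∈ ex, 1 ≤ e ∧ 2 * e ≤ n) (m : ℕ)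
    (hm : m < 2 ^ (n + j)) (hL1 : n ≤ L) (hL2 : j + n / 2 ≤ L) :
    redS n (2 ^ n - 1) ex m < 2 ^ L := by
  unfold redS
  have h1 : Nat.land m (2 ^ n - 1) = m % 2 ^ n := Nat.and_two_pow_sub_one_eq_mod m n
  have h2 : Nat.shiftRight m n = m / 2 ^ n := Nat.shiftRight_eq_div_pow m n
  rw [h1, h2]
  refine Nat.xor_lt_two_pow ?_ ?_
  · exact lt_of_lt_of_le (Nat.mod_lt _ (by positivity)) (Nat.pow_le_pow_right (by norm_num) hL1)
  · have h3 : m / 2 ^ n < 2 ^ j := by
      rw [Nat.div_lt_iff_lt_mul (by positivity), ← pow_add, add_comm]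
      exact hm
    refine lt_of_lt_of_le (sq_mulr_lt ex (n / 2) _ j (fun e he => ?_) h3)
      (Nat.pow_le_pow_right (by norm_num) hL2)
    have := hex e he
    omega

private theorem sq_mulr_one_lt (n : ℕ) (ex : List ℕ) (hn1 : 1 ≤ n)
    (hex : ∀ e ∈ ex, 1 ≤ e ∧ 2 * e ≤ n) : mulr ex 1 < 2 ^ n := by
  refine lt_of_lt_of_le (sq_mulr_lt ex (n / 2) 1 1 (fun e he => ?_) (by norm_num))
    (Nat.pow_le_pow_right (by norm_num) (by omega))
  have := hex e he
  omega

private theorem sq_mulr_one_odd (n : ℕ) (ex : List ℕ) (hex : ∀ e ∈ ex, 1 ≤ e ∧ 2 * e ≤ n) :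
    (mulr ex 1).testBit 0 = true := by
  induction ex with
  | nil => rfl
  | cons e ex ih =>
    rw [sq_mulr_cons]
    have hx : (Nat.xor (mulr ex 1) (Nat.shiftLeft 1 e)).testBit 0 =
      Bool.xor ((mulr ex 1).testBit 0) ((Nat.shiftLeft 1 e).testBit 0) := Nat.testBit_xor _ _ 0
    have hs : (Nat.shiftLeft 1 e).testBit 0 = (decide (0 ≥ e) && (1 : ℕ).testBit (0 - e)) :=
      Nat.testBit_shiftLeft _
    have he := (hex e List.mem_cons_self).1
    have he' : decide (0 ≥ e) = false := by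
      rw [decide_eq_false_iff_not]
      omega
    rw [hx, hs, ih fun e he => hex e (List.mem_cons_of_mem _ he), he']
    rfl

private theorem sq_sprd_all {R : Type} [CommRing R] (h2 : (2 : R) = 0) (a : R) (k : ℕ)
    (hk : k ≤ 256) (m : ℕ) (hm : m < 2 ^ k) : ev a (sprd m) = ev a m ^ 2 := by
  induction k generalizing m with
  | zero =>
    have h0 : m = 0 := by simpa using hm
    rw [h0, sq_sprd_zero, ev_zero]
    ring
  | succ k ih =>
    by_cases h : m < 2 ^ k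
    · exact ih (by omega) m h
    · have h1 := sq_top k m hm (by omega)
      have h3 := ih (by omega) (m % 2 ^ k) (Nat.mod_lt _ (by positivity))
      rw [h1, sq_sprd_xor, ev_xor h2, ev_xor h2, h3, sq_sprd_pow k (by omega), ev_two_pow,
        ev_two_pow]
      linear_combination (-(ev a (m % 2 ^ k) * a ^ k)) * h2

theorem ev_sprd {R : Type} [CommRing R] (h2 : (2 : R) = 0) (a : R) (m : ℕ) (hm : m < 2 ^ 256) :
    ev a (sprd m) = ev a m ^ 2 := by
  exact sq_sprd_all h2 a 256 le_rfl m hm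

theorem sprd_lt (n m : ℕ) (hn : n ≤ 256) (hm : m < 2 ^ n) : sprd m < 2 ^ (2 * n) := by
  induction n generalizing m with
  | zero =>
    have h0 : m = 0 := by simpa using hm
    rw [h0, sq_sprd_zero]
    norm_num
  | succ n ih =>
    by_cases h : m < 2 ^ n
    · exact lt_of_lt_of_le (ih m (by omega) h) (Nat.pow_le_pow_right (by norm_num) (by omega))
    · have h1 := sq_top n m hm (by omega)
      have h3 := ih (m % 2 ^ n) (by omega) (Nat.mod_lt _ (by positivity))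
      rw [h1, sq_sprd_xor, sq_sprd_pow n (by omega)]
      refine Nat.xor_lt_two_pow ?_ ?_
      · exact lt_of_lt_of_le h3 (Nat.pow_le_pow_right (by norm_num) (by omega))
      · exact Nat.pow_lt_pow_right (by norm_num) (by omega)

theorem ev_redS {R : Type} [CommRing R] (h2 : (2 : R) = 0) (a : R) (n : ℕ) (ex : List ℕ)
    (hf : ev a (fS n ex) = 0) (m : ℕ) : ev a (redS n (2 ^ n - 1) ex m) = ev a m := by
  unfold redS
  have h1 : Nat.land m (2 ^ n - 1) = m % 2 ^ n := Nat.and_two_pow_sub_one_eq_mod m n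
  have h3 : Nat.shiftRight m n = m / 2 ^ n := Nat.shiftRight_eq_div_pow m n
  rw [h1, h3, ev_xor h2, sq_ev_mulr h2, sq_ev_split h2 a n m]
  rw [fS, ev_xor h2, ev_two_pow] at hf
  linear_combination (ev a (m / 2 ^ n)) * hf - (a ^ n * ev a (m / 2 ^ n)) * h2

theorem ev_sqS {R : Type} [CommRing R] (h2 : (2 : R) = 0) (a : R) (n : ℕ) (ex : List ℕ)
    (hn : n ≤ 256) (hf : ev a (fS n ex) = 0) (m : ℕ) (hm : m < 2 ^ n) :
    ev a (sqS n (2 ^ n - 1) ex m) = ev a m ^ 2 := by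
  unfold sqS
  rw [ev_redS h2 a n ex hf, ev_redS h2 a n ex hf]
  exact ev_sprd h2 a m (lt_of_lt_of_le hm (Nat.pow_le_pow_right (by norm_num) hn))

theorem sqS_lt (n : ℕ) (ex : List ℕ) (hn1 : 1 ≤ n) (hn : n ≤ 256)
    (hex : ∀ e ∈ ex, 1 ≤ e ∧ 2 * e ≤ n) (m : ℕ) (hm : m < 2 ^ n) :
    sqS n (2 ^ n - 1) ex m < 2 ^ n := by
  unfold sqS
  have h1 := sprd_lt n m hn hm
  rw [two_mul] at h1
  have h2 := sq_redS_lt n n (n + n / 2) ex hex _ h1 (by omega) le_rfl
  exact sq_redS_lt n (n / 2) n ex hex _ h2 le_rfl (by omega)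

theorem fS_lt (n : ℕ) (ex : List ℕ) (hn1 : 1 ≤ n) (hex : ∀ e ∈ ex, 1 ≤ e ∧ 2 * e ≤ n) :
    fS n ex < 2 ^ (n + 1) := by
  unfold fS
  refine Nat.xor_lt_two_pow (Nat.pow_lt_pow_right (by norm_num) (by omega)) ?_
  exact lt_trans (sq_mulr_one_lt n ex hn1 hex) (Nat.pow_lt_pow_right (by norm_num) (by omega))

theorem fS_ge (n : ℕ) (ex : List ℕ) (hn1 : 1 ≤ n) (hex : ∀ e ∈ ex, 1 ≤ e ∧ 2 * e ≤ n) :
    2 ^ n ≤ fS n ex := by
  apply Nat.ge_two_pow_of_testBit
  unfold fS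
  have hx : (Nat.xor (2 ^ n) (mulr ex 1)).testBit n =
      Bool.xor ((2 ^ n).testBit n) ((mulr ex 1).testBit n) := Nat.testBit_xor _ _ n
  rw [hx, Nat.testBit_lt_two_pow (sq_mulr_one_lt n ex hn1 hex), Nat.testBit_two_pow_self]
  rfl

theorem fS_odd (n : ℕ) (ex : List ℕ) (hn1 : 1 ≤ n) (hex : ∀ e ∈ ex, 1 ≤ e ∧ 2 * e ≤ n) :
    fS n ex % 2 = 1 := by
  have h1 : (fS n ex).testBit 0 = true := by
    unfold fS
    have hx : (Nat.xor (2 ^ n) (mulr ex 1)).testBit 0 =
        Bool.xor ((2 ^ n).testBit 0) ((mulr ex 1).testBit 0) := Nat.testBit_xor _ _ 0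
    rw [hx, sq_mulr_one_odd n ex hex, Nat.testBit_two_pow]
    have h2 : n ≠ 0 := by omega
    simp [h2]
  rw [Nat.testBit_zero, decide_eq_true_eq] at h1
  exact h1

theorem dXf_eq (f m : ℕ) : dXf f m = dX f m := by
  unfold dXf dX
  have h1 : Nat.land m 1 = m % 2 := Nat.and_one_is_mod m
  have h2 : ∀ x : ℕ, Nat.shiftRight x 1 = x / 2 := fun x => by
    have := Nat.shiftRight_eq_div_pow x 1
    rwa [pow_one] at this
  rw [h1, h2, h2]
  rcases Nat.mod_two_eq_zero_or_one m with h | h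
  · rw [h]
    rfl
  · rw [h]
    rfl

theorem mXk_eq (P f m : ℕ) : mXk P f m = mX P f m := by
  unfold mXk mX
  by_cases h : P ≤ 2 * m
  · have : Nat.ble P (Nat.mul 2 m) = true := Nat.ble_eq.mpr h
    rw [this, if_pos h]
    rfl
  · have : Nat.ble P (Nat.mul 2 m) = false := by
      rw [Bool.eq_false_iff]
      exact fun hcon => h (Nat.ble_eq.mp hcon)
    rw [this, if_neg h]
    rfl

end RunMult
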